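import Pool.Agent.H329R3.PM.Stmts

/-!
Measurability and integrability of the radial kernel (task TaskKInt of the project H329-PME).
-/

set_option autoImplicit false

open MeasureTheory Set Filter Topology

namespace Pool.Agent.H595R3.PMKInt

open Pool.Agent.H329R3.PM

theorem measurable_sg : Measurable sg := by
  unfold sg
  have h : Measurable (fun z : ℝ => √|z|) := by fun_prop
  exact measurable_id.div ((by fun_prop : Measurable fun z : ℝ => |z|).mul h)

theorem abs_sg_le (z : ℝ) : |sg z| ≤ |z| ^ (-(1 / 2) : ℝ) := by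
  unfold sg
  rcases eq_or_ne z 0 with rfl | hz
  · simp
  · have h : 0 < |z| := abs_pos.2 hz
    have hs : 0 < √|z| := Real.sqrt_pos.2 h
    rw [abs_div, abs_mul, abs_abs, abs_of_pos hs, Real.rpow_neg h.le, ← Real.sqrt_eq_rpow]
    rw [div_mul_eq_div_div, div_self h.ne', one_div]

theorem ii_pos (b : ℝ) (hb : 0 ≤ b) :
    IntervalIntegrable (fun z : ℝ => |z| ^ (-(1 / 2) : ℝ)) volume 0 b := by
  have h : IntervalIntegrable (fun z : ℝ => z ^ (-(1 / 2) : ℝ)) volume 0 b :=
    intervalIntegral.intervalIntegrable_rpow' (by norm_num)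
  refine h.congr ?_
  intro z hz
  rw [uIoc_of_le hb] at hz
  simp only
  rw [abs_of_pos hz.1]

theorem ii_zero (b : ℝ) : IntervalIntegrable (fun z : ℝ => |z| ^ (-(1 / 2) : ℝ)) volume 0 b := by
  rcases le_total 0 b with hb | hb
  · exact ii_pos b hb
  · have h := ii_pos (-b) (by linarith)
    rw [IntervalIntegrable.iff_comp_neg] at h
    simpa using h

theorem ii (a b : ℝ) : IntervalIntegrable (fun z : ℝ => |z| ^ (-(1 / 2) : ℝ)) volume a b :=
  (ii_zero a).symm.trans (ii_zero b)

theorem int_sg (r : ℝ) : IntegrableOn (fun y => sg (r - y)) (Ioc (0 : ℝ) 1) := by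
  have h1 := (ii r (r - 1)).comp_sub_left r
  rw [sub_self, sub_sub_cancel, intervalIntegrable_iff_integrableOn_Ioc_of_le zero_le_one] at h1
  refine Integrable.mono' h1 ?_ ?_
  · exact (measurable_sg.comp (measurable_const.sub measurable_id)).aestronglyMeasurable
  · filter_upwards with y
    exact abs_sg_le _

theorem taskKInt : TaskKInt := by
  refine ⟨?_, int_sg, ?_⟩
  · unfold kk kap
    have h1 : Measurable (fun p : ℝ × ℝ => sg (p.1 - p.2)) :=
      measurable_sg.comp (measurable_fst.sub measurable_snd)
    have h2 : Measurable (fun p : ℝ × ℝ => √(p.1 + p.2)) := by fun_prop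
    have h3 : Measurable (fun p : ℝ × ℝ => √|p.1 - p.2|) := by fun_prop
    exact (measurable_snd.mul ((h2.sub h3).sub ((measurable_fst.div_const 2).mul
      ((measurable_const.div h2).sub h1)))).div (measurable_fst.pow_const 3)
  · intro r hr
    have e : kk r = fun y => y * (√(r + y) - √|r - y| - r / 2 * (1 / √(r + y))) / r ^ 3 +
        (1 / (2 * r ^ 2)) * (y * sg (r - y)) := by
      funext y
      unfold kk kap
      field_simp
      ring
    rw [e]
    refine Integrable.add ?_ (Integrable.const_mul ?_ _)
    · have hc : ContinuousOn (fun y : ℝ => y * (√(r + y) - √|r - y| - r / 2 * (1 / √(r + y))) / r ^ 3)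
          (Icc (0 : ℝ) 1) := by
        have h1 : ∀ y ∈ Icc (0 : ℝ) 1, √(r + y) ≠ 0 := by
          intro y hy
          exact (Real.sqrt_pos.2 (by linarith [hy.1])).ne'
        have h2 : ContinuousOn (fun y : ℝ => √(r + y)) (Icc (0 : ℝ) 1) := by fun_prop
        have h3 : ContinuousOn (fun y : ℝ => √|r - y|) (Icc (0 : ℝ) 1) := by fun_prop
        exact (continuousOn_id.mul ((h2.sub h3).sub (continuousOn_const.mul
          (continuousOn_const.div h2 h1)))).div_const _
      exact (hc.integrableOn_compact isCompact_Icc).mono_set Ioc_subset_Icc_self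
    · refine Integrable.mono (int_sg r) ?_ ?_
      · exact (measurable_id.mul (measurable_sg.comp
          (measurable_const.sub measurable_id))).aestronglyMeasurable
      · rw [ae_restrict_iff' measurableSet_Ioc]
        filter_upwards with y hy
        rw [norm_mul]
        have h1 : ‖y‖ ≤ 1 := by
          rw [Real.norm_eq_abs, abs_of_pos hy.1]
          exact hy.2
        calc ‖y‖ * ‖sg (r - y)‖ ≤ 1 * ‖sg (r - y)‖ :=
              mul_le_mul_of_nonneg_right h1 (norm_nonneg _)
          _ = ‖sg (r - y)‖ := one_mul _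

end Pool.Agent.H595R3.PMKInt
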