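import Pool.Agent.H737R3.Cont.Stmts

/-!
Reduction modulo `p` of the containment of symbolic powers (Task T1 of the project H737-CONT).
-/

set_option autoImplicit false

universe u

namespace Pool.Agent.H595R3.ContT1

open MvPolynomial Pool.Agent.Chud Pool.Agent.H580C Pool.Agent.H737R3 Pool.Agent.H737R3.Cont

/-- the multi-indices of degree `d` -/
abbrev Dg (N d : ℕ) : Finset (Fin N →₀ ℕ) := (Finset.univ : Finset (Fin N)).finsuppAntidiag d

/-- a generalised inverse -/
theorem gen_inv {K V W : Type*} [Field K] [AddCommGroup V] [Module K V] [AddCommGroup W]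
    [Module K W] (f : V →ₗ[K] W) : ∃ g : W →ₗ[K] V, ∀ v, f (g (f v)) = f v := by
  obtain ⟨s, hs⟩ := LinearMap.exists_rightInverse_of_surjective f.rangeRestrict
    f.range_rangeRestrict
  obtain ⟨g, hg⟩ := LinearMap.exists_extend s
  refine ⟨g, fun v => ?_⟩
  have h1 : g (f v) = s (f.rangeRestrict v) := LinearMap.congr_fun hg (f.rangeRestrict v)
  rw [h1]
  exact congrArg Subtype.val (LinearMap.congr_fun hs (f.rangeRestrict v))

/-- the Taylor coefficient of a monomial -/
def tc {R : Type*} [CommRing R] {N : ℕ} (v : Fin N → R) (b c : Fin N →₀ ℕ) : R :=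
  ((∏ i, (c i).choose (b i) : ℕ) : R) * ∏ i, v i ^ (c i - b i)

theorem tc_map {R S : Type*} [CommRing R] [CommRing S] (f : R →+* S) {N : ℕ} (v : Fin N → R)
    (b c : Fin N →₀ ℕ) : f (tc v b c) = tc (fun i => f (v i)) b c := by
  unfold tc
  rw [map_mul, map_natCast, map_prod]
  simp only [map_pow]

/-- the corrected monomials -/
noncomputable def uu {R : Type*} [CommRing R] {N s : ℕ} (P : Fin s → Fin N → R) (w : Fin s → ℕ)
    (B : Fin s → (Fin N →₀ ℕ) → MvPolynomial (Fin N) R) (c : Fin N →₀ ℕ) :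
    MvPolynomial (Fin N) R :=
  monomial c 1 - ∑ i, ∑ b ∈ bx N (w i), C (tc (P i) b c) * B i b

theorem uu_map {R S : Type*} [CommRing R] [CommRing S] (f : R →+* S) {N s : ℕ}
    (P : Fin s → Fin N → R) (w : Fin s → ℕ)
    (B : Fin s → (Fin N →₀ ℕ) → MvPolynomial (Fin N) R) (c : Fin N →₀ ℕ) :
    map f (uu P w B c) = uu (fun i j => f (P i j)) w (fun i b => map f (B i b)) c := by
  unfold uu
  rw [map_sub, map_monomial, map_one, map_sum]
  congr 1
  refine Finset.sum_congr rfl fun i _ => ?_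
  rw [map_sum]
  refine Finset.sum_congr rfl fun b _ => ?_
  rw [map_mul, map_C, tc_map]

theorem exists_B {K : Type u} [Field K] {n s : ℕ} (P : Fin s → Fin (n + 1) → K)
    (w : Fin s → ℕ) (l : ℕ) :
    ∃ B : Fin s → (Fin (n + 1) →₀ ℕ) → MvPolynomial (Fin (n + 1)) K,
      ∀ c ∈ Dg (n + 1) l, (uu P w B c).IsHomogeneous l ∧ ∀ i, uu P w B c ∈ mI (P i) ^ w i := by
  classical
  let I : Finset (Σ _ : Fin s, (Fin (n + 1) →₀ ℕ)) :=
    (Finset.univ : Finset (Fin s)).sigma (fun i => bx (n + 1) (w i))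
  let V := homogeneousSubmodule (Fin (n + 1)) K l
  let E : V →ₗ[K] (I → K) :=
    { toFun := fun F x => eval (P x.1.1) (hd x.1.2 (F : MvPolynomial (Fin (n + 1)) K))
      map_add' := by
        intro F G
        ext i
        simp [map_add]
      map_smul' := by
        intro c F
        ext i
        simp [map_smul, MvPolynomial.smul_eval] }
  obtain ⟨g, hg⟩ := gen_inv E
  refine ⟨fun i b => if h : (⟨i, b⟩ : Σ _ : Fin s, (Fin (n + 1) →₀ ℕ)) ∈ I then
    ((g (Pi.single ⟨⟨i, b⟩, h⟩ 1) : V) : MvPolynomial (Fin (n + 1)) K) else 0, ?_⟩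
  intro c hc
  have hc' : c.degree = l := (TR_mem_anti _ _).1 hc
  have hF : (monomial c (1 : K)) ∈ V := by
    rw [mem_homogeneousSubmodule]
    exact isHomogeneous_monomial _ hc'
  set x : V := ⟨monomial c (1 : K), hF⟩ with hx
  have h5 : ∀ j : I, E x j = tc (P j.1.1) j.1.2 c := by
    intro j
    show eval (P j.1.1) (hd j.1.2 (monomial c (1 : K))) = _
    rw [TI_hd_monomial t_HC, eval_monomial, Finsupp.prod_fintype _ _ (by simp)]
    rfl
  have h2 : E x = ∑ j : I, (E x j) • (Pi.single j (1 : K) : I → K) := by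
    ext j
    simp [Finset.sum_apply, Pi.single_apply]
  have h3 : ((g (E x) : V) : MvPolynomial (Fin (n + 1)) K) =
      ∑ j : I, C (tc (P j.1.1) j.1.2 c) *
        ((g (Pi.single j 1) : V) : MvPolynomial (Fin (n + 1)) K) := by
    conv_lhs => rw [h2]
    rw [map_sum, Submodule.coe_sum]
    apply Finset.sum_congr rfl
    intro j _
    rw [map_smul, Submodule.coe_smul, h5, smul_eq_C_mul]
  have h4 : uu P w (fun i b => if h : (⟨i, b⟩ : Σ _ : Fin s, (Fin (n + 1) →₀ ℕ)) ∈ I then
      ((g (Pi.single ⟨⟨i, b⟩, h⟩ 1) : V) : MvPolynomial (Fin (n + 1)) K) else 0) c =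
      ((x - g (E x) : V) : MvPolynomial (Fin (n + 1)) K) := by
    unfold uu
    rw [Submodule.coe_sub, h3]
    congr 1
    rw [← Finset.sum_sigma (s := (Finset.univ : Finset (Fin s))) (t := fun i => bx (n + 1) (w i))
      (f := fun y => C (tc (P y.1) y.2 c) *
        (if h : (⟨y.1, y.2⟩ : Σ _ : Fin s, (Fin (n + 1) →₀ ℕ)) ∈ I then
          ((g (Pi.single ⟨⟨y.1, y.2⟩, h⟩ 1) : V) : MvPolynomial (Fin (n + 1)) K) else 0))]
    change ∑ y ∈ I, _ = _
    rw [← Finset.sum_coe_sort I]
    apply Finset.sum_congr rfl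
    intro j _
    have hj : (⟨(j : Σ _ : Fin s, (Fin (n + 1) →₀ ℕ)).1, (j : Σ _ : Fin s, (Fin (n + 1) →₀ ℕ)).2⟩ :
      Σ _ : Fin s, (Fin (n + 1) →₀ ℕ)) ∈ I := j.2
    rw [dif_pos hj]
  rw [h4]
  refine ⟨(mem_homogeneousSubmodule l _).1 (x - g (E x)).2, fun i => ?_⟩
  rw [(t_HV K (n + 1) (P i) _).2 (w i)]
  intro b hb
  have h6 : E (x - g (E x)) = 0 := by
    rw [map_sub, hg, sub_self]
  have hmem : (⟨i, b⟩ : Σ _ : Fin s, (Fin (n + 1) →₀ ℕ)) ∈ I :=
    Finset.mem_sigma.2 ⟨Finset.mem_univ _, (TI_mem_bx _ _ _).2 hb⟩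
  exact congrFun h6 ⟨⟨i, b⟩, hmem⟩

/-- the expansion of a form -/
theorem form_sum {R : Type*} [CommRing R] {N d : ℕ} {G : MvPolynomial (Fin N) R}
    (hG : G.IsHomogeneous d) : G = ∑ c ∈ Dg N d, monomial c (coeff c G) := by
  classical
  conv_lhs => rw [G.as_sum]
  refine Finset.sum_subset ?_ ?_
  · intro m hm
    rw [TR_mem_anti]
    by_contra h
    exact (mem_support_iff.1 hm) (hG.coeff_eq_zero h)
  · intro m _ hm
    rw [notMem_support_iff.1 hm, monomial_zero]

/-- a form which satisfies the conditions is a combination of the `uu` -/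
theorem form_uu {k : Type u} [Field k] {N s : ℕ} (P : Fin s → Fin N → k) (w : Fin s → ℕ)
    (B : Fin s → (Fin N →₀ ℕ) → MvPolynomial (Fin N) k) (l : ℕ) (H : MvPolynomial (Fin N) k)
    (hH : H.IsHomogeneous l) (hv : ∀ i, H ∈ mI (P i) ^ w i) :
    H = ∑ c ∈ Dg N l, C (coeff c H) * uu P w B c := by
  have h1 : ∀ c ∈ Dg N l, C (coeff c H) * uu P w B c = monomial c (coeff c H) -
      ∑ i, ∑ b ∈ bx N (w i), C (tc (P i) b c * coeff c H) * B i b := by
    intro c _
    unfold uu
    rw [mul_sub, C_mul_monomial, mul_one, Finset.mul_sum]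
    congr 1
    refine Finset.sum_congr rfl fun i _ => ?_
    rw [Finset.mul_sum]
    refine Finset.sum_congr rfl fun b _ => ?_
    rw [C_mul]
    ring
  rw [Finset.sum_congr rfl h1, Finset.sum_sub_distrib, ← form_sum hH, Finset.sum_comm]
  symm
  rw [sub_eq_self]
  refine Finset.sum_eq_zero fun i _ => ?_
  rw [Finset.sum_comm]
  refine Finset.sum_eq_zero fun b hb => ?_
  rw [← Finset.sum_mul, ← map_sum]
  have h2 := TR_eval_hd t_HC k N b (P i) H l hH
  have h3 := ((t_HV k N (P i) H).2 (w i)).1 (hv i) b ((TR_mem_bx _ _).1 hb)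
  rw [h3] at h2
  unfold tc
  rw [← h2, map_zero, zero_mul]

/-- the functional with the values `g c` on the monomials of degree `d` -/
noncomputable def LL {R : Type*} [CommRing R] {N : ℕ} (d : ℕ) (g : (Fin N →₀ ℕ) → R) :
    MvPolynomial (Fin N) R →ₗ[R] R :=
  ∑ c ∈ Dg N d, g c • MvPolynomial.lcoeff R c

theorem LL_apply {R : Type*} [CommRing R] {N : ℕ} (d : ℕ) (g : (Fin N →₀ ℕ) → R)
    (f : MvPolynomial (Fin N) R) : LL d g f = ∑ c ∈ Dg N d, g c * coeff c f := by
  unfold LL
  rw [LinearMap.sum_apply]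
  rfl

theorem LL_map {R S : Type*} [CommRing R] [CommRing S] (φ : R →+* S) {N : ℕ} (d : ℕ)
    (g : (Fin N →₀ ℕ) → R) (f : MvPolynomial (Fin N) R) :
    φ (LL d g f) = LL d (fun c => φ (g c)) (map φ f) := by
  rw [LL_apply, LL_apply, map_sum]
  refine Finset.sum_congr rfl fun c _ => ?_
  rw [map_mul, coeff_map]

section graded

attribute [local instance] MvPolynomial.gradedAlgebra

theorem lowI_homog {k : Type u} [Field k] {n s : ℕ} (P : Fin s → Fin (n + 1) → k)
    (w : Fin s → ℕ) (ν : ℕ) :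
    (lowI P w ν).IsHomogeneous (homogeneousSubmodule (Fin (n + 1)) k) := by
  unfold lowI
  apply Ideal.homogeneous_span
  rintro l ⟨d, -, hl, -⟩
  exact ⟨d, hl⟩

theorem lowI_pow_homog {k : Type u} [Field k] {n s : ℕ} (P : Fin s → Fin (n + 1) → k)
    (w : Fin s → ℕ) (ν : ℕ) (m : ℕ) :
    ((lowI P w ν) ^ m).IsHomogeneous (homogeneousSubmodule (Fin (n + 1)) k) := by
  induction m with
  | zero =>
    rw [pow_zero, Ideal.one_eq_top]
    exact Ideal.IsHomogeneous.top _
  | succ m ih =>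
    rw [pow_succ]
    exact ih.mul (lowI_homog P w ν)

theorem lowI_component {k : Type u} [Field k] {n s : ℕ} (P : Fin s → Fin (n + 1) → k)
    (w : Fin s → ℕ) (ν : ℕ) (m : ℕ) {f : MvPolynomial (Fin (n + 1)) k}
    (hf : f ∈ lowI P w ν ^ m) (d : ℕ) : homogeneousComponent d f ∈ lowI P w ν ^ m := by
  exact homogeneousComponent_mem_of_mem (lowI_pow_homog P w ν m) hf d

end graded

theorem LL_eq {K : Type u} [Field K] {N : ℕ} (d : ℕ) (l : MvPolynomial (Fin N) K →ₗ[K] K)
    (f : MvPolynomial (Fin N) K) :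
    LL d (fun c => l (monomial c 1)) f = l (homogeneousComponent d f) := by
  have h1 := form_sum (homogeneousComponent_isHomogeneous d f)
  rw [h1, LL_apply, map_sum]
  refine Finset.sum_congr rfl fun c hc => ?_
  have hc' : c.degree = d := (TR_mem_anti _ _).1 hc
  rw [coeff_homogeneousComponent, if_pos hc']
  have h2 : monomial c (coeff c f) = (coeff c f) • (monomial c (1 : K)) := by
    rw [smul_monomial, smul_eq_mul, mul_one]
  rw [h2, map_smul, smul_eq_mul, mul_comm]

/-- the functional over `K` -/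
theorem exists_functional {K : Type u} [Field K] {n s : ℕ} (P : Fin s → Fin (n + 1) → K)
    (w : Fin s → ℕ) (ν t d : ℕ) (F : MvPolynomial (Fin (n + 1)) K) (hF : F.IsHomogeneous d)
    (hn : F ∉ lowI P w ν ^ t) :
    ∃ g : (Fin (n + 1) →₀ ℕ) → K, LL d g F = 1 ∧ ∀ f ∈ lowI P w ν ^ t, LL d g f = 0 := by
  obtain ⟨l, hl1, hl2⟩ := Submodule.exists_le_ker_of_notMem
    (p := ((lowI P w ν) ^ t).restrictScalars K) (v := F) hn
  refine ⟨fun c => (l F)⁻¹ * l (monomial c 1), ?_, ?_⟩
  · have h1 := LL_eq d ((l F)⁻¹ • l) F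
    rw [homogeneousComponent_of_mem ((mem_homogeneousSubmodule d F).2 hF), if_pos rfl] at h1
    have h2 : ((l F)⁻¹ • l) F = 1 := by
      rw [LinearMap.smul_apply, smul_eq_mul, inv_mul_cancel₀ hl1]
    exact h1.trans h2
  · intro f hf
    have h1 := LL_eq d ((l F)⁻¹ • l) f
    have h2 : ((l F)⁻¹ • l) (homogeneousComponent d f) = 0 := by
      rw [LinearMap.smul_apply]
      have : l (homogeneousComponent d f) = 0 := hl2 (lowI_component P w ν t hf d)
      rw [this, smul_zero]
    exact h1.trans h2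

/-- the reduction homomorphism -/
theorem exists_red {K : Type u} [Field K] [CharZero K] (T : Finset K) (N : ℕ) :
    ∃ (p : ℕ) (_ : Fact p.Prime) (k : Type) (_ : Field k) (_ : IsAlgClosed k) (_ : CharP k p)
      (A : Subring K) (_ : A →+* k), N < p ∧ ∀ x ∈ T, x ∈ A := by
  obtain ⟨p, hp, k, ik, ia, ic, hN, ⟨φ⟩⟩ := t_RD K T N
  exact ⟨p, hp, k, ik, ia, ic, (Algebra.adjoin ℤ (T : Set K)).toSubring,
    φ.comp ((Algebra.adjoin ℤ (T : Set K)).toSubring.subtype.codRestrict
      (Algebra.adjoin ℤ (T : Set K)) (fun x => x.2)), hN, fun x hx => Algebra.subset_adjoin hx⟩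

/-- the main step -/
theorem step {K : Type u} [Field K] {k : Type} [Field k] (A : Subring K) (φ : A →+* k)
    {n s t d ν : ℕ} (PA : Fin s → Fin (n + 1) → A) (w : Fin s → ℕ)
    (FA : MvPolynomial (Fin (n + 1)) A)
    (BA : ℕ → Fin s → (Fin (n + 1) →₀ ℕ) → MvPolynomial (Fin (n + 1)) A)
    (gA : (Fin (n + 1) →₀ ℕ) → A)
    (hB : ∀ l < ν, ∀ c ∈ Dg (n + 1) l,
      map A.subtype (uu PA w (BA l) c) ∈ lowI (fun i j => (PA i j : K)) w ν)
    (hg1 : LL d gA FA = 1)
    (hg0 : ∀ f ∈ lowI (fun i j => (PA i j : K)) w ν ^ t,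
      LL d (fun c => (gA c : K)) f = 0) :
    map φ FA ∉ lowI (fun i j => φ (PA i j)) w ν ^ t := by
  intro hmem
  set aA : Ideal (MvPolynomial (Fin (n + 1)) A) :=
    Ideal.span {x | ∃ l < ν, ∃ c ∈ Dg (n + 1) l, x = uu PA w (BA l) c} with haA
  have hinj : Function.Injective A.subtype := Subtype.val_injective
  -- over `K`
  have hK : Ideal.map (map A.subtype) aA ≤ lowI (fun i j => (PA i j : K)) w ν := by
    rw [haA, Ideal.map_span, Ideal.span_le]
    rintro _ ⟨_, ⟨l, hl, c, hc, rfl⟩, rfl⟩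
    exact hB l hl c hc
  have hK' : ∀ f ∈ aA ^ t, map A.subtype f ∈ lowI (fun i j => (PA i j : K)) w ν ^ t := by
    intro f hf
    have h1 := Ideal.mem_map_of_mem (map A.subtype) hf
    rw [Ideal.map_pow] at h1
    exact Ideal.pow_right_mono hK t h1
  have hA0 : ∀ f ∈ aA ^ t, LL d gA f = 0 := by
    intro f hf
    apply hinj
    rw [LL_map, map_zero]
    exact hg0 _ (hK' f hf)
  -- over `k`
  have hk : lowI (fun i j => φ (PA i j)) w ν ≤ Ideal.map (map φ) aA := by
    unfold lowI
    rw [Ideal.span_le]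
    rintro H ⟨l, hl, hH, hv⟩
    rw [SetLike.mem_coe, form_uu (fun i j => φ (PA i j)) w (fun i b => map φ (BA l i b)) l H hH hv]
    apply Ideal.sum_mem
    intro c hc
    apply Ideal.mul_mem_left
    rw [← uu_map]
    apply Ideal.mem_map_of_mem
    exact Ideal.subset_span ⟨l, hl, c, hc, rfl⟩
  have hmem2 : map φ FA ∈ Ideal.map (map φ) (aA ^ t) := by
    rw [Ideal.map_pow]
    exact Ideal.pow_right_mono hk t hmem
  -- the functional vanishes
  have key : ∀ x ∈ Ideal.map (map φ) (aA ^ t), ∀ g : MvPolynomial (Fin (n + 1)) k,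
      LL d (fun c => φ (gA c)) (g * x) = 0 := by
    intro x hx
    unfold Ideal.map at hx
    induction hx using Submodule.span_induction with
    | mem x hx =>
      obtain ⟨b, hb, rfl⟩ := hx
      intro g
      induction g using MvPolynomial.induction_on' with
      | monomial c r =>
        have e1 : (monomial c r : MvPolynomial (Fin (n + 1)) k) * map φ b =
            r • map φ (monomial c 1 * b) := by
          rw [map_mul, map_monomial, map_one, ← smul_mul_assoc, smul_monomial, smul_eq_mul,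
            mul_one]
        rw [e1, map_smul, ← LL_map, hA0 _ (Ideal.mul_mem_left _ _ hb), map_zero, smul_zero]
      | add p q hp hq =>
        rw [add_mul, map_add, hp, hq, add_zero]
    | zero => intro g; rw [mul_zero, map_zero]
    | add x y _ _ h1 h2 => intro g; rw [mul_add, map_add, h1, h2, add_zero]
    | smul a x _ h1 =>
      intro g
      rw [smul_eq_mul, ← mul_assoc]
      exact h1 _
  have h1 := key _ hmem2 1
  rw [one_mul, ← LL_map, hg1, map_one] at h1
  exact one_ne_zero h1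

theorem taskT1 : TaskT1.{u} := by
  classical
  intro hP K _ _ n s t d P w F hn hs ht hP0 hF hv
  by_contra hnot
  obtain ⟨g, hg1, hg0⟩ := exists_functional P w (d / t) t d F hF hnot
  choose B hB using fun l => exists_B P w l
  set T : Finset K := (F.support.image fun m => coeff m F) ∪
    (((Finset.range (d / t)).biUnion fun l => (Finset.univ : Finset (Fin s)).biUnion fun i =>
      (bx (n + 1) (w i)).biUnion fun b => (B l i b).support.image fun m => coeff m (B l i b)) ∪
    (((Finset.univ : Finset (Fin s)).biUnion fun i =>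
      (Finset.univ : Finset (Fin (n + 1))).image fun j => P i j) ∪
    (((Finset.univ : Finset (Fin s)).biUnion fun i =>
      (Finset.univ : Finset (Fin (n + 1))).image fun j => (P i j)⁻¹) ∪
    ((Dg (n + 1) d).image g)))) with hT
  obtain ⟨p, hp, k, ik, ia, ic, A, φ, hpN, hTA⟩ := exists_red T (2 * t * (d + 1))
  have hinj : Function.Injective A.subtype := Subtype.val_injective
  have m1 : ∀ m, coeff m F ∈ A := by
    intro m
    by_cases hm : m ∈ F.support
    · exact hTA _ (Finset.mem_union_left _ (Finset.mem_image.2 ⟨m, hm, rfl⟩))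
    · rw [notMem_support_iff.1 hm]
      exact A.zero_mem
  have m2 : ∀ l < d / t, ∀ i, ∀ b ∈ bx (n + 1) (w i), ∀ m, coeff m (B l i b) ∈ A := by
    intro l hl i b hb m
    by_cases hm : m ∈ (B l i b).support
    · apply hTA
      refine Finset.mem_union_right _ (Finset.mem_union_left _ ?_)
      refine Finset.mem_biUnion.2 ⟨l, Finset.mem_range.2 hl, ?_⟩
      refine Finset.mem_biUnion.2 ⟨i, Finset.mem_univ _, ?_⟩
      exact Finset.mem_biUnion.2 ⟨b, hb, Finset.mem_image.2 ⟨m, hm, rfl⟩⟩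
    · rw [notMem_support_iff.1 hm]
      exact A.zero_mem
  have m3 : ∀ i j, P i j ∈ A := by
    intro i j
    apply hTA
    refine Finset.mem_union_right _ (Finset.mem_union_right _ (Finset.mem_union_left _ ?_))
    exact Finset.mem_biUnion.2 ⟨i, Finset.mem_univ _, Finset.mem_image.2 ⟨j, Finset.mem_univ _, rfl⟩⟩
  have m4 : ∀ i j, (P i j)⁻¹ ∈ A := by
    intro i j
    apply hTA
    refine Finset.mem_union_right _ (Finset.mem_union_right _ (Finset.mem_union_right _
      (Finset.mem_union_left _ ?_)))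
    exact Finset.mem_biUnion.2 ⟨i, Finset.mem_univ _, Finset.mem_image.2 ⟨j, Finset.mem_univ _, rfl⟩⟩
  have m5 : ∀ c ∈ Dg (n + 1) d, g c ∈ A := by
    intro c hc
    apply hTA
    refine Finset.mem_union_right _ (Finset.mem_union_right _ (Finset.mem_union_right _
      (Finset.mem_union_right _ ?_)))
    exact Finset.mem_image.2 ⟨c, hc, rfl⟩
  -- the lifts
  obtain ⟨FA, hFA⟩ := FZ.lift_poly A F m1
  let PA : Fin s → Fin (n + 1) → A := fun i j => ⟨P i j, m3 i j⟩
  have hBl : ∀ l i b, ∃ G : MvPolynomial (Fin (n + 1)) A,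
      l < d / t → b ∈ bx (n + 1) (w i) → map A.subtype G = B l i b := by
    intro l i b
    by_cases h : l < d / t ∧ b ∈ bx (n + 1) (w i)
    · obtain ⟨G, hG⟩ := FZ.lift_poly A (B l i b) (m2 l h.1 i b h.2)
      exact ⟨G, fun _ _ => hG⟩
    · exact ⟨0, fun h1 h2 => absurd ⟨h1, h2⟩ h⟩
  choose BA hBA using hBl
  let gA : (Fin (n + 1) →₀ ℕ) → A := fun c => if h : g c ∈ A then ⟨g c, h⟩ else 0
  have hgA : ∀ f : MvPolynomial (Fin (n + 1)) K, LL d (fun c => (gA c : K)) f = LL d g f := by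
    intro f
    rw [LL_apply, LL_apply]
    refine Finset.sum_congr rfl fun c hc => ?_
    have : gA c = ⟨g c, m5 c hc⟩ := dif_pos (m5 c hc)
    rw [this]
  have hstep := step A φ (t := t) (d := d) (ν := d / t) PA w FA BA gA ?_ ?_ ?_
  · apply hstep
    have hFAh : FA.IsHomogeneous d := FZ.homog_lift A (by rw [hFA]; exact hF)
    refine hP k p n s t d (fun i j => φ (PA i j)) w (map φ FA) hn hs ht hpN ?_ (hFAh.map φ) ?_
    · intro i h0
      apply hP0 i
      funext j
      by_contra hij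
      have e : PA i j * ⟨(P i j)⁻¹, m4 i j⟩ = 1 := by
        apply Subtype.ext
        exact mul_inv_cancel₀ hij
      have e2 := congrArg φ e
      have e3 : φ (PA i j) = 0 := congrFun h0 j
      rw [map_mul, e3, zero_mul, map_one] at e2
      exact zero_ne_one e2
    · intro i
      refine (p_MT A K k A.subtype φ hinj (n + 1) (PA i) FA).1 _ ?_
      rw [hFA]
      exact hv i
  · intro l hl c hc
    have h1 : map A.subtype (uu PA w (BA l) c) = uu P w (B l) c := by
      rw [uu_map]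
      unfold uu
      congr 1
      refine Finset.sum_congr rfl fun i _ => ?_
      refine Finset.sum_congr rfl fun b hb => ?_
      change C (tc (P i) b c) * map A.subtype (BA l i b) = _
      rw [hBA l i b hl hb]
    rw [h1]
    exact Ideal.subset_span ⟨l, hl, (hB l c hc).1, (hB l c hc).2⟩
  · apply hinj
    rw [LL_map, map_one, hFA]
    exact (hgA F).trans hg1
  · intro f hf
    rw [hgA]
    exact hg0 f hf

end Pool.Agent.H595R3.ContT1
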