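import Mathlib

set_option autoImplicit false

namespace Pool.Agent.H595R3.Flat

open Finset

variable {α : Type*} [DecidableEq α]

/-- Total weight of the pairs inside a finite set. -/
def W (w : Sym2 α → ℕ) (S : Finset α) : ℕ :=
  ∑ e ∈ S.sym2.filter (fun e => ¬ e.IsDiag), w e

theorem W_insert (w : Sym2 α → ℕ) (S : Finset α) (v : α) (hv : v ∉ S) :
    W w (insert v S) = W w S + ∑ u ∈ S, w s(v, u) := by
  unfold W
  have hset : (insert v S).sym2.filter (fun e => ¬ e.IsDiag)
      = (S.sym2.filter (fun e => ¬ e.IsDiag)) ∪ (S.image (fun u => s(v, u))) := by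
    ext e
    induction e using Sym2.ind with
    | _ x y =>
      simp only [Finset.mem_filter, Finset.mk_mem_sym2_iff, Finset.mem_insert, Finset.mem_union,
        Finset.mem_image, Sym2.mk_isDiag_iff, Sym2.eq_iff]
      constructor
      · rintro ⟨⟨hx | hx, hy | hy⟩, hne⟩
        · exact absurd (hx.trans hy.symm) hne
        · right; exact ⟨y, hy, Or.inl ⟨hx.symm, rfl⟩⟩
        · right; exact ⟨x, hx, Or.inr ⟨hy.symm, rfl⟩⟩
        · left; exact ⟨⟨hx, hy⟩, hne⟩
      · rintro (⟨⟨hx, hy⟩, hne⟩ | ⟨u, hu, (⟨h1, h2⟩ | ⟨h1, h2⟩)⟩)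
        · exact ⟨⟨Or.inr hx, Or.inr hy⟩, hne⟩
        · subst h1; subst h2
          exact ⟨⟨Or.inl rfl, Or.inr hu⟩, fun h => hv (h ▸ hu)⟩
        · subst h1; subst h2
          exact ⟨⟨Or.inr hu, Or.inl rfl⟩, fun h => hv (h ▸ hu)⟩
  have hdisj : Disjoint (S.sym2.filter (fun e => ¬ e.IsDiag)) (S.image (fun u => s(v, u))) := by
    rw [Finset.disjoint_left]
    intro e he he'
    rw [Finset.mem_image] at he'
    obtain ⟨u, hu, rfl⟩ := he'
    rw [Finset.mem_filter, Finset.mk_mem_sym2_iff] at he
    exact hv he.1.1
  rw [hset, Finset.sum_union hdisj, Finset.sum_image]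
  intro x _ y _ hxy
  rcases Sym2.eq_iff.1 hxy with h | h
  · exact h.2
  · exact h.2.trans h.1

theorem W_mono (w : Sym2 α → ℕ) {S T : Finset α} (h : S ⊆ T) : W w S ≤ W w T := by
  unfold W
  apply Finset.sum_le_sum_of_subset
  intro e he
  rw [Finset.mem_filter] at he ⊢
  exact ⟨Finset.sym2_mono h he.1, he.2⟩

theorem W_empty (w : Sym2 α → ℕ) : W w ∅ = 0 := by
  simp [W]

/-- Cross sum identity. -/
theorem sum_cross (w : Sym2 α → ℕ) (U : Finset α) :
    ∀ S : Finset α, S ⊆ U →
    (∑ v ∈ U \ S, ∑ u ∈ S, w s(v, u)) + 2 * W w S = ∑ u ∈ S, ∑ v ∈ U.erase u, w s(u, v) := by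
  intro S hS
  have h1 : ∀ T : Finset α, 2 * W w T = ∑ u ∈ T, ∑ v ∈ T.erase u, w s(u, v) := by
    intro T
    induction T using Finset.induction_on with
    | empty => simp [W_empty]
    | @insert a T ha ih =>
      rw [W_insert w T a ha, Nat.mul_add, ih, Finset.sum_insert ha]
      have e1 : (insert a T).erase a = T := Finset.erase_insert ha
      have e2 : ∀ u ∈ T, ∑ v ∈ (insert a T).erase u, w s(u, v)
          = w s(a, u) + ∑ v ∈ T.erase u, w s(u, v) := by
        intro u hu
        have hne : a ≠ u := fun h => ha (h ▸ hu)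
        rw [Finset.erase_insert_of_ne hne, Finset.sum_insert (by simp [ha]), Sym2.eq_swap]
      rw [e1, Finset.sum_congr rfl e2, Finset.sum_add_distrib]
      ring
  rw [h1 S, Finset.sum_comm, ← Finset.sum_add_distrib]
  apply Finset.sum_congr rfl
  intro u hu
  have : U.erase u = (U \ S) ∪ (S.erase u) := by
    ext x
    simp only [Finset.mem_erase, Finset.mem_union, Finset.mem_sdiff]
    constructor
    · rintro ⟨hx, hxU⟩
      by_cases hxS : x ∈ S
      · right; exact ⟨hx, hxS⟩
      · left; exact ⟨hxU, hxS⟩
    · rintro (⟨hxU, hxS⟩ | ⟨hx, hxS⟩)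
      · exact ⟨fun h => hxS (h ▸ hu), hxU⟩
      · exact ⟨hx, hS hxS⟩
  rw [this, Finset.sum_union]
  · congr 1
    apply Finset.sum_congr rfl
    intro v _
    rw [Sym2.eq_swap]
  · rw [Finset.disjoint_left]
    intro x hx hx'
    exact (Finset.mem_sdiff.1 hx).2 (Finset.mem_of_mem_erase hx')

/-- Greedy target: sum of the guaranteed back-degrees. -/
def G (p r : ℕ) (i : ℕ) : ℕ := ∑ j ∈ Finset.range i, (p * (j + 1) / r + 1)

/-- Main sum bound (Fueredi-Kuendgen style greedy argument). -/
theorem main_sum (w : Sym2 α → ℕ) (s Q p r : ℕ) (hr : 1 ≤ r) (hs : 2 ≤ s)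
    (hG : Q < G p r (s - 1))
    (V : Finset α)
    (hQ : ∀ S : Finset α, S ⊆ V → S.card = s → W w S ≤ Q) :
    ∀ n : ℕ, ∀ U : Finset α, U ⊆ V → U.card = n → s ≤ n →
      r * W w U ≤ p * n.choose 2 + 2 * r * Q * n := by
  intro n
  induction n with
  | zero => intro U _ _ h; omega
  | succ n ih =>
    intro U hUV hU hsn
    rcases Nat.lt_or_ge n s with hlt | hge
    · -- n + 1 = s
      have : n + 1 = s := by omega
      have hW := hQ U hUV (by omega)
      calc r * W w U ≤ r * Q := Nat.mul_le_mul_left _ hW
        _ ≤ 2 * r * Q * (n + 1) := by nlinarith [Nat.zero_le (r * Q), Nat.zero_le (r*Q*n)]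
        _ ≤ _ := Nat.le_add_left _ _
    · by_cases hcase : ∃ v ∈ U, r * (∑ u ∈ U.erase v, w s(v, u)) ≤ p * n + 2 * r * Q
      · obtain ⟨v, hv, hdeg⟩ := hcase
        have hc : (U.erase v).card = n := by rw [Finset.card_erase_of_mem hv, hU]; rfl
        have h1 := ih (U.erase v) ((Finset.erase_subset _ _).trans hUV) hc hge
        have h2 : W w U = W w (U.erase v) + ∑ u ∈ U.erase v, w s(v, u) := by
          conv_lhs => rw [← Finset.insert_erase hv]
          rw [W_insert w _ v (Finset.notMem_erase v U)]
        have h3 : (n + 1).choose 2 = n.choose 2 + n := by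
          rw [Nat.choose_succ_succ' n 1, Nat.choose_one_right]; ring
        rw [h2, h3]
        nlinarith
      · exfalso
        push Not at hcase
        -- build sets
        have build : ∀ i : ℕ, i + 1 ≤ s → ∃ S ⊆ U, S.card = i + 1 ∧ G p r i ≤ W w S := by
          intro i
          induction i with
          | zero =>
            intro _
            have : U.Nonempty := by rw [← Finset.card_pos]; omega
            obtain ⟨x, hx⟩ := this
            exact ⟨{x}, by simpa using hx, by simp, by simp [G]⟩
          | succ i ihi =>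
            intro hi
            obtain ⟨S, hSU, hSc, hSW⟩ := ihi (by omega)
            have hSQ : W w S ≤ Q := by
              obtain ⟨T, hST, hTU, hTc⟩ := Finset.exists_subsuperset_card_eq hSU
                (show S.card ≤ s by omega) (show s ≤ U.card by omega)
              exact (W_mono w hST).trans (hQ T (hTU.trans hUV) hTc)
            have hex : ∃ v ∈ U \ S, p * (i + 1) < r * ∑ u ∈ S, w s(v, u) := by
              by_contra hno
              push Not at hno
              have hsum : r * ∑ v ∈ U \ S, ∑ u ∈ S, w s(v, u) ≤ (n - i) * (p * (i + 1)) := by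
                rw [Finset.mul_sum]
                have := Finset.sum_le_card_nsmul (U \ S) (fun v => r * ∑ u ∈ S, w s(v, u))
                  (p * (i + 1)) (fun v hv => hno v hv)
                rw [Finset.card_sdiff_of_subset hSU, hU, hSc, smul_eq_mul] at this
                have e : n + 1 - (i + 1) = n - i := by omega
                rwa [e] at this
              have hdegs : (i + 1) * (p * n + 2 * r * Q + 1)
                  ≤ r * ∑ u ∈ S, ∑ v ∈ U.erase u, w s(u, v) := by
                rw [Finset.mul_sum]
                have := Finset.card_nsmul_le_sum S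
                  (fun u => r * ∑ v ∈ U.erase u, w s(u, v)) (p * n + 2 * r * Q + 1)
                  (fun u hu => hcase u (hSU hu))
                rwa [hSc, smul_eq_mul] at this
              have hcross := sum_cross w U S hSU
              have hrW : r * W w S ≤ r * Q := Nat.mul_le_mul_left _ hSQ
              have hni : (n - i) * (p * (i + 1)) ≤ n * (p * (i + 1)) :=
                Nat.mul_le_mul_right _ (Nat.sub_le _ _)
              rw [← hcross] at hdegs
              have : (i + 1) * (p * n + 2 * r * Q + 1) ≤ n * (p * (i + 1)) + 2 * (r * Q) := by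
                calc (i + 1) * (p * n + 2 * r * Q + 1)
                    ≤ r * (∑ v ∈ U \ S, ∑ u ∈ S, w s(v, u) + 2 * W w S) := hdegs
                  _ = r * (∑ v ∈ U \ S, ∑ u ∈ S, w s(v, u)) + 2 * (r * W w S) := by ring
                  _ ≤ n * (p * (i + 1)) + 2 * (r * Q) := by
                      have := hsum.trans hni
                      omega
              nlinarith [Nat.zero_le (i * (2 * r * Q)), Nat.zero_le i]
            obtain ⟨v, hv, hvw⟩ := hex
            rw [Finset.mem_sdiff] at hv
            refine ⟨insert v S, Finset.insert_subset hv.1 hSU, ?_, ?_⟩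
            · rw [Finset.card_insert_of_notMem hv.2, hSc]
            · rw [W_insert w S v hv.2]
              unfold G at hSW ⊢
              rw [Finset.sum_range_succ]
              have : p * (i + 1) / r + 1 ≤ ∑ u ∈ S, w s(v, u) := by
                have : p * (i + 1) / r < ∑ u ∈ S, w s(v, u) := by
                  rw [Nat.div_lt_iff_lt_mul (by omega)]
                  rw [Nat.mul_comm] at hvw
                  rwa [Nat.mul_comm (∑ u ∈ S, w s(v, u)) r, Nat.mul_comm p]
                omega
              omega
        obtain ⟨S, hSU, hSc, hSW⟩ := build (s - 1) (by omega)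
        have := hQ S (hSU.trans hUV) (by omega)
        omega

end Pool.Agent.H595R3.Flat
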