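import Mathlib
import Pool.Agent.H595R3.Flat1

set_option autoImplicit false

namespace Pool.Agent.H595R3.Flat

open Finset

/-- Number of pairs `i < j < s` in different residue classes mod `r`. -/
def tr (r s : ℕ) : ℕ := ((Finset.univ : Finset (Fin s × Fin s)).filter
    (fun p => p.1 < p.2 ∧ p.1.val % r ≠ p.2.val % r)).card

theorem count_same (r s : ℕ) (hr : 1 ≤ r) :
    ((Finset.range s).filter (fun i => i % r = s % r)).card = s / r := by
  have h := Nat.count_modEq_card s (show 0 < r by omega) s
  rw [Nat.count_eq_card_filter_range] at h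
  simp only [lt_self_iff_false, if_false, add_zero] at h
  exact h

theorem count_diff (r s : ℕ) (hr : 1 ≤ r) :
    ((Finset.range s).filter (fun i => i % r ≠ s % r)).card = s - s / r := by
  have h1 := Finset.card_filter_add_card_filter_not (s := Finset.range s) (fun i => i % r = s % r)
  rw [count_same r s hr, Finset.card_range] at h1
  have : (Finset.range s).filter (fun i => i % r ≠ s % r)
    = (Finset.range s).filter (fun i => ¬ (i % r = s % r)) := rfl
  rw [this]
  omega

theorem tr_eq (r s : ℕ) (hr : 1 ≤ r) : tr r s = ∑ j ∈ Finset.range s, (j - j / r) := by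
  unfold tr
  have : ((Finset.univ : Finset (Fin s × Fin s)).filter
      (fun p => p.1 < p.2 ∧ p.1.val % r ≠ p.2.val % r)).card
      = ((Finset.range s ×ˢ Finset.range s).filter
        (fun p : ℕ × ℕ => p.1 < p.2 ∧ p.1 % r ≠ p.2 % r)).card := by
    apply Finset.card_bij (fun p _ => (p.1.val, p.2.val))
    · rintro ⟨a, b⟩ h
      simp only [Finset.mem_filter, Finset.mem_univ, true_and, Finset.mem_product,
        Finset.mem_range] at h ⊢
      exact ⟨⟨a.2, b.2⟩, h⟩
    · rintro ⟨a, b⟩ _ ⟨c, d⟩ _ h
      simp only [Prod.mk.injEq] at h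
      exact Prod.ext (Fin.ext h.1) (Fin.ext h.2)
    · rintro ⟨a, b⟩ h
      simp only [Finset.mem_filter, Finset.mem_product, Finset.mem_range] at h
      exact ⟨(⟨a, h.1.1⟩, ⟨b, h.1.2⟩), by simpa using h.2, rfl⟩
  rw [this, Finset.card_filter, Finset.sum_product_right]
  apply Finset.sum_congr rfl
  intro j hj
  rw [Finset.mem_range] at hj
  rw [← Finset.card_filter, ← count_diff r j hr]
  congr 1
  ext i
  simp only [Finset.mem_filter, Finset.mem_range]
  constructor
  · rintro ⟨_, h2, h3⟩; exact ⟨h2, h3⟩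
  · rintro ⟨h2, h3⟩; exact ⟨by omega, h2, h3⟩

theorem tr_succ (r s : ℕ) (hr : 1 ≤ r) : tr r (s + 1) = tr r s + (s - s / r) := by
  rw [tr_eq r _ hr, tr_eq r _ hr, Finset.sum_range_succ]

theorem G_term (a r j : ℕ) (hr : 1 ≤ r) :
    (r * a + r - 1) * (j + 1) / r + 1 =
      a * (j + 1) + (j + 1 - (j + 1) / r) + (if r ∣ j + 1 then 1 else 0) := by
  have hr0 : 0 < r := by omega
  have hle : (j + 1) / r ≤ j + 1 := Nat.div_le_self _ _
  split_ifs with h
  · obtain ⟨m, hm⟩ := h
    rw [hm, Nat.mul_div_cancel_left m hr0]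
    have : (r * a + r - 1) * (r * m) / r = (r * a + r - 1) * m := by
      rw [show (r * a + r - 1) * (r * m) = ((r * a + r - 1) * m) * r by ring,
        Nat.mul_div_cancel _ hr0]
    rw [this]
    have hm1 : m ≤ r * m := Nat.le_mul_of_pos_left m hr0
    zify [show 1 ≤ r * a + r by omega, hm1]
    ring
  · have hmod : 0 < (j + 1) % r := Nat.pos_of_ne_zero (fun h0 => h (Nat.dvd_of_mod_eq_zero h0))
    have hdm := Nat.div_add_mod (j + 1) r
    have hmr := Nat.mod_lt (j + 1) hr0
    set m := (j + 1) / r with hmdef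
    set t := (j + 1) % r with htdef
    -- (r a + r - 1) (j+1) = r ((a+1)(j+1) - m - 1) + (r - t)
    have hmj : m + 1 ≤ j + 1 ∨ m = j + 1 := by omega
    have hkey : (r * a + r - 1) * (j + 1) = r * (a * (j + 1) + (j + 1 - m) - 1) + (r - t) := by
      have hm2 : m ≤ j := by
        by_contra hcon
        have : m = j + 1 := by omega
        rw [this] at hdm
        have : r * (j + 1) ≥ j + 1 := Nat.le_mul_of_pos_left _ hr0
        omega
      zify [show 1 ≤ r * a + r by omega, show 1 ≤ a * (j + 1) + (j + 1 - m) by omega,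
        show m ≤ j + 1 by omega, show t ≤ r by omega]
      have hdm' : (r : ℤ) * m + t = j + 1 := by exact_mod_cast hdm
      linear_combination (1 : ℤ) * hdm'
    rw [hkey, Nat.add_comm (r * _), Nat.add_mul_div_left _ _ hr0,
      Nat.div_eq_of_lt (show r - t < r by omega)]
    have hm2 : m ≤ j := by
      by_contra hcon
      have : m = j + 1 := by omega
      rw [this] at hdm
      have : r * (j + 1) ≥ j + 1 := Nat.le_mul_of_pos_left _ hr0
      omega
    omega

theorem G_eq (a r m : ℕ) (hr : 1 ≤ r) :
    G (r * a + r - 1) r m = a * (m + 1).choose 2 + tr r (m + 1) + m / r := by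
  induction m with
  | zero =>
    simp [G, tr_eq r _ hr]
  | succ m ih =>
    have : G (r * a + r - 1) r (m + 1) = G (r * a + r - 1) r m
        + ((r * a + r - 1) * (m + 1) / r + 1) := by
      unfold G; rw [Finset.sum_range_succ]
    rw [this, ih, G_term a r m hr, tr_succ r (m + 1) hr, Nat.succ_div (a := m) (b := r)]
    have h3 : (m + 1 + 1).choose 2 = (m + 1).choose 2 + (m + 1) := by
      rw [Nat.choose_succ_succ' (m + 1) 1, Nat.choose_one_right]; ring
    rw [h3]
    ring

end Pool.Agent.H595R3.Flat
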