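import Mathlib
import Pool.Agent.H595R3.Flat2

set_option autoImplicit false

namespace Pool.Agent.H595R3.Flat

open Finset

variable {α : Type*} [DecidableEq α]

/-- The two-valued weighting determined by a colouring. -/
def w0 (a : ℕ) (col : α → ℕ) : Sym2 α → ℕ :=
  Sym2.lift ⟨fun x y => if col x = col y then a else a + 1, by
    intro x y
    by_cases h : col x = col y
    · simp [h]
    · simp [h, Ne.symm h]⟩

theorem w0_mk (a : ℕ) (col : α → ℕ) (x y : α) :
    w0 a col s(x, y) = if col x = col y then a else a + 1 := rfl

theorem w0_le (a : ℕ) (col : α → ℕ) (e : Sym2 α) : w0 a col e = a ∨ w0 a col e = a + 1 := by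
  induction e using Sym2.ind with
  | _ x y =>
    rw [w0_mk]
    split_ifs
    · left; rfl
    · right; rfl

theorem sum_w0 (a : ℕ) (col : α → ℕ) (v : α) (S : Finset α) :
    ∑ u ∈ S, w0 a col s(v, u) + (S.filter (fun u => col v = col u)).card = (a + 1) * S.card := by
  rw [Finset.card_filter, ← Finset.sum_add_distrib, Finset.card_eq_sum_ones, Finset.mul_sum]
  apply Finset.sum_congr rfl
  intro u _
  rw [w0_mk]
  split_ifs <;> simp

/-- Turan type bound: a set of size `m` coloured with `r` colours. -/
theorem W_w0_le (a r : ℕ) (hr : 1 ≤ r) (col : α → ℕ) (hcol : ∀ x, col x < r) :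
    ∀ m : ℕ, ∀ S : Finset α, S.card = m → W (w0 a col) S ≤ a * m.choose 2 + tr r m := by
  intro m
  induction m with
  | zero =>
    intro S hS
    rw [Finset.card_eq_zero] at hS
    subst hS
    simp [W_empty]
  | succ m ih =>
    intro S hS
    -- pigeonhole
    have hlt : (Finset.range r).card * (m / r) < S.card := by
      rw [Finset.card_range, hS]
      have := Nat.mul_div_le m r
      omega
    obtain ⟨c, hc, hcard⟩ := Finset.exists_lt_card_fiber_of_mul_lt_card_of_maps_to
      (fun x (_ : x ∈ S) => Finset.mem_range.2 (hcol x)) hlt
    have hne : (S.filter (fun x => col x = c)).Nonempty := by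
      rw [← Finset.card_pos]; exact lt_of_le_of_lt (Nat.zero_le _) hcard
    obtain ⟨v, hv⟩ := hne
    rw [Finset.mem_filter] at hv
    have hvS := hv.1
    have hcv := hv.2
    have hc1 : (S.erase v).card = m := by rw [Finset.card_erase_of_mem hvS, hS]; rfl
    have h1 := ih (S.erase v) hc1
    have h2 : W (w0 a col) S = W (w0 a col) (S.erase v) + ∑ u ∈ S.erase v, w0 a col s(v, u) := by
      conv_lhs => rw [← Finset.insert_erase hvS]
      rw [W_insert _ _ v (Finset.notMem_erase v S)]
    have h3 := sum_w0 a col v (S.erase v)
    rw [hc1] at h3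
    have h4 : (S.filter (fun x => col x = c)) =
        insert v ((S.erase v).filter (fun u => col v = col u)) := by
      ext x
      simp only [Finset.mem_filter, Finset.mem_insert, Finset.mem_erase]
      constructor
      · rintro ⟨hx, hxc⟩
        by_cases hxv : x = v
        · left; exact hxv
        · right; exact ⟨⟨hxv, hx⟩, by rw [hcv, hxc]⟩
      · rintro (rfl | ⟨⟨_, hx⟩, hxc⟩)
        · exact ⟨hvS, hcv⟩
        · exact ⟨hx, by rw [← hxc, hcv]⟩
    have h5 : v ∉ (S.erase v).filter (fun u => col v = col u) := by simp
    rw [h4, Finset.card_insert_of_notMem h5] at hcard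
    have hch : (m + 1).choose 2 = m.choose 2 + m := by
      rw [Nat.choose_succ_succ' m 1, Nat.choose_one_right]; ring
    have hdl : m / r ≤ m := Nat.div_le_self _ _
    rw [h2, tr_succ r m hr, hch, Nat.mul_add]
    have h6 : (a + 1) * m = a * m + m := by ring
    omega

/-- Lower bound for the total weight of the Turan colouring of `Fin n`. -/
theorem W_w0_fin (a r n : ℕ) (hr : 1 ≤ r) :
    (r * a + r - 1) * n.choose 2 ≤
      r * W (w0 a (fun i : Fin n => i.val % r)) (Finset.univ : Finset (Fin n)) := by
  have key : ∀ m : ℕ, m ≤ n → (r * a + r - 1) * m.choose 2 ≤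
      r * W (w0 a (fun i : Fin n => i.val % r))
        (Finset.univ.filter (fun i : Fin n => i.val < m)) := by
    intro m
    induction m with
    | zero => intro _; simp
    | succ m ih =>
      intro hm
      have hmn : m < n := by omega
      have h1 := ih (by omega)
      set S := (Finset.univ.filter (fun i : Fin n => i.val < m)) with hS
      have h0 : (Finset.univ.filter (fun i : Fin n => i.val < m + 1)) = insert ⟨m, hmn⟩ S := by
        ext x
        simp only [hS, Finset.mem_filter, Finset.mem_univ, true_and, Finset.mem_insert, Fin.ext_iff]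
        omega
      have hnot : (⟨m, hmn⟩ : Fin n) ∉ S := by simp [hS]
      have hScard : S.card = m := by
        rw [hS]
        have : (Finset.univ.filter (fun i : Fin n => i.val < m)).card = (Finset.range m).card := by
          apply Finset.card_bij (fun i _ => i.val)
          · intro i hi; simpa using hi
          · intro i _ j _ h; exact Fin.ext h
          · intro j hj
            rw [Finset.mem_range] at hj
            exact ⟨⟨j, by omega⟩, by simpa using hj, rfl⟩
        rw [this, Finset.card_range]
      have hsame : (S.filter (fun u => (⟨m, hmn⟩ : Fin n).val % r = u.val % r)).card = m / r := by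
        rw [← count_same r m hr]
        apply Finset.card_bij (fun i _ => i.val)
        · intro i hi
          simp only [hS, Finset.mem_filter, Finset.mem_univ, true_and] at hi
          simp only [Finset.mem_filter, Finset.mem_range]
          exact ⟨hi.1, hi.2.symm⟩
        · intro i _ j _ h; exact Fin.ext h
        · intro j hj
          simp only [Finset.mem_filter, Finset.mem_range] at hj
          refine ⟨⟨j, by omega⟩, ?_, rfl⟩
          simp only [hS, Finset.mem_filter, Finset.mem_univ, true_and]
          exact ⟨hj.1, hj.2.symm⟩
      have h3 := sum_w0 a (fun i : Fin n => i.val % r) ⟨m, hmn⟩ S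
      rw [hsame, hScard] at h3
      rw [h0, W_insert _ _ _ hnot]
      have hch : (m + 1).choose 2 = m.choose 2 + m := by
        rw [Nat.choose_succ_succ' m 1, Nat.choose_one_right]; ring
      rw [hch, Nat.mul_add, Nat.mul_add]
      have h4 : (r * a + r - 1) * m ≤ r * ∑ u ∈ S, w0 a (fun i : Fin n => i.val % r) s(⟨m, hmn⟩, u) := by
        have h5 : r * (m / r) ≤ m := Nat.mul_div_le m r
        have h6 : r * (∑ u ∈ S, w0 a (fun i : Fin n => i.val % r) s(⟨m, hmn⟩, u)) + r * (m / r)
            = r * ((a + 1) * m) := by rw [← Nat.mul_add, h3]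
        have h7 : (r * a + r - 1) * m + m = r * ((a + 1) * m) := by
          have : (r * a + r - 1) * m + m = (r * a + r - 1 + 1) * m := by ring
          rw [this, Nat.sub_add_cancel (by omega)]
          ring
        omega
      exact Nat.add_le_add h1 h4
  have := key n le_rfl
  have hu : (Finset.univ.filter (fun i : Fin n => i.val < n)) = Finset.univ := by
    ext x; simp
  rwa [hu] at this

end Pool.Agent.H595R3.Flat
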