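import Mathlib
import Pool.Agent.H595R3.Flat3

set_option autoImplicit false

namespace Pool.Agent.H595R3.Flat

open Finset

/-- Integral AM-GM: the chord through consecutive integers lies above the logarithm at all
positive integers. -/
theorem log_int (a w : ℕ) (ha : 1 ≤ a) (hw : 1 ≤ w) :
    Real.log w ≤ Real.log a + ((w : ℝ) - a) * (Real.log ((a : ℝ) + 1) - Real.log a) := by
  have haR : (0 : ℝ) < a := by exact_mod_cast ha
  have hwR : (0 : ℝ) < w := by exact_mod_cast hw
  have ha1R : (0 : ℝ) < (a : ℝ) + 1 := by positivity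
  rcases Nat.le_total a w with h | h
  · obtain ⟨t, rfl⟩ := Nat.exists_eq_add_of_le h
    have hb : 1 + (t : ℝ) * (1 / (a : ℝ)) ≤ (1 + 1 / (a : ℝ)) ^ t :=
      one_add_mul_le_pow (by have : (0:ℝ) ≤ 1 / (a:ℝ) := by positivity
                             linarith) t
    have h1 : ((a + t : ℕ) : ℝ) ≤ a * (((a : ℝ) + 1) / a) ^ t := by
      have : ((a : ℝ) + 1) / a = 1 + 1 / (a : ℝ) := by field_simp
      rw [this]
      calc ((a + t : ℕ) : ℝ) = a * (1 + (t : ℝ) * (1 / (a : ℝ))) := by
            push_cast; field_simp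
        _ ≤ _ := mul_le_mul_of_nonneg_left hb haR.le
    have h2 := Real.log_le_log hwR h1
    rw [Real.log_mul haR.ne' (by positivity), Real.log_pow, Real.log_div ha1R.ne' haR.ne'] at h2
    push_cast at h2 ⊢
    linarith
  · obtain ⟨u, hu⟩ := Nat.exists_eq_add_of_le h
    have hb : 1 + (u : ℝ) * (-(1 / ((a : ℝ) + 1))) ≤ (1 + -(1 / ((a : ℝ) + 1))) ^ u := by
      apply one_add_mul_le_pow
      have : 1 / ((a : ℝ) + 1) ≤ 1 := by
        rw [div_le_one ha1R]; linarith
      linarith
    have h1 : (w : ℝ) ≤ a * ((a : ℝ) / (a + 1)) ^ u := by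
      have : (a : ℝ) / (a + 1) = 1 + -(1 / ((a : ℝ) + 1)) := by field_simp; ring
      rw [this]
      have hw' : (w : ℝ) = a - u := by
        have : (a : ℝ) = w + u := by exact_mod_cast hu
        linarith
      have h3 : (a : ℝ) * (1 + (u : ℝ) * (-(1 / ((a : ℝ) + 1)))) ≥ a - u := by
        have h4 : (a : ℝ) * (1 / ((a : ℝ) + 1)) ≤ 1 := by
          rw [mul_one_div, div_le_one ha1R]; linarith
        have h5 : (0 : ℝ) ≤ u := Nat.cast_nonneg u
        nlinarith
      calc (w : ℝ) = a - u := hw'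
        _ ≤ a * (1 + (u : ℝ) * (-(1 / ((a : ℝ) + 1)))) := h3
        _ ≤ _ := mul_le_mul_of_nonneg_left hb haR.le
    have h2 := Real.log_le_log hwR h1
    rw [Real.log_mul haR.ne' (by positivity), Real.log_pow, Real.log_div haR.ne' ha1R.ne'] at h2
    have hw' : (w : ℝ) - a = - u := by
      have : (a : ℝ) = w + u := by exact_mod_cast hu
      linarith
    rw [hw']
    linarith

/-- The set of off-diagonal pairs of `Fin n`. -/
abbrev OD (n : ℕ) : Finset (Sym2 (Fin n)) :=
  (Finset.univ : Finset (Sym2 (Fin n))).filter (fun e => ¬ e.IsDiag)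

theorem card_OD (n : ℕ) : (OD n).card = n.choose 2 := by
  have h := Sym2.card_subtype_not_diag (α := Fin n)
  rw [Fintype.card_fin] at h
  rw [← h, Fintype.card_subtype]

theorem W_univ (n : ℕ) (w : Sym2 (Fin n) → ℕ) : W w Finset.univ = ∑ e ∈ OD n, w e := by
  unfold W
  rw [Finset.sym2_univ]

theorem prod_le (n a : ℕ) (ha : 1 ≤ a) (w : Sym2 (Fin n) → ℕ) :
    ∏ e ∈ OD n, (w e : ℝ) ≤ Real.exp ((n.choose 2 : ℝ) * Real.log a
      + ((W w Finset.univ : ℝ) - a * (n.choose 2 : ℝ)) * (Real.log ((a : ℝ) + 1) - Real.log a)) := by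
  by_cases h0 : ∃ e ∈ OD n, w e = 0
  · obtain ⟨e, he, hwe⟩ := h0
    rw [Finset.prod_eq_zero he (by rw [hwe]; simp)]
    exact (Real.exp_pos _).le
  · push Not at h0
    have hpos : ∀ e ∈ OD n, (0 : ℝ) < w e := fun e he => by
      exact_mod_cast Nat.pos_of_ne_zero (h0 e he)
    have : ∏ e ∈ OD n, (w e : ℝ) = Real.exp (∑ e ∈ OD n, Real.log (w e)) := by
      rw [Real.exp_sum]
      apply Finset.prod_congr rfl
      intro e he
      rw [Real.exp_log (hpos e he)]
    rw [this]
    apply Real.exp_le_exp.2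
    calc ∑ e ∈ OD n, Real.log (w e)
        ≤ ∑ e ∈ OD n, (Real.log a + ((w e : ℝ) - a) * (Real.log ((a : ℝ) + 1) - Real.log a)) :=
          Finset.sum_le_sum (fun e he => log_int a (w e) ha (Nat.pos_of_ne_zero (h0 e he)))
      _ = _ := by
          rw [Finset.sum_add_distrib, ← Finset.sum_mul, Finset.sum_sub_distrib, Finset.sum_const,
            Finset.sum_const, card_OD, W_univ]
          push_cast
          simp only [nsmul_eq_mul]
          ring

theorem prod_w0 (n a r : ℕ) (ha : 1 ≤ a) :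
    ∏ e ∈ OD n, (w0 a (fun i : Fin n => i.val % r) e : ℝ)
      = Real.exp ((n.choose 2 : ℝ) * Real.log a
      + ((W (w0 a (fun i : Fin n => i.val % r)) Finset.univ : ℝ) - a * (n.choose 2 : ℝ))
        * (Real.log ((a : ℝ) + 1) - Real.log a)) := by
  set w := w0 a (fun i : Fin n => i.val % r) with hw
  have hval : ∀ e, w e = a ∨ w e = a + 1 := fun e => w0_le _ _ e
  have hpos : ∀ e ∈ OD n, (0 : ℝ) < w e := fun e _ => by
    rcases hval e with h | h <;> rw [h] <;> exact_mod_cast (by omega)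
  have : ∏ e ∈ OD n, (w e : ℝ) = Real.exp (∑ e ∈ OD n, Real.log (w e)) := by
    rw [Real.exp_sum]
    apply Finset.prod_congr rfl
    intro e he
    rw [Real.exp_log (hpos e he)]
  rw [this]
  congr 1
  have h1 : ∑ e ∈ OD n, Real.log (w e) =
      ∑ e ∈ OD n, (Real.log a + ((w e : ℝ) - a) * (Real.log ((a : ℝ) + 1) - Real.log a)) := by
    apply Finset.sum_congr rfl
    intro e _
    rcases hval e with h | h
    · rw [h]; simp
    · rw [h]; push_cast; ring
  rw [h1, Finset.sum_add_distrib, ← Finset.sum_mul, Finset.sum_sub_distrib, Finset.sum_const,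
    Finset.sum_const, card_OD, W_univ]
  push_cast
  simp only [nsmul_eq_mul]
  ring

end Pool.Agent.H595R3.Flat
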