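import Mathlib

set_option autoImplicit false

namespace Pool.Agent.H595R3.Irr

open Finset

variable {α : Type*} [DecidableEq α]

/-- Laminar family. -/
def Lam (H : Finset (Finset α)) : Prop :=
  ∀ A ∈ H, ∀ B ∈ H, A ⊆ B ∨ B ⊆ A ∨ Disjoint A B

/-- Binary splitting. -/
def Bin (H : Finset (Finset α)) : Prop :=
  ∀ A ∈ H, 2 ≤ A.card → ∃ B ∈ H, ∃ C ∈ H,
    B.Nonempty ∧ C.Nonempty ∧ Disjoint B C ∧ B ∪ C = A

/-- `S` induces a copy of `D` in `H`. -/
def Copy {k : ℕ} (D : Finset (Finset (Fin k))) (H : Finset (Finset α)) (S : Finset α) : Prop :=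
  ∃ e : Fin k → α, Function.Injective e ∧ Set.range e = (↑S : Set α) ∧
    ∀ A : Finset (Fin k), A ∈ D ↔ (A.Nonempty ∧ ∃ C ∈ H, C ∩ S = A.image e)

/-- The weak caterpillar property: the root split of `S` has a part with at most one leaf. -/
def Cat (H : Finset (Finset α)) (S : Finset α) : Prop :=
  ∀ A ∈ H, ∀ A' ∈ H, Disjoint A A' → S ⊆ A ∪ A' → (A ∩ S).card ≤ 1 ∨ (A' ∩ S).card ≤ 1

theorem trace_cases {H : Finset (Finset α)} (hL : Lam H) {U B C : Finset α} (hU : U ∈ H)
    (hB : B ∈ H) (hC : C ∈ H) (hBn : B.Nonempty) (hd : Disjoint B C)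
    (hBC : B ∪ C = U) {S : Finset α} (hS : S ⊆ U) {X : Finset α} (hX : X ∈ H) :
    X ∩ S ⊆ B ∩ S ∨ X ∩ S ⊆ C ∩ S ∨ X ∩ S = S := by
  rcases hL X hX U hU with h | h | h
  · rcases hL X hX B hB with h1 | h1 | h1
    · left; exact Finset.inter_subset_inter_right h1
    · rcases hL X hX C hC with h2 | h2 | h2
      · exfalso
        obtain ⟨b, hb⟩ := hBn
        exact (Finset.disjoint_left.1 hd hb) (h2 (h1 hb))
      · right; right
        have : U ⊆ X := by rw [← hBC]; exact Finset.union_subset h1 h2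
        exact Finset.inter_eq_right.2 (hS.trans this)
      · left
        intro x hx
        rw [Finset.mem_inter] at hx ⊢
        have hxU := h hx.1
        rw [← hBC, Finset.mem_union] at hxU
        rcases hxU with hxB | hxC
        · exact ⟨hxB, hx.2⟩
        · exact absurd hxC (Finset.disjoint_left.1 h2 hx.1)
    · right; left
      intro x hx
      rw [Finset.mem_inter] at hx ⊢
      have hxU := h hx.1
      rw [← hBC, Finset.mem_union] at hxU
      rcases hxU with hxB | hxC
      · exact absurd hxB (Finset.disjoint_left.1 h1 hx.1)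
      · exact ⟨hxC, hx.2⟩
  · right; right
    exact Finset.inter_eq_right.2 (hS.trans h)
  · left
    intro x hx
    rw [Finset.mem_inter] at hx
    exact absurd (hS hx.2) (Finset.disjoint_left.1 h hx.1)

/-- The pattern: two caterpillars; `a` leaves on the left, `n - a` on the right. -/
def Fam (n a : ℕ) : Finset (Finset (Fin n)) :=
  insert Finset.univ
    ((Finset.univ.image (fun t : Fin n => ({t} : Finset (Fin n)))) ∪
     (Finset.univ.image (fun t : Fin n =>
        Finset.univ.filter (fun j : Fin n => (j.val < a ↔ t.val < a) ∧ j ≤ t))))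

/-- The ten leaf tree. -/
abbrev D10 : Finset (Finset (Fin 10)) := Fam 10 7

/-- Left leaves of `D10`. -/
def L7 : Finset (Fin 10) := Finset.univ.filter (fun j => j.val < 7)
/-- Right leaves of `D10`. -/
def R3 : Finset (Fin 10) := Finset.univ.filter (fun j => 7 ≤ j.val)

theorem D10_split : ∀ A ∈ D10, ∀ A' ∈ D10, Disjoint A A' → A ∪ A' = Finset.univ →
    (A = L7 ∧ A' = R3) ∨ (A = R3 ∧ A' = L7) := by
  decide +kernel

theorem D10_L7 : ∀ A ∈ insert ∅ D10, ∀ A' ∈ insert ∅ D10, Disjoint A A' → L7 = A ∪ A' →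
    A.card ≤ 1 ∨ A'.card ≤ 1 := by
  decide +kernel

theorem L7_card : L7.card = 7 := by decide
theorem R3_card : R3.card = 3 := by decide

end Pool.Agent.H595R3.Irr
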