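import Mathlib
import Pool.Agent.H595R3.Irr1

set_option autoImplicit false

namespace Pool.Agent.H595R3.Irr

open Finset

variable {α : Type*} [DecidableEq α]

/-- Preimage of a set under the labelling. -/
def pre {k : ℕ} (e : Fin k → α) (X : Finset α) : Finset (Fin k) :=
  Finset.univ.filter (fun i => e i ∈ X)

theorem pre_image {k : ℕ} {e : Fin k → α} {S : Finset α} (hr : Set.range e = (↑S : Set α))
    (X : Finset α) : (pre e X).image e = X ∩ S := by
  ext x
  simp only [pre, Finset.mem_image, Finset.mem_filter, Finset.mem_univ, true_and,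
    Finset.mem_inter]
  constructor
  · rintro ⟨i, hi, rfl⟩
    refine ⟨hi, ?_⟩
    have : e i ∈ Set.range e := ⟨i, rfl⟩
    rw [hr] at this
    exact this
  · rintro ⟨hx, hxS⟩
    have : x ∈ (↑S : Set α) := hxS
    rw [← hr] at this
    obtain ⟨i, rfl⟩ := this
    exact ⟨i, hx, rfl⟩

theorem card_pre {k : ℕ} {e : Fin k → α} (he : Function.Injective e) {S : Finset α}
    (hr : Set.range e = (↑S : Set α)) (X : Finset α) : (pre e X).card = (X ∩ S).card := by
  rw [← pre_image hr X, Finset.card_image_of_injective _ he]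

theorem pre_mem {k : ℕ} {D : Finset (Finset (Fin k))} {H : Finset (Finset α)} {S : Finset α}
    {e : Fin k → α} (hr : Set.range e = (↑S : Set α))
    (hD : ∀ A : Finset (Fin k), A ∈ D ↔ (A.Nonempty ∧ ∃ C ∈ H, C ∩ S = A.image e))
    {X : Finset α} (hX : X ∈ H) (hne : (X ∩ S).Nonempty) : pre e X ∈ D := by
  rw [hD]
  refine ⟨?_, X, hX, (pre_image hr X).symm⟩
  rw [← pre_image hr X] at hne
  exact Finset.image_nonempty.1 hne

theorem pre_mem' {k : ℕ} {D : Finset (Finset (Fin k))} {H : Finset (Finset α)} {S : Finset α}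
    {e : Fin k → α} (hr : Set.range e = (↑S : Set α))
    (hD : ∀ A : Finset (Fin k), A ∈ D ↔ (A.Nonempty ∧ ∃ C ∈ H, C ∩ S = A.image e))
    {X : Finset α} (hX : X ∈ H) : pre e X ∈ insert ∅ D := by
  rw [Finset.mem_insert]
  rcases Finset.eq_empty_or_nonempty (X ∩ S) with h | h
  · left
    rw [← pre_image hr X] at h
    exact Finset.image_eq_empty.1 h
  · right; exact pre_mem hr hD hX h

/-- One sided version: the part carrying the seven leaves is a caterpillar. -/
theorem cat_of_L7 {H : Finset (Finset α)} (hL : Lam H) {U B C : Finset α} (hU : U ∈ H)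
    (hB : B ∈ H) (hC : C ∈ H) (hBn : B.Nonempty) (hd : Disjoint B C)
    (hBC : B ∪ C = U) {S : Finset α} (hS : S ⊆ U) {e : Fin 10 → α}
    (he : Function.Injective e) (hr : Set.range e = (↑S : Set α))
    (hD : ∀ A : Finset (Fin 10), A ∈ D10 ↔ (A.Nonempty ∧ ∃ C ∈ H, C ∩ S = A.image e))
    (hpB : pre e B = L7) : Cat H (B ∩ S) := by
  intro A hA A' hA' hdis hcov
  have key : ∀ X Y : Finset α, Disjoint X Y → X ∩ S = S → (Y ∩ (B ∩ S)).card ≤ 1 := by
    intro X Y hXY hXS
    have : Y ∩ (B ∩ S) = ∅ := by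
      ext x
      simp only [Finset.mem_inter, Finset.notMem_empty, iff_false]
      rintro ⟨hxY, _, hxS⟩
      have : x ∈ X ∩ S := by rw [hXS]; exact hxS
      exact (Finset.disjoint_left.1 hXY (Finset.mem_inter.1 this).1) hxY
    rw [this]; simp
  have key2 : ∀ X : Finset α, X ∩ S ⊆ C ∩ S → (X ∩ (B ∩ S)).card ≤ 1 := by
    intro X hXC
    have : X ∩ (B ∩ S) = ∅ := by
      ext x
      simp only [Finset.mem_inter, Finset.notMem_empty, iff_false]
      rintro ⟨hxX, hxB, hxS⟩
      have := hXC (Finset.mem_inter.2 ⟨hxX, hxS⟩)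
      exact (Finset.disjoint_left.1 hd hxB) (Finset.mem_inter.1 this).1
    rw [this]; simp
  have hsub : ∀ X : Finset α, X ∩ (B ∩ S) ⊆ X ∩ S := by
    intro X x hx
    simp only [Finset.mem_inter] at hx ⊢
    exact ⟨hx.1, hx.2.2⟩
  rcases trace_cases hL hU hB hC hBn hd hBC hS hA with h1 | h1 | h1
  · rcases trace_cases hL hU hB hC hBn hd hBC hS hA' with h2 | h2 | h2
    · have hdp : Disjoint (pre e A) (pre e A') := by
        rw [Finset.disjoint_left]
        intro i hi hi'
        simp only [pre, Finset.mem_filter, Finset.mem_univ, true_and] at hi hi'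
        exact Finset.disjoint_left.1 hdis hi hi'
      have hSe : ∀ i, e i ∈ S := by
        intro i
        have : e i ∈ Set.range e := ⟨i, rfl⟩
        rw [hr] at this
        exact this
      have hun : L7 = pre e A ∪ pre e A' := by
        rw [← hpB]
        ext i
        simp only [pre, Finset.mem_filter, Finset.mem_univ, true_and, Finset.mem_union]
        constructor
        · intro hi
          have := hcov (Finset.mem_inter.2 ⟨hi, hSe i⟩)
          rwa [Finset.mem_union] at this
        · rintro (hi | hi)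
          · exact (Finset.mem_inter.1 (h1 (Finset.mem_inter.2 ⟨hi, hSe i⟩))).1
          · exact (Finset.mem_inter.1 (h2 (Finset.mem_inter.2 ⟨hi, hSe i⟩))).1
      rcases D10_L7 _ (pre_mem' hr hD hA) _ (pre_mem' hr hD hA') hdp hun with h | h
      · left
        rw [card_pre he hr] at h
        exact (Finset.card_le_card (hsub A)).trans h
      · right
        rw [card_pre he hr] at h
        exact (Finset.card_le_card (hsub A')).trans h
    · right; exact key2 A' h2
    · left; exact key A' A hdis.symm h2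
  · left; exact key2 A h1
  · right; exact key A A' hdis h1

theorem copy_split {H : Finset (Finset α)} (hL : Lam H) {U B C : Finset α} (hU : U ∈ H)
    (hB : B ∈ H) (hC : C ∈ H) (hBn : B.Nonempty) (hCn : C.Nonempty) (hd : Disjoint B C)
    (hBC : B ∪ C = U) {S : Finset α} (hS : S ⊆ U) (hcopy : Copy D10 H S)
    (hBS : (B ∩ S).Nonempty) (hCS : (C ∩ S).Nonempty) :
    ((B ∩ S).card = 7 ∧ (C ∩ S).card = 3 ∧ Cat H (B ∩ S)) ∨
    ((B ∩ S).card = 3 ∧ (C ∩ S).card = 7 ∧ Cat H (C ∩ S)) := by
  obtain ⟨e, he, hr, hD⟩ := hcopy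
  have hSe : ∀ i, e i ∈ S := by
    intro i
    have : e i ∈ Set.range e := ⟨i, rfl⟩
    rw [hr] at this
    exact this
  have hpd : Disjoint (pre e B) (pre e C) := by
    rw [Finset.disjoint_left]
    intro i hi hi'
    simp only [pre, Finset.mem_filter, Finset.mem_univ, true_and] at hi hi'
    exact Finset.disjoint_left.1 hd hi hi'
  have hpu : pre e B ∪ pre e C = Finset.univ := by
    ext i
    simp only [pre, Finset.mem_filter, Finset.mem_univ, true_and, Finset.mem_union, iff_true]
    have := hS (hSe i)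
    rwa [← hBC, Finset.mem_union] at this
  rcases D10_split _ (pre_mem hr hD hB hBS) _ (pre_mem hr hD hC hCS) hpd hpu with ⟨h1, h2⟩ | ⟨h1, h2⟩
  · left
    refine ⟨?_, ?_, ?_⟩
    · rw [← card_pre he hr B, h1, L7_card]
    · rw [← card_pre he hr C, h2, R3_card]
    · exact cat_of_L7 hL hU hB hC hBn hd hBC hS he hr hD h1
  · right
    refine ⟨?_, ?_, ?_⟩
    · rw [← card_pre he hr B, h1, R3_card]
    · rw [← card_pre he hr C, h2, L7_card]
    · exact cat_of_L7 hL hU hC hB hCn hd.symm (by rw [Finset.union_comm]; exact hBC) hS he hr hD h2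

end Pool.Agent.H595R3.Irr
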