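import Mathlib
import Pool.Agent.H595R3.Irr2

set_option autoImplicit false

namespace Pool.Agent.H595R3.Irr

open Finset

variable {α : Type*} [DecidableEq α]

open Classical in
/-- number of copies of the ten leaf tree inside `U` -/
noncomputable def NN (H : Finset (Finset α)) (U : Finset α) : ℕ :=
  (U.powerset.filter (fun S => Copy D10 H S)).card

open Classical in
/-- number of 7-sets that are not caterpillars -/
noncomputable def EE (H : Finset (Finset α)) (U : Finset α) : ℕ :=
  ((U.powersetCard 7).filter (fun S => ¬ Cat H S)).card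

open Classical in
/-- number of 7-sets that are caterpillars -/
noncomputable def KK (H : Finset (Finset α)) (U : Finset α) : ℕ :=
  ((U.powersetCard 7).filter (fun S => Cat H S)).card

theorem KK_add_EE (H : Finset (Finset α)) (U : Finset α) :
    KK H U + EE H U = U.card.choose 7 := by
  classical
  unfold KK EE
  rw [Finset.card_filter_add_card_filter_not, Finset.card_powersetCard]

theorem inter_union_left' {B C S1 S2 : Finset α} (hd : Disjoint B C) (h1 : S1 ⊆ B)
    (h2 : S2 ⊆ C) : B ∩ (S1 ∪ S2) = S1 := by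
  ext x
  simp only [Finset.mem_inter, Finset.mem_union]
  constructor
  · rintro ⟨hB, h | h⟩
    · exact h
    · exact absurd (h2 h) (Finset.disjoint_left.1 hd hB)
  · intro h; exact ⟨h1 h, Or.inl h⟩

theorem inter_union_right' {B C S1 S2 : Finset α} (hd : Disjoint B C) (h1 : S1 ⊆ B)
    (h2 : S2 ⊆ C) : C ∩ (S1 ∪ S2) = S2 := by
  rw [Finset.union_comm]
  exact inter_union_left' hd.symm h2 h1

theorem card_image_union {B C : Finset α} (hd : Disjoint B C) (P Q : Finset (Finset α))
    (hP : ∀ S ∈ P, S ⊆ B) (hQ : ∀ S ∈ Q, S ⊆ C) :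
    ((P ×ˢ Q).image (fun p => p.1 ∪ p.2)).card = P.card * Q.card := by
  rw [Finset.card_image_of_injOn, Finset.card_product]
  rintro ⟨a, b⟩ hab ⟨c, d⟩ hcd h
  simp only [Finset.coe_product, Set.mem_prod, Finset.mem_coe] at hab hcd
  simp only at h
  have h1 := inter_union_left' hd (hP a hab.1) (hQ b hab.2)
  have h2 := inter_union_left' hd (hP c hcd.1) (hQ d hcd.2)
  have h3 := inter_union_right' hd (hP a hab.1) (hQ b hab.2)
  have h4 := inter_union_right' hd (hP c hcd.1) (hQ d hcd.2)
  rw [h] at h1 h3
  rw [Prod.mk.injEq]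
  exact ⟨h1.symm.trans h2, h3.symm.trans h4⟩

theorem R1 {H : Finset (Finset α)} (hL : Lam H) {U B C : Finset α} (hU : U ∈ H)
    (hB : B ∈ H) (hC : C ∈ H) (hBn : B.Nonempty) (hCn : C.Nonempty) (hd : Disjoint B C)
    (hBC : B ∪ C = U) :
    NN H U ≤ NN H B + NN H C + KK H B * C.card.choose 3 + B.card.choose 3 * KK H C := by
  classical
  set P7 := (B.powersetCard 7).filter (fun S => Cat H S) with hP7
  set Q7 := (C.powersetCard 7).filter (fun S => Cat H S) with hQ7
  have hsub : U.powerset.filter (fun S => Copy D10 H S) ⊆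
      (((B.powerset.filter (fun S => Copy D10 H S)) ∪ (C.powerset.filter (fun S => Copy D10 H S)))
      ∪ ((P7 ×ˢ (C.powersetCard 3)).image (fun p => p.1 ∪ p.2)))
      ∪ (((B.powersetCard 3) ×ˢ Q7).image (fun p => p.1 ∪ p.2)) := by
    intro S hS
    rw [Finset.mem_filter, Finset.mem_powerset] at hS
    obtain ⟨hSU, hcopy⟩ := hS
    have hSBC : S = (B ∩ S) ∪ (C ∩ S) := by
      rw [← Finset.union_inter_distrib_right, hBC]
      exact (Finset.inter_eq_right.2 hSU).symm
    simp only [Finset.mem_union]
    rcases Finset.eq_empty_or_nonempty (B ∩ S) with h1 | h1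
    · left; left; right
      rw [Finset.mem_filter, Finset.mem_powerset]
      refine ⟨?_, hcopy⟩
      rw [hSBC, h1, Finset.empty_union]
      exact Finset.inter_subset_left
    · rcases Finset.eq_empty_or_nonempty (C ∩ S) with h2 | h2
      · left; left; left
        rw [Finset.mem_filter, Finset.mem_powerset]
        refine ⟨?_, hcopy⟩
        rw [hSBC, h2, Finset.union_empty]
        exact Finset.inter_subset_left
      · rcases copy_split hL hU hB hC hBn hCn hd hBC hSU hcopy h1 h2 with
          ⟨h7, h3, hcat⟩ | ⟨h3, h7, hcat⟩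
        · left; right
          rw [Finset.mem_image]
          refine ⟨(B ∩ S, C ∩ S), ?_, hSBC.symm⟩
          rw [Finset.mem_product, hP7, Finset.mem_filter, Finset.mem_powersetCard,
            Finset.mem_powersetCard]
          exact ⟨⟨⟨Finset.inter_subset_left, h7⟩, hcat⟩, Finset.inter_subset_left, h3⟩
        · right
          rw [Finset.mem_image]
          refine ⟨(B ∩ S, C ∩ S), ?_, hSBC.symm⟩
          rw [Finset.mem_product, hQ7, Finset.mem_filter, Finset.mem_powersetCard,
            Finset.mem_powersetCard]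
          exact ⟨⟨Finset.inter_subset_left, h3⟩, ⟨Finset.inter_subset_left, h7⟩, hcat⟩
  have h1 := Finset.card_le_card hsub
  have c1 : ((P7 ×ˢ (C.powersetCard 3)).image (fun p => p.1 ∪ p.2)).card
      = KK H B * C.card.choose 3 := by
    rw [card_image_union hd, Finset.card_powersetCard]
    · rfl
    · intro S hS
      rw [hP7, Finset.mem_filter, Finset.mem_powersetCard] at hS
      exact hS.1.1
    · intro S hS
      rw [Finset.mem_powersetCard] at hS
      exact hS.1
  have c2 : (((B.powersetCard 3) ×ˢ Q7).image (fun p => p.1 ∪ p.2)).card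
      = B.card.choose 3 * KK H C := by
    rw [card_image_union hd, Finset.card_powersetCard]
    · rfl
    · intro S hS
      rw [Finset.mem_powersetCard] at hS
      exact hS.1
    · intro S hS
      rw [hQ7, Finset.mem_filter, Finset.mem_powersetCard] at hS
      exact hS.1.1
  have u1 := Finset.card_union_le (((B.powerset.filter (fun S => Copy D10 H S)) ∪
      (C.powerset.filter (fun S => Copy D10 H S)))
      ∪ ((P7 ×ˢ (C.powersetCard 3)).image (fun p => p.1 ∪ p.2)))
      (((B.powersetCard 3) ×ˢ Q7).image (fun p => p.1 ∪ p.2))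
  have u2 := Finset.card_union_le ((B.powerset.filter (fun S => Copy D10 H S)) ∪
      (C.powerset.filter (fun S => Copy D10 H S)))
      ((P7 ×ˢ (C.powersetCard 3)).image (fun p => p.1 ∪ p.2))
  have u3 := Finset.card_union_le (B.powerset.filter (fun S => Copy D10 H S))
      (C.powerset.filter (fun S => Copy D10 H S))
  unfold NN
  omega

theorem R2 {H : Finset (Finset α)} {U B C : Finset α}
    (hB : B ∈ H) (hC : C ∈ H) (hd : Disjoint B C) (hBC : B ∪ C = U) :
    EE H B + EE H C + B.card.choose 5 * C.card.choose 2 + B.card.choose 2 * C.card.choose 5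
      ≤ EE H U := by
  classical
  set F1 := (B.powersetCard 7).filter (fun S => ¬ Cat H S) with hF1
  set F2 := (C.powersetCard 7).filter (fun S => ¬ Cat H S) with hF2
  set F3 := ((B.powersetCard 5) ×ˢ (C.powersetCard 2)).image (fun p => p.1 ∪ p.2) with hF3
  set F4 := ((B.powersetCard 2) ×ˢ (C.powersetCard 5)).image (fun p => p.1 ∪ p.2) with hF4
  have hBU : B ⊆ U := by rw [← hBC]; exact Finset.subset_union_left
  have hCU : C ⊆ U := by rw [← hBC]; exact Finset.subset_union_right
  have p1 : ∀ S ∈ F1, (B ∩ S).card = 7 := by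
    intro S hS
    rw [hF1, Finset.mem_filter, Finset.mem_powersetCard] at hS
    rw [Finset.inter_eq_right.2 hS.1.1, hS.1.2]
  have p2 : ∀ S ∈ F2, (B ∩ S).card = 0 := by
    intro S hS
    rw [hF2, Finset.mem_filter, Finset.mem_powersetCard] at hS
    rw [Finset.card_eq_zero, ← Finset.disjoint_iff_inter_eq_empty]
    exact Finset.disjoint_of_subset_right hS.1.1 hd
  have p3 : ∀ S ∈ F3, (B ∩ S).card = 5 ∧ (C ∩ S).card = 2 ∧ S ⊆ U ∧ S.card = 7 := by
    intro S hS
    rw [hF3, Finset.mem_image] at hS
    obtain ⟨⟨a, b⟩, hab, rfl⟩ := hS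
    rw [Finset.mem_product, Finset.mem_powersetCard, Finset.mem_powersetCard] at hab
    simp only at hab ⊢
    rw [inter_union_left' hd hab.1.1 hab.2.1, inter_union_right' hd hab.1.1 hab.2.1]
    refine ⟨hab.1.2, hab.2.2, Finset.union_subset (hab.1.1.trans hBU) (hab.2.1.trans hCU), ?_⟩
    rw [Finset.card_union_of_disjoint (Finset.disjoint_of_subset_left hab.1.1
      (Finset.disjoint_of_subset_right hab.2.1 hd)), hab.1.2, hab.2.2]
  have p4 : ∀ S ∈ F4, (B ∩ S).card = 2 ∧ (C ∩ S).card = 5 ∧ S ⊆ U ∧ S.card = 7 := by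
    intro S hS
    rw [hF4, Finset.mem_image] at hS
    obtain ⟨⟨a, b⟩, hab, rfl⟩ := hS
    rw [Finset.mem_product, Finset.mem_powersetCard, Finset.mem_powersetCard] at hab
    simp only at hab ⊢
    rw [inter_union_left' hd hab.1.1 hab.2.1, inter_union_right' hd hab.1.1 hab.2.1]
    refine ⟨hab.1.2, hab.2.2, Finset.union_subset (hab.1.1.trans hBU) (hab.2.1.trans hCU), ?_⟩
    rw [Finset.card_union_of_disjoint (Finset.disjoint_of_subset_left hab.1.1
      (Finset.disjoint_of_subset_right hab.2.1 hd)), hab.1.2, hab.2.2]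
  have hncat : ∀ S : Finset α, S ⊆ U → 2 ≤ (B ∩ S).card → 2 ≤ (C ∩ S).card → ¬ Cat H S := by
    intro S hSU h2 h3 hcat
    rcases hcat B hB C hC hd (by rw [hBC]; exact hSU) with h | h <;> omega
  have hsub : ((F1 ∪ F2) ∪ F3) ∪ F4 ⊆ (U.powersetCard 7).filter (fun S => ¬ Cat H S) := by
    intro S hS
    rw [Finset.mem_filter, Finset.mem_powersetCard]
    simp only [Finset.mem_union] at hS
    rcases hS with ((h | h) | h) | h
    · rw [hF1, Finset.mem_filter, Finset.mem_powersetCard] at h
      exact ⟨⟨h.1.1.trans hBU, h.1.2⟩, h.2⟩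
    · rw [hF2, Finset.mem_filter, Finset.mem_powersetCard] at h
      exact ⟨⟨h.1.1.trans hCU, h.1.2⟩, h.2⟩
    · obtain ⟨a, b, c, d⟩ := p3 S h
      exact ⟨⟨c, d⟩, hncat S c (by omega) (by omega)⟩
    · obtain ⟨a, b, c, d⟩ := p4 S h
      exact ⟨⟨c, d⟩, hncat S c (by omega) (by omega)⟩
  have d12 : Disjoint F1 F2 := by
    rw [Finset.disjoint_left]; intro S h1 h2
    have := p1 S h1; have := p2 S h2; omega
  have d123 : Disjoint (F1 ∪ F2) F3 := by
    rw [Finset.disjoint_left]; intro S h1 h2
    have h3 := (p3 S h2).1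
    rw [Finset.mem_union] at h1
    rcases h1 with h | h
    · have := p1 S h; omega
    · have := p2 S h; omega
  have d1234 : Disjoint ((F1 ∪ F2) ∪ F3) F4 := by
    rw [Finset.disjoint_left]; intro S h1 h2
    have h3 := (p4 S h2).1
    simp only [Finset.mem_union] at h1
    rcases h1 with (h | h) | h
    · have := p1 S h; omega
    · have := p2 S h; omega
    · have := (p3 S h).1; omega
  have hc := Finset.card_le_card hsub
  rw [Finset.card_union_of_disjoint d1234, Finset.card_union_of_disjoint d123,
    Finset.card_union_of_disjoint d12] at hc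
  have c3 : F3.card = B.card.choose 5 * C.card.choose 2 := by
    rw [hF3, card_image_union hd, Finset.card_powersetCard, Finset.card_powersetCard]
    · intro S hS; rw [Finset.mem_powersetCard] at hS; exact hS.1
    · intro S hS; rw [Finset.mem_powersetCard] at hS; exact hS.1
  have c4 : F4.card = B.card.choose 2 * C.card.choose 5 := by
    rw [hF4, card_image_union hd, Finset.card_powersetCard, Finset.card_powersetCard]
    · intro S hS; rw [Finset.mem_powersetCard] at hS; exact hS.1
    · intro S hS; rw [Finset.mem_powersetCard] at hS; exact hS.1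
  rw [c3, c4] at hc
  exact hc

end Pool.Agent.H595R3.Irr
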