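import Mathlib
import Pool.Agent.H595R3.Irr3

set_option autoImplicit false

namespace Pool.Agent.H595R3.Irr

open Finset

/-- The constant: maximum of `x^7 y^3 + x^3 y^7` on `x + y = 1`. -/
noncomputable def PP : ℝ := (1003 * Real.sqrt 34 - 5834) / 6250

theorem sqrt34_sq : Real.sqrt 34 ^ 2 = 34 := Real.sq_sqrt (by norm_num)

theorem sqrt34_lb : (5.8309 : ℝ) < Real.sqrt 34 := by
  apply Real.lt_sqrt_of_sq_lt; norm_num

theorem sqrt34_ub : Real.sqrt 34 < (5.831 : ℝ) := by
  rw [Real.sqrt_lt' (by norm_num)]; norm_num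

theorem PP_lb : (0.0023 : ℝ) < PP := by
  unfold PP
  have := sqrt34_lb
  linarith

theorem f_le (u : ℝ) (h0 : 0 ≤ u) (h1 : u ≤ 1 / 4) : 2 * u ^ 5 - 4 * u ^ 4 + u ^ 3 ≤ PP := by
  unfold PP
  have ht := sqrt34_sq
  have hl := sqrt34_lb
  have hu := sqrt34_ub
  set t := Real.sqrt 34 with htdef
  have hid : (1003 * t - 5834) / 6250 - (2 * u ^ 5 - 4 * u ^ 4 + u ^ 3)
      = (u - (8 - t) / 10) ^ 2 * (-2 * u ^ 3 + (0.8 + 0.4 * t) * u ^ 2
        + (0.16 * t - 0.48) * u + (0.088 * t - 0.464)) := by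
    linear_combination (-0.06 * u ^ 3 + (0.024 - 0.004 * t) * u ^ 2 + (0.0128 - 0.0016 * t) * u
      + (0.01872 - 0.00088 * t)) * ht
  have hg : 0 ≤ -2 * u ^ 3 + (0.8 + 0.4 * t) * u ^ 2
        + (0.16 * t - 0.48) * u + (0.088 * t - 0.464) := by
    have e1 : 0 ≤ u ^ 2 * (1 / 4 - u) := mul_nonneg (sq_nonneg u) (by linarith)
    have e2 : 0 ≤ (0.16 * t - 0.48) * u := mul_nonneg (by linarith) h0
    have e3 : 0 ≤ (0.8 + 0.4 * t - 0.5) * u ^ 2 := mul_nonneg (by linarith) (sq_nonneg u)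
    have e4 : 0 ≤ 0.088 * t - 0.464 := by linarith
    nlinarith
  have := mul_nonneg (sq_nonneg (u - (8 - t) / 10)) hg
  linarith

theorem cross_le (x y : ℝ) (hx : 0 ≤ x) (hy : 0 ≤ y) :
    x ^ 7 * y ^ 3 + x ^ 3 * y ^ 7 ≤ PP * (x + y) ^ 10 := by
  rcases eq_or_lt_of_le (add_nonneg hx hy) with h | h
  · have hx0 : x = 0 := by linarith
    have hy0 : y = 0 := by linarith
    rw [hx0, hy0]; simp
  · set s := x + y with hs
    have hu0 : 0 ≤ x * y / s ^ 2 := by positivity
    have hu1 : x * y / s ^ 2 ≤ 1 / 4 := by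
      rw [div_le_div_iff₀ (by positivity) (by norm_num)]
      nlinarith [sq_nonneg (x - y)]
    have h1 := f_le _ hu0 hu1
    have h2 := mul_le_mul_of_nonneg_right h1 (show 0 ≤ s ^ 10 by positivity)
    have h3 : (2 * (x * y / s ^ 2) ^ 5 - 4 * (x * y / s ^ 2) ^ 4 + (x * y / s ^ 2) ^ 3) * s ^ 10
        = x ^ 7 * y ^ 3 + x ^ 3 * y ^ 7 := by
      have hs0 : s ≠ 0 := h.ne'
      have : (2 * (x * y / s ^ 2) ^ 5 - 4 * (x * y / s ^ 2) ^ 4 + (x * y / s ^ 2) ^ 3) * s ^ 10
        = 2 * (x * y) ^ 5 - 4 * (x * y) ^ 4 * s ^ 2 + (x * y) ^ 3 * s ^ 4 := by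
        field_simp
      rw [this, hs]
      ring
    rw [h3] at h2
    exact h2

theorem choose7 (n : ℕ) : n.choose 7 * 42 = n.choose 5 * ((n - 5) * (n - 6)) := by
  have h1 := Nat.choose_succ_right_eq n 5
  have h2 := Nat.choose_succ_right_eq n 6
  calc n.choose 7 * 42 = (n.choose 7 * 7) * 6 := by ring
    _ = (n.choose 6 * (n - 6)) * 6 := by rw [h2]
    _ = (n.choose 6 * 6) * (n - 6) := by ring
    _ = (n.choose 5 * (n - 5)) * (n - 6) := by rw [h1]
    _ = _ := by ring

theorem choose3 (n : ℕ) : n.choose 3 * 3 = n.choose 2 * (n - 2) :=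
  Nat.choose_succ_right_eq n 2

theorem choose3' (n : ℕ) : n.choose 3 * 6 = n * (n - 1) * (n - 2) := by
  have h1 := Nat.choose_succ_right_eq n 1
  have h2 := Nat.choose_succ_right_eq n 2
  rw [Nat.choose_one_right] at h1
  calc n.choose 3 * 6 = (n.choose 3 * 3) * 2 := by ring
    _ = (n.choose 2 * 2) * (n - 2) := by rw [h2]; ring
    _ = _ := by rw [h1]

theorem amgm (b c : ℕ) : 27 * (b ^ 2 * c) ≤ 4 * (b + c) ^ 3 := by
  zify
  have h : (0 : ℤ) ≤ (b - 2 * c) ^ 2 * (4 * b + c) := by positivity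
  nlinarith

theorem A1 (b c : ℕ) :
    1701 * (b.choose 7 * c.choose 3) ≤ 2 * (b + c) ^ 3 * (b.choose 5 * c.choose 2) := by
  have h1 : b.choose 7 * 42 ≤ b.choose 5 * b ^ 2 := by
    rw [choose7, sq]
    exact Nat.mul_le_mul_left _ (Nat.mul_le_mul (Nat.sub_le _ _) (Nat.sub_le _ _))
  have h2 : c.choose 3 * 3 ≤ c.choose 2 * c := by
    rw [choose3]
    exact Nat.mul_le_mul_left _ (Nat.sub_le _ _)
  have h3 := Nat.mul_le_mul h1 h2
  have h4 := Nat.mul_le_mul_left (b.choose 5 * c.choose 2) (amgm b c)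
  have h5 : 27 * (b.choose 7 * 42 * (c.choose 3 * 3)) ≤
      27 * (b.choose 5 * b ^ 2 * (c.choose 2 * c)) := Nat.mul_le_mul_left _ h3
  nlinarith

variable {α : Type*} [DecidableEq α]

theorem copy_card {H : Finset (Finset α)} {S : Finset α} (h : Copy D10 H S) : S.card = 10 := by
  obtain ⟨e, he, hr, _⟩ := h
  have : S = Finset.univ.image e := by
    ext x
    have : x ∈ (↑S : Set α) ↔ x ∈ Set.range e := by rw [hr]
    simpa using this
  rw [this, Finset.card_image_of_injective _ he]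
  simp

theorem NN_le_choose (H : Finset (Finset α)) (U : Finset α) : NN H U ≤ U.card.choose 10 := by
  classical
  unfold NN
  rw [← Finset.card_powersetCard]
  apply Finset.card_le_card
  intro S hS
  rw [Finset.mem_filter, Finset.mem_powerset] at hS
  rw [Finset.mem_powersetCard]
  exact ⟨hS.1, copy_card hS.2⟩

theorem claim1 {H : Finset (Finset α)} (hL : Lam H) (hBin : Bin H) :
    ∀ n : ℕ, ∀ U ∈ H, U.card = n → 1701 * NN H U ≤ 2 * n ^ 3 * EE H U := by
  intro n
  induction n using Nat.strong_induction_on with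
  | _ n ih =>
    intro U hU hn
    rcases Nat.lt_or_ge n 2 with hlt | hge
    · have h := NN_le_choose H U
      rw [Nat.choose_eq_zero_of_lt (by omega)] at h
      have : NN H U = 0 := by omega
      rw [this]; simp
    · obtain ⟨B, hB, C, hC, hBn, hCn, hd, hBC⟩ := hBin U hU (by omega)
      have hcard : B.card + C.card = n := by
        rw [← Finset.card_union_of_disjoint hd, hBC, hn]
      have hb1 := Finset.card_pos.2 hBn
      have hc1 := Finset.card_pos.2 hCn
      have iB := ih B.card (by omega) B hB rfl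
      have iC := ih C.card (by omega) C hC rfl
      have r1 := R1 hL hU hB hC hBn hCn hd hBC
      have r2 := R2 hB hC hd hBC
      have kB := KK_add_EE H B
      have kC := KK_add_EE H C
      have a1 := A1 B.card C.card
      have a2 := A1 C.card B.card
      rw [← hcard]
      set b := B.card
      set c := C.card
      have k1 : KK H B * c.choose 3 ≤ b.choose 7 * c.choose 3 :=
        Nat.mul_le_mul_right _ (by omega)
      have k2 : b.choose 3 * KK H C ≤ c.choose 7 * b.choose 3 := by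
        rw [Nat.mul_comm]
        exact Nat.mul_le_mul_right _ (by omega)
      have m1 : 2 * b ^ 3 * EE H B ≤ 2 * (b + c) ^ 3 * EE H B := by gcongr; omega
      have m2 : 2 * c ^ 3 * EE H C ≤ 2 * (b + c) ^ 3 * EE H C := by gcongr; omega
      have m3 : 2 * (b + c) ^ 3 * (EE H B + EE H C + b.choose 5 * c.choose 2
          + b.choose 2 * c.choose 5) ≤ 2 * (b + c) ^ 3 * EE H U := Nat.mul_le_mul_left _ r2
      have m4 : 2 * (c + b) ^ 3 * (c.choose 5 * b.choose 2)
          = 2 * (b + c) ^ 3 * (b.choose 2 * c.choose 5) := by ring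
      rw [m4] at a2
      calc 1701 * NN H U ≤ 1701 * (NN H B + NN H C + KK H B * c.choose 3
            + b.choose 3 * KK H C) := Nat.mul_le_mul_left _ r1
        _ ≤ 1701 * NN H B + 1701 * NN H C + 1701 * (b.choose 7 * c.choose 3)
            + 1701 * (c.choose 7 * b.choose 3) := by
              have := Nat.mul_le_mul_left 1701 k1
              have := Nat.mul_le_mul_left 1701 k2
              nlinarith
        _ ≤ 2 * (b + c) ^ 3 * EE H B + 2 * (b + c) ^ 3 * EE H C
            + 2 * (b + c) ^ 3 * (b.choose 5 * c.choose 2)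
            + 2 * (b + c) ^ 3 * (b.choose 2 * c.choose 5) := by
              have := iB.trans m1
              have := iC.trans m2
              omega
        _ = 2 * (b + c) ^ 3 * (EE H B + EE H C + b.choose 5 * c.choose 2
          + b.choose 2 * c.choose 5) := by ring
        _ ≤ _ := m3

end Pool.Agent.H595R3.Irr
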