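import Mathlib
import Pool.Agent.H595R3.Irr4

set_option autoImplicit false

namespace Pool.Agent.H595R3.Irr

open Finset

theorem poly_ineq (x y : ℝ) (hy : 0 ≤ y) (hxy : 4 * y ≤ x) :
    PP * x ^ 10 + PP * y ^ 10 + (x ^ 7 * y ^ 3 + x ^ 3 * y ^ 7) ≤ PP * (x + y) ^ 10 := by
  have hP := PP_lb
  have hx : 0 ≤ x := by linarith
  have hexp : (x + y) ^ 10 = x ^ 10 + y ^ 10 + (10 * (x ^ 9 * y) + 45 * (x ^ 8 * y ^ 2)
      + 120 * (x ^ 7 * y ^ 3) + 210 * (x ^ 6 * y ^ 4) + 252 * (x ^ 5 * y ^ 5)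
      + 210 * (x ^ 4 * y ^ 6) + 120 * (x ^ 3 * y ^ 7) + 45 * (x ^ 2 * y ^ 8)
      + 10 * (x * y ^ 9)) := by ring
  have h16 : 16 * y ^ 2 ≤ x ^ 2 := by nlinarith
  have e1 : 16 * (x ^ 7 * y ^ 3) ≤ x ^ 9 * y := by
    have : 0 ≤ x ^ 7 * y := by positivity
    nlinarith [mul_le_mul_of_nonneg_left h16 this]
  have e2 : 4 * (x ^ 7 * y ^ 3) ≤ x ^ 8 * y ^ 2 := by
    have : 0 ≤ x ^ 7 * y ^ 2 := by positivity
    nlinarith [mul_le_mul_of_nonneg_left hxy this]
  have e3 : 16 * (x ^ 3 * y ^ 7) ≤ x ^ 5 * y ^ 5 := by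
    have : 0 ≤ x ^ 3 * y ^ 5 := by positivity
    nlinarith [mul_le_mul_of_nonneg_left h16 this]
  have p1 : 0 ≤ x ^ 6 * y ^ 4 := by positivity
  have p2 : 0 ≤ x ^ 4 * y ^ 6 := by positivity
  have p3 : 0 ≤ x ^ 3 * y ^ 7 := by positivity
  have p4 : 0 ≤ x ^ 2 * y ^ 8 := by positivity
  have p5 : 0 ≤ x * y ^ 9 := by positivity
  have p6 : 0 ≤ x ^ 7 * y ^ 3 := by positivity
  set R := 10 * (x ^ 9 * y) + 45 * (x ^ 8 * y ^ 2)
      + 120 * (x ^ 7 * y ^ 3) + 210 * (x ^ 6 * y ^ 4) + 252 * (x ^ 5 * y ^ 5)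
      + 210 * (x ^ 4 * y ^ 6) + 120 * (x ^ 3 * y ^ 7) + 45 * (x ^ 2 * y ^ 8)
      + 10 * (x * y ^ 9) with hR
  have hRlow : 460 * (x ^ 7 * y ^ 3) + 4000 * (x ^ 3 * y ^ 7) ≤ R := by
    rw [hR]; nlinarith
  have hR0 : 0 ≤ R := le_trans (by positivity) hRlow
  rw [hexp]
  have h1 : (0.0023 : ℝ) * R ≤ PP * R := mul_le_mul_of_nonneg_right hP.le hR0
  nlinarith

/-- Casting helper bounds. -/
theorem ch7 (n : ℕ) : (n.choose 7 : ℝ) ≤ (n : ℝ) ^ 7 / 5040 := by
  have h := Nat.choose_le_pow_div (α := ℝ) 7 n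
  simpa [Nat.factorial] using h

theorem ch3 (n : ℕ) : (n.choose 3 : ℝ) ≤ (n : ℝ) ^ 3 / 6 := by
  have h := Nat.choose_le_pow_div (α := ℝ) 3 n
  simpa [Nat.factorial] using h

theorem cross_choose (b c : ℕ) :
    30240 * ((b.choose 7 : ℝ) * c.choose 3 + b.choose 3 * c.choose 7)
      ≤ (b : ℝ) ^ 7 * c ^ 3 + b ^ 3 * c ^ 7 := by
  have h1 := mul_le_mul (ch7 b) (ch3 c) (by positivity) (by positivity)
  have h2 := mul_le_mul (ch3 b) (ch7 c) (by positivity) (by positivity)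
  nlinarith

theorem num_step (b c : ℕ) (hcb : c ≤ b) (hn : 21 ≤ b + c)
    (N NB NC EB EC : ℝ) (hEB0 : 0 ≤ EB) (hEC0 : 0 ≤ EC)
    (hEB : EB ≤ b.choose 7) (hEC : EC ≤ c.choose 7)
    (hNB : 30240 * NB ≤ PP * (b : ℝ) ^ 10) (hNC : 30240 * NC ≤ PP * (c : ℝ) ^ 10)
    (hNB' : 1701 * NB ≤ 2 * (b : ℝ) ^ 3 * EB) (hNC' : 1701 * NC ≤ 2 * (c : ℝ) ^ 3 * EC)
    (hN : N ≤ NB + NC + (b.choose 7 - EB) * c.choose 3 + b.choose 3 * (c.choose 7 - EC)) :
    30240 * N ≤ PP * ((b : ℝ) + c) ^ 10 := by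
  have hcc := cross_choose b c
  rcases Nat.lt_or_ge b (4 * c) with h | h
  · -- balanced case
    have hc5 : 5 ≤ c := by omega
    have hb : (b : ℝ) ≤ 4 * c := by exact_mod_cast h.le
    have hc : (5 : ℝ) ≤ c := by exact_mod_cast hc5
    have hcb' : (c : ℝ) ≤ b := by exact_mod_cast hcb
    have hb5 : (5 : ℝ) ≤ b := by linarith
    have e3 : ∀ m : ℕ, 5 ≤ m → (m.choose 3 : ℝ) * 6 = m * (m - 1) * (m - 2) := by
      intro m hm
      have h := choose3' m
      have h' : ((m.choose 3 * 6 : ℕ) : ℝ) = ((m * (m - 1) * (m - 2) : ℕ) : ℝ) := by rw [h]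
      push_cast [Nat.cast_sub (show 1 ≤ m by omega), Nat.cast_sub (show 2 ≤ m by omega)] at h'
      exact h'
    have k1 : 2 * (b : ℝ) ^ 3 ≤ 1701 * c.choose 3 := by
      have h1 := e3 c hc5
      have h2 : (b : ℝ) ^ 3 ≤ (4 * c) ^ 3 := by gcongr
      have h3 : 128 * (c : ℝ) ^ 2 ≤ 283.5 * ((c - 1) * (c - 2)) := by nlinarith
      have h4 : 128 * (c : ℝ) ^ 2 * c ≤ 283.5 * ((c - 1) * (c - 2)) * c :=
        mul_le_mul_of_nonneg_right h3 (by linarith)
      nlinarith
    have k2 : 2 * (c : ℝ) ^ 3 ≤ 1701 * b.choose 3 := by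
      have h1 := e3 b (by omega)
      have h2 : (c : ℝ) ^ 3 ≤ (b : ℝ) ^ 3 := by gcongr
      have h3 : 128 * (b : ℝ) ^ 2 ≤ 283.5 * ((b - 1) * (b - 2)) := by nlinarith
      have h4 : 128 * (b : ℝ) ^ 2 * b ≤ 283.5 * ((b - 1) * (b - 2)) * b :=
        mul_le_mul_of_nonneg_right h3 (by linarith)
      have h5 : 0 ≤ (b : ℝ) ^ 3 := by positivity
      nlinarith
    have k3 : 1701 * NB ≤ 1701 * (c.choose 3 * EB) := by
      have := mul_le_mul_of_nonneg_right k1 hEB0
      linarith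
    have k4 : 1701 * NC ≤ 1701 * (b.choose 3 * EC) := by
      have := mul_le_mul_of_nonneg_right k2 hEC0
      linarith
    have k5 : N ≤ (b.choose 7 : ℝ) * c.choose 3 + b.choose 3 * c.choose 7 := by nlinarith
    have k6 := cross_le (b : ℝ) c (by positivity) (by positivity)
    linarith
  · have hbc : 4 * (c : ℝ) ≤ b := by exact_mod_cast h
    have k1 := poly_ineq (b : ℝ) c (by positivity) hbc
    have k2 : N ≤ NB + NC + ((b.choose 7 : ℝ) * c.choose 3 + b.choose 3 * c.choose 7) := by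
      have e1 : 0 ≤ EB * (c.choose 3 : ℝ) := by positivity
      have e2 : 0 ≤ (b.choose 3 : ℝ) * EC := by positivity
      nlinarith
    linarith

variable {α : Type*} [DecidableEq α]

theorem small_case (n : ℕ) (hn : n ≤ 20) : 30240 * (n.choose 10 : ℝ) ≤ PP * (n : ℝ) ^ 10 := by
  have hP := PP_lb
  have key : 30240 * (n.choose 10 : ℝ) ≤ 0.0023 * (n : ℝ) ^ 10 := by
    interval_cases n <;> norm_num [Nat.choose]
  have : (0.0023 : ℝ) * (n : ℝ) ^ 10 ≤ PP * (n : ℝ) ^ 10 :=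
    mul_le_mul_of_nonneg_right hP.le (by positivity)
  linarith

theorem claim2 {H : Finset (Finset α)} (hL : Lam H) (hBin : Bin H) :
    ∀ n : ℕ, ∀ U ∈ H, U.card = n → 30240 * (NN H U : ℝ) ≤ PP * (n : ℝ) ^ 10 := by
  intro n
  induction n using Nat.strong_induction_on with
  | _ n ih =>
    intro U hU hn
    rcases Nat.lt_or_ge n 21 with hlt | hge
    · have h := NN_le_choose H U
      rw [hn] at h
      have h' : (NN H U : ℝ) ≤ n.choose 10 := by exact_mod_cast h
      have := small_case n (by omega)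
      linarith
    · obtain ⟨B, hB, C, hC, hBn, hCn, hd, hBC⟩ := hBin U hU (by omega)
      have hcard : B.card + C.card = n := by
        rw [← Finset.card_union_of_disjoint hd, hBC, hn]
      have hb1 := Finset.card_pos.2 hBn
      have hc1 := Finset.card_pos.2 hCn
      have iB := ih B.card (by omega) B hB rfl
      have iC := ih C.card (by omega) C hC rfl
      have r1 := R1 hL hU hB hC hBn hCn hd hBC
      have kB := KK_add_EE H B
      have kC := KK_add_EE H C
      have cB := claim1 hL hBin B.card B hB rfl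
      have cC := claim1 hL hBin C.card C hC rfl
      have r1' : (NN H U : ℝ) ≤ NN H B + NN H C + KK H B * C.card.choose 3
          + B.card.choose 3 * KK H C := by exact_mod_cast r1
      have kB' : (KK H B : ℝ) = B.card.choose 7 - EE H B := by
        have : (KK H B : ℝ) + EE H B = B.card.choose 7 := by exact_mod_cast kB
        linarith
      have kC' : (KK H C : ℝ) = C.card.choose 7 - EE H C := by
        have : (KK H C : ℝ) + EE H C = C.card.choose 7 := by exact_mod_cast kC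
        linarith
      have cB' : 1701 * (NN H B : ℝ) ≤ 2 * (B.card : ℝ) ^ 3 * EE H B := by exact_mod_cast cB
      have cC' : 1701 * (NN H C : ℝ) ≤ 2 * (C.card : ℝ) ^ 3 * EE H C := by exact_mod_cast cC
      have eB : (EE H B : ℝ) ≤ B.card.choose 7 := by
        have : (0 : ℝ) ≤ KK H B := by positivity
        linarith
      have eC : (EE H C : ℝ) ≤ C.card.choose 7 := by
        have : (0 : ℝ) ≤ KK H C := by positivity
        linarith
      rw [kB', kC'] at r1'
      rcases le_total C.card B.card with h | h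
      · have := num_step B.card C.card h (by omega) (NN H U) (NN H B) (NN H C) (EE H B) (EE H C)
          (by positivity) (by positivity) eB eC iB iC cB' cC' r1'
        have e : ((n : ℕ) : ℝ) = (B.card : ℝ) + C.card := by exact_mod_cast hcard.symm
        rw [e]; exact this
      · have := num_step C.card B.card h (by omega) (NN H U) (NN H C) (NN H B) (EE H C) (EE H B)
          (by positivity) (by positivity) eC eB iC iB cC' cB' (by linarith)
        have e : ((n : ℕ) : ℝ) = (C.card : ℝ) + B.card := by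
          have : n = C.card + B.card := by omega
          exact_mod_cast this
        rw [e]; exact this

end Pool.Agent.H595R3.Irr
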