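import Mathlib
import Pool.Agent.H595R3.Irr3

set_option autoImplicit false

namespace Pool.Agent.H595R3.Irr

open Finset

/-- initial segment of `t` on its own side -/
def Pt (n a : ℕ) (t : Fin n) : Finset (Fin n) :=
  Finset.univ.filter (fun j : Fin n => (j.val < a ↔ t.val < a) ∧ j ≤ t)

theorem mem_Pt {n a : ℕ} {t j : Fin n} : j ∈ Pt n a t ↔ (j.val < a ↔ t.val < a) ∧ j ≤ t := by
  simp [Pt]

theorem mem_Fam {n a : ℕ} {A : Finset (Fin n)} :
    A ∈ Fam n a ↔ A = Finset.univ ∨ (∃ t, A = {t}) ∨ (∃ t, A = Pt n a t) := by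
  unfold Fam Pt
  simp only [Finset.mem_insert, Finset.mem_union, Finset.mem_image, Finset.mem_univ, true_and]
  constructor
  · rintro (h | ⟨t, h⟩ | ⟨t, h⟩)
    · left; exact h
    · right; left; exact ⟨t, h.symm⟩
    · right; right; exact ⟨t, h.symm⟩
  · rintro (h | ⟨t, h⟩ | ⟨t, h⟩)
    · left; exact h
    · right; left; exact ⟨t, h.symm⟩
    · right; right; exact ⟨t, h.symm⟩

theorem Fam_univ (n a : ℕ) : Finset.univ ∈ Fam n a := mem_Fam.2 (Or.inl rfl)

theorem Fam_single (n a : ℕ) (i : Fin n) : {i} ∈ Fam n a := mem_Fam.2 (Or.inr (Or.inl ⟨i, rfl⟩))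

theorem Fam_empty (n a : ℕ) (hn : 0 < n) : ∅ ∉ Fam n a := by
  rw [mem_Fam]
  rintro (h | ⟨t, h⟩ | ⟨t, h⟩)
  · have : (⟨0, hn⟩ : Fin n) ∈ (∅ : Finset (Fin n)) := by rw [h]; exact Finset.mem_univ _
    simp at this
  · have : t ∈ (∅ : Finset (Fin n)) := by rw [h]; simp
    simp at this
  · have : t ∈ (∅ : Finset (Fin n)) := by rw [h, mem_Pt]; simp
    simp at this

theorem single_lam {n : ℕ} (t : Fin n) (B : Finset (Fin n)) :
    {t} ⊆ B ∨ B ⊆ {t} ∨ Disjoint {t} B := by
  by_cases h : t ∈ B
  · left; simpa using h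
  · right; right; simpa using h

theorem Fam_lam (n a : ℕ) : Lam (Fam n a) := by
  intro A hA B hB
  rw [mem_Fam] at hA hB
  rcases hA with rfl | ⟨t, rfl⟩ | ⟨t, rfl⟩
  · right; left; exact Finset.subset_univ _
  · exact single_lam t B
  · rcases hB with rfl | ⟨s, rfl⟩ | ⟨s, rfl⟩
    · left; exact Finset.subset_univ _
    · rcases single_lam s (Pt n a t) with h | h | h
      · right; left; exact h
      · left; exact h
      · right; right; exact h.symm
    · by_cases hs : (t.val < a ↔ s.val < a)
      · rcases le_total t s with h | h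
        · left
          intro j hj
          rw [mem_Pt] at hj ⊢
          exact ⟨hj.1.trans hs, hj.2.trans h⟩
        · right; left
          intro j hj
          rw [mem_Pt] at hj ⊢
          exact ⟨hj.1.trans hs.symm, hj.2.trans h⟩
      · right; right
        rw [Finset.disjoint_left]
        intro j hj hj'
        rw [mem_Pt] at hj hj'
        exact hs (hj.1.symm.trans hj'.1)

theorem Fam_bin (n a : ℕ) (ha : 1 ≤ a) (han : a < n) : Bin (Fam n a) := by
  intro A hA hcard
  rw [mem_Fam] at hA
  rcases hA with rfl | ⟨t, rfl⟩ | ⟨t, rfl⟩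
  · refine ⟨Pt n a ⟨a - 1, by omega⟩, mem_Fam.2 (Or.inr (Or.inr ⟨_, rfl⟩)),
      Pt n a ⟨n - 1, by omega⟩, mem_Fam.2 (Or.inr (Or.inr ⟨_, rfl⟩)), ?_, ?_, ?_, ?_⟩
    · exact ⟨_, mem_Pt.2 ⟨Iff.rfl, le_rfl⟩⟩
    · exact ⟨_, mem_Pt.2 ⟨Iff.rfl, le_rfl⟩⟩
    · rw [Finset.disjoint_left]
      intro j hj hj'
      rw [mem_Pt] at hj hj'
      simp only [Fin.le_def] at hj hj'
      omega
    · ext j
      simp only [Finset.mem_union, mem_Pt, Finset.mem_univ, iff_true, Fin.le_def]
      have := j.2
      omega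
  · simp at hcard
  · by_cases hsame : 1 ≤ t.val ∧ (t.val - 1 < a ↔ t.val < a)
    · refine ⟨Pt n a ⟨t.val - 1, by omega⟩, mem_Fam.2 (Or.inr (Or.inr ⟨_, rfl⟩)),
        {t}, Fam_single n a t, ?_, ?_, ?_, ?_⟩
      · exact ⟨_, mem_Pt.2 ⟨Iff.rfl, le_rfl⟩⟩
      · exact Finset.singleton_nonempty t
      · rw [Finset.disjoint_singleton_right, mem_Pt]
        simp only [Fin.le_def]
        omega
      · ext j
        simp only [Finset.mem_union, mem_Pt, Finset.mem_singleton, Fin.le_def, Fin.ext_iff]
        omega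
    · exfalso
      have : Pt n a t = {t} := by
        ext j
        simp only [mem_Pt, Finset.mem_singleton, Fin.le_def, Fin.ext_iff]
        omega
      rw [this] at hcard
      simp at hcard

/-- Order and side preserving maps give copies. -/
theorem copy_of_map {k n a0 a : ℕ} (hk : 0 < k) (e : Fin k → Fin n) (he : Function.Injective e)
    (hside : ∀ i j : Fin k, (i.val < a0 ↔ j.val < a0) ↔ ((e i).val < a ↔ (e j).val < a))
    (hord : ∀ i j : Fin k, (i.val < a0 ↔ j.val < a0) → (i ≤ j ↔ e i ≤ e j)) :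
    Copy (Fam k a0) (Fam n a) (Finset.univ.image e) := by
  refine ⟨e, he, by simp, ?_⟩
  intro A
  constructor
  · intro hA
    rw [mem_Fam] at hA
    rcases hA with rfl | ⟨i, rfl⟩ | ⟨i, rfl⟩
    · refine ⟨⟨⟨0, hk⟩, Finset.mem_univ _⟩, Finset.univ, Fam_univ n a, ?_⟩
      exact Finset.univ_inter _
    · refine ⟨Finset.singleton_nonempty i, {e i}, Fam_single n a _, ?_⟩
      rw [Finset.image_singleton]
      exact Finset.inter_eq_left.2 (by simp)
    · refine ⟨⟨i, mem_Pt.2 ⟨Iff.rfl, le_rfl⟩⟩, Pt n a (e i), mem_Fam.2 (Or.inr (Or.inr ⟨_, rfl⟩)), ?_⟩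
      ext x
      simp only [Finset.mem_inter, mem_Pt, Finset.mem_image, Finset.mem_univ, true_and]
      constructor
      · rintro ⟨⟨h1, h2⟩, j, rfl⟩
        have hs := (hside j i).2 h1
        exact ⟨j, ⟨hs, (hord j i hs).2 h2⟩, rfl⟩
      · rintro ⟨j, ⟨h1, h2⟩, rfl⟩
        exact ⟨⟨(hside j i).1 h1, (hord j i h1).1 h2⟩, j, rfl⟩
  · rintro ⟨hne, X, hX, hXS⟩
    have hmem : ∀ i, i ∈ A ↔ e i ∈ X := by
      intro i
      have h1 : e i ∈ A.image e ↔ i ∈ A := by
        rw [Finset.mem_image]
        constructor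
        · rintro ⟨j, hj, hji⟩
          rwa [← he hji]
        · intro h; exact ⟨i, h, rfl⟩
      rw [← h1, ← hXS, Finset.mem_inter]
      constructor
      · exact fun h => h.1
      · intro h; exact ⟨h, Finset.mem_image_of_mem e (Finset.mem_univ i)⟩
    rw [mem_Fam] at hX
    rcases hX with rfl | ⟨t, rfl⟩ | ⟨t, rfl⟩
    · have : A = Finset.univ := by
        ext i; simp [hmem i]
      rw [this]; exact Fam_univ k a0
    · obtain ⟨i0, hi0⟩ := hne
      have h0 : e i0 = t := by simpa using (hmem i0).1 hi0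
      have : A = {i0} := by
        ext i
        rw [hmem i, Finset.mem_singleton, Finset.mem_singleton, ← h0]
        exact ⟨fun h => he h, fun h => by rw [h]⟩
      rw [this]; exact Fam_single k a0 i0
    · have hm := Finset.max'_mem A hne
      have hmax := Finset.le_max' A
      set m := A.max' hne with hmdef
      have hm1 := (hmem m).1 hm
      rw [mem_Pt] at hm1
      have : A = Pt k a0 m := by
        ext i
        rw [hmem i, mem_Pt, mem_Pt]
        constructor
        · rintro ⟨h1, h2⟩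
          have hs : (i.val < a0 ↔ m.val < a0) := (hside i m).2 (h1.trans hm1.1.symm)
          exact ⟨hs, hmax i ((hmem i).2 (mem_Pt.2 ⟨h1, h2⟩))⟩
        · rintro ⟨h1, h2⟩
          exact ⟨((hside i m).1 h1).trans hm1.1, ((hord i m h1).1 h2).trans hm1.2⟩
      rw [this]
      exact mem_Fam.2 (Or.inr (Or.inr ⟨_, rfl⟩))

theorem copy_of_parts {n a : ℕ} (σ : Prop) (T7 T3 : Finset (Fin n)) (h7 : T7.card = 7)
    (h3 : T3.card = 3) (hs7 : ∀ x ∈ T7, (x.val < a ↔ σ)) (hs3 : ∀ x ∈ T3, (x.val < a ↔ ¬ σ)) :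
    Copy D10 (Fam n a) (T7 ∪ T3) := by
  set e : Fin 10 → Fin n := fun i =>
    if h : i.val < 7 then T7.orderEmbOfFin h7 ⟨i.val, h⟩
    else T3.orderEmbOfFin h3 ⟨i.val - 7, by omega⟩ with he
  have e7 : ∀ i : Fin 10, ∀ h : i.val < 7, e i = T7.orderEmbOfFin h7 ⟨i.val, h⟩ := by
    intro i h; simp only [he]; rw [dif_pos h]
  have e3 : ∀ i : Fin 10, ∀ h : ¬ i.val < 7, e i = T3.orderEmbOfFin h3 ⟨i.val - 7, by omega⟩ := by
    intro i h; simp only [he]; rw [dif_neg h]
  have m7 : ∀ i : Fin 10, i.val < 7 → e i ∈ T7 := by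
    intro i h; rw [e7 i h]; exact Finset.orderEmbOfFin_mem _ _ _
  have m3 : ∀ i : Fin 10, ¬ i.val < 7 → e i ∈ T3 := by
    intro i h; rw [e3 i h]; exact Finset.orderEmbOfFin_mem _ _ _
  have s7 : ∀ i : Fin 10, i.val < 7 → ((e i).val < a ↔ σ) := fun i h => hs7 _ (m7 i h)
  have s3 : ∀ i : Fin 10, ¬ i.val < 7 → ((e i).val < a ↔ ¬ σ) := fun i h => hs3 _ (m3 i h)
  have hside : ∀ i j : Fin 10, (i.val < 7 ↔ j.val < 7) ↔ ((e i).val < a ↔ (e j).val < a) := by
    intro i j
    by_cases hi : i.val < 7 <;> by_cases hj : j.val < 7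
    · have := s7 i hi; have := s7 j hj; tauto
    · have := s7 i hi; have := s3 j hj; tauto
    · have := s3 i hi; have := s7 j hj; tauto
    · have := s3 i hi; have := s3 j hj; tauto
  have hord : ∀ i j : Fin 10, (i.val < 7 ↔ j.val < 7) → (i ≤ j ↔ e i ≤ e j) := by
    intro i j hij
    by_cases hi : i.val < 7
    · have hj := hij.1 hi
      rw [e7 i hi, e7 j hj, (T7.orderEmbOfFin h7).le_iff_le, Fin.le_def, Fin.le_def]
    · have hj : ¬ j.val < 7 := fun h => hi (hij.2 h)
      rw [e3 i hi, e3 j hj, (T3.orderEmbOfFin h3).le_iff_le, Fin.le_def, Fin.le_def]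
      simp only
      omega
  have hinj : Function.Injective e := by
    intro i j hij
    have hs : (i.val < 7 ↔ j.val < 7) := by
      rw [hside i j, hij]
    have h1 := (hord i j hs).2 hij.le
    have h2 := (hord j i hs.symm).2 hij.ge
    exact le_antisymm h1 h2
  have himg : Finset.univ.image e = T7 ∪ T3 := by
    apply Finset.eq_of_subset_of_card_le
    · intro x hx
      rw [Finset.mem_image] at hx
      obtain ⟨i, _, rfl⟩ := hx
      rw [Finset.mem_union]
      by_cases h : i.val < 7
      · left; exact m7 i h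
      · right; exact m3 i h
    · rw [Finset.card_image_of_injective _ hinj]
      refine (Finset.card_union_le _ _).trans ?_
      rw [h7, h3]; simp
  rw [← himg]
  exact copy_of_map (by norm_num) e hinj hside hord

theorem NN_Fam_ge (n a : ℕ) (ha : a ≤ n) :
    a.choose 7 * (n - a).choose 3 + a.choose 3 * (n - a).choose 7
      ≤ NN (Fam n a) Finset.univ := by
  classical
  set B : Finset (Fin n) := Finset.univ.filter (fun j => j.val < a) with hB
  set C : Finset (Fin n) := Finset.univ.filter (fun j => ¬ j.val < a) with hC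
  have hd : Disjoint B C := Finset.disjoint_filter_filter_not _ _ _
  have hBc : B.card = a := by
    have : B.card = (Finset.range a).card := by
      apply Finset.card_bij (fun i _ => i.val)
      · intro i hi; simpa [hB] using hi
      · intro i _ j _ h; exact Fin.ext h
      · intro j hj
        rw [Finset.mem_range] at hj
        exact ⟨⟨j, by omega⟩, by simpa [hB] using hj, rfl⟩
    rw [this, Finset.card_range]
  have hCc : C.card = n - a := by
    have h := Finset.card_filter_add_card_filter_not (s := (Finset.univ : Finset (Fin n)))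
      (fun j => j.val < a)
    rw [Finset.card_univ, Fintype.card_fin] at h
    have h' : B.card + C.card = n := h
    omega
  set F1 := ((B.powersetCard 7) ×ˢ (C.powersetCard 3)).image (fun p => p.1 ∪ p.2) with hF1
  set F2 := ((B.powersetCard 3) ×ˢ (C.powersetCard 7)).image (fun p => p.1 ∪ p.2) with hF2
  have c1 : F1.card = a.choose 7 * (n - a).choose 3 := by
    rw [hF1, card_image_union hd, Finset.card_powersetCard, Finset.card_powersetCard, hBc, hCc]
    · intro S hS; rw [Finset.mem_powersetCard] at hS; exact hS.1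
    · intro S hS; rw [Finset.mem_powersetCard] at hS; exact hS.1
  have c2 : F2.card = a.choose 3 * (n - a).choose 7 := by
    rw [hF2, card_image_union hd, Finset.card_powersetCard, Finset.card_powersetCard, hBc, hCc]
    · intro S hS; rw [Finset.mem_powersetCard] at hS; exact hS.1
    · intro S hS; rw [Finset.mem_powersetCard] at hS; exact hS.1
  have q1 : ∀ S ∈ F1, (B ∩ S).card = 7 ∧ Copy D10 (Fam n a) S := by
    intro S hS
    rw [hF1, Finset.mem_image] at hS
    obtain ⟨⟨s, t⟩, hst, rfl⟩ := hS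
    rw [Finset.mem_product, Finset.mem_powersetCard, Finset.mem_powersetCard] at hst
    simp only at hst ⊢
    refine ⟨by rw [inter_union_left' hd hst.1.1 hst.2.1]; exact hst.1.2, ?_⟩
    apply copy_of_parts True s t hst.1.2 hst.2.2
    · intro x hx
      have := hst.1.1 hx
      rw [hB, Finset.mem_filter] at this
      simp [this.2]
    · intro x hx
      have := hst.2.1 hx
      rw [hC, Finset.mem_filter] at this
      simp only [not_true_eq_false, iff_false]
      exact this.2
  have q2 : ∀ S ∈ F2, (B ∩ S).card = 3 ∧ Copy D10 (Fam n a) S := by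
    intro S hS
    rw [hF2, Finset.mem_image] at hS
    obtain ⟨⟨s, t⟩, hst, rfl⟩ := hS
    rw [Finset.mem_product, Finset.mem_powersetCard, Finset.mem_powersetCard] at hst
    simp only at hst ⊢
    refine ⟨by rw [inter_union_left' hd hst.1.1 hst.2.1]; exact hst.1.2, ?_⟩
    rw [Finset.union_comm]
    apply copy_of_parts False t s hst.2.2 hst.1.2
    · intro x hx
      have := hst.2.1 hx
      rw [hC, Finset.mem_filter] at this
      simp only [iff_false]
      exact this.2
    · intro x hx
      have := hst.1.1 hx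
      rw [hB, Finset.mem_filter] at this
      simp [this.2]
  have hd12 : Disjoint F1 F2 := by
    rw [Finset.disjoint_left]
    intro S h1 h2
    have := (q1 S h1).1
    have := (q2 S h2).1
    omega
  have hsub : F1 ∪ F2 ⊆ (Finset.univ : Finset (Fin n)).powerset.filter
      (fun S => Copy D10 (Fam n a) S) := by
    intro S hS
    rw [Finset.mem_filter, Finset.mem_powerset]
    refine ⟨Finset.subset_univ _, ?_⟩
    rw [Finset.mem_union] at hS
    rcases hS with h | h
    · exact (q1 S h).2
    · exact (q2 S h).2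
  have := Finset.card_le_card hsub
  rw [Finset.card_union_of_disjoint hd12, c1, c2] at this
  exact this

end Pool.Agent.H595R3.Irr
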