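import Mathlib
import Pool.Agent.H595R3.Irr5
import Pool.Agent.H595R3.Irr6

set_option autoImplicit false

namespace Pool.Agent.H595R3.Irr

open Finset Filter Topology

theorem lim_choose (m : ℕ → ℕ) (z : ℝ)
    (hm : Tendsto (fun n => (m n : ℝ) / n) atTop (𝓝 z)) (k : ℕ) :
    Tendsto (fun n => ((m n).choose k : ℝ) / (n : ℝ) ^ k) atTop (𝓝 (z ^ k / k.factorial)) := by
  have hfac : ∀ i : ℕ, Tendsto (fun n => (((m n) - i : ℕ) : ℝ) / n) atTop (𝓝 z) := by
    intro i
    have h0 : Tendsto (fun n : ℕ => (i : ℝ) / (n : ℝ)) atTop (𝓝 0) :=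
      tendsto_const_div_atTop_nhds_zero_nat (i : ℝ)
    have h1 : Tendsto (fun n : ℕ => (m n : ℝ) / n - (i : ℝ) / (n : ℝ)) atTop (𝓝 z) := by
      simpa using hm.sub h0
    refine tendsto_of_tendsto_of_tendsto_of_le_of_le h1 hm ?_ ?_
    · intro n
      simp only
      rw [← sub_div]
      apply div_le_div_of_nonneg_right _ (Nat.cast_nonneg n)
      rw [sub_le_iff_le_add]
      have : m n ≤ m n - i + i := by omega
      exact_mod_cast this
    · intro n
      simp only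
      apply div_le_div_of_nonneg_right _ (Nat.cast_nonneg n)
      exact_mod_cast Nat.sub_le _ _
  have hprod : Tendsto (fun n => ∏ i ∈ Finset.range k, ((((m n) - i : ℕ) : ℝ) / n)) atTop
      (𝓝 (∏ _i ∈ Finset.range k, z)) := tendsto_finsetProd _ (fun i _ => hfac i)
  rw [Finset.prod_const, Finset.card_range] at hprod
  have := hprod.div_const (k.factorial : ℝ)
  refine this.congr ?_
  intro n
  have h1 : ((m n).choose k : ℝ) * k.factorial = ∏ i ∈ Finset.range k, (((m n) - i : ℕ) : ℝ) := by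
    rw [← Nat.cast_prod, ← Nat.descFactorial_eq_prod_range, Nat.descFactorial_eq_factorial_mul_choose]
    push_cast
    ring
  rw [Finset.prod_div_distrib, Finset.prod_const, Finset.card_range, ← h1]
  have : (k.factorial : ℝ) ≠ 0 := by positivity
  field_simp

/-- the optimal product of the two proportions -/
noncomputable def u0 : ℝ := (8 - Real.sqrt 34) / 10

/-- the optimal proportion -/
noncomputable def x0 : ℝ := (1 + Real.sqrt (1 - 4 * u0)) / 2

theorem disc_pos : 0 < 1 - 4 * u0 := by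
  unfold u0
  have := sqrt34_lb
  linarith

theorem x0_lb : 1 / 2 < x0 := by
  unfold x0
  have := Real.sqrt_pos.2 disc_pos
  linarith

theorem x0_ub : x0 < 1 := by
  unfold x0
  have h : Real.sqrt (1 - 4 * u0) < 1 := by
    rw [Real.sqrt_lt' (by norm_num)]
    unfold u0
    have := sqrt34_ub
    linarith
  linarith

theorem x0_prod : x0 * (1 - x0) = u0 := by
  unfold x0
  have h := Real.sq_sqrt disc_pos.le
  have e : (1 + Real.sqrt (1 - 4 * u0)) / 2 * (1 - (1 + Real.sqrt (1 - 4 * u0)) / 2)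
      = (1 - Real.sqrt (1 - 4 * u0) ^ 2) / 4 := by ring
  rw [e, h]
  ring

theorem f_u0 : 2 * u0 ^ 5 - 4 * u0 ^ 4 + u0 ^ 3 = PP := by
  unfold PP u0
  have ht := sqrt34_sq
  set t := Real.sqrt 34 with htdef
  have hid : ∀ u : ℝ, (1003 * t - 5834) / 6250 - (2 * u ^ 5 - 4 * u ^ 4 + u ^ 3)
      = (u - (8 - t) / 10) ^ 2 * (-2 * u ^ 3 + (0.8 + 0.4 * t) * u ^ 2
        + (0.16 * t - 0.48) * u + (0.088 * t - 0.464)) := by
    intro u
    linear_combination (-0.06 * u ^ 3 + (0.024 - 0.004 * t) * u ^ 2 + (0.0128 - 0.0016 * t) * u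
      + (0.01872 - 0.00088 * t)) * ht
  have h := hid ((8 - t) / 10)
  rw [sub_self, zero_pow (by norm_num), zero_mul, sub_eq_zero] at h
  exact h.symm

theorem cross_x0 : x0 ^ 7 * (1 - x0) ^ 3 + x0 ^ 3 * (1 - x0) ^ 7 = PP := by
  rw [← f_u0, ← x0_prod]
  ring

theorem irr_L : Irrational (120 * PP) := by
  have h34 : Irrational (Real.sqrt 34) := by
    rw [show (34 : ℝ) = ((34 : ℕ) : ℝ) by norm_num, irrational_sqrt_natCast_iff]
    rintro ⟨r, hr⟩
    have h1 : r < 6 := by nlinarith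
    interval_cases r <;> omega
  have e : 120 * PP = ((12036 / 625 : ℚ) : ℝ) * Real.sqrt 34 + ((-70008 / 625 : ℚ) : ℝ) := by
    unfold PP
    push_cast
    ring
  rw [e]
  exact (h34.ratCast_mul (by norm_num)).add_ratCast _

theorem lim_upper : Tendsto (fun n : ℕ => (PP / 30240 * (n : ℝ) ^ 10) / (n.choose 10 : ℝ)) atTop
    (𝓝 (120 * PP)) := by
  have h1 : Tendsto (fun n : ℕ => ((n : ℕ) : ℝ) / n) atTop (𝓝 1) := by
    apply Tendsto.congr' _ tendsto_const_nhds
    filter_upwards [eventually_gt_atTop 0] with n hn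
    have : (n : ℝ) ≠ 0 := by positivity
    field_simp
  have h2 := lim_choose (fun n => n) 1 h1 10
  have h3 : Tendsto (fun n : ℕ => (PP / 30240) / ((n.choose 10 : ℝ) / (n : ℝ) ^ 10)) atTop
      (𝓝 ((PP / 30240) / (1 ^ 10 / (Nat.factorial 10 : ℝ)))) :=
    tendsto_const_nhds.div h2 (by positivity)
  have e : (PP / 30240) / (1 ^ 10 / (Nat.factorial 10 : ℝ)) = 120 * PP := by
    simp [Nat.factorial]
    ring
  rw [e] at h3
  refine h3.congr' ?_
  filter_upwards [eventually_ge_atTop 10] with n hn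
  have hn0 : (n : ℝ) ≠ 0 := by positivity
  have hc : (n.choose 10 : ℝ) ≠ 0 := by
    have := Nat.choose_pos hn
    positivity
  field_simp

theorem lim_lower : Tendsto (fun n : ℕ =>
    (((⌊x0 * n⌋₊).choose 7 * (n - ⌊x0 * n⌋₊).choose 3
      + (⌊x0 * n⌋₊).choose 3 * (n - ⌊x0 * n⌋₊).choose 7 : ℕ) : ℝ) / (n.choose 10 : ℝ)) atTop
    (𝓝 (120 * PP)) := by
  have hx0 : 0 < x0 := by have := x0_lb; linarith
  have h1 : Tendsto (fun n : ℕ => ((n : ℕ) : ℝ) / n) atTop (𝓝 1) := by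
    apply Tendsto.congr' _ tendsto_const_nhds
    filter_upwards [eventually_gt_atTop 0] with n hn
    have : (n : ℝ) ≠ 0 := by positivity
    field_simp
  have ha : Tendsto (fun n : ℕ => ((⌊x0 * n⌋₊ : ℕ) : ℝ) / n) atTop (𝓝 x0) := by
    have := (tendsto_nat_floor_mul_div_atTop (R := ℝ) hx0.le).comp tendsto_natCast_atTop_atTop
    exact this
  have hle : ∀ n : ℕ, ⌊x0 * n⌋₊ ≤ n := by
    intro n
    apply Nat.floor_le_of_le
    have := x0_ub
    have hn : (0 : ℝ) ≤ n := Nat.cast_nonneg n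
    nlinarith
  have hb : Tendsto (fun n : ℕ => ((n - ⌊x0 * n⌋₊ : ℕ) : ℝ) / n) atTop (𝓝 (1 - x0)) := by
    refine (h1.sub ha).congr ?_
    intro n
    rw [Nat.cast_sub (hle n), sub_div]
  have a7 := lim_choose (fun n => ⌊x0 * n⌋₊) x0 ha 7
  have a3 := lim_choose (fun n => ⌊x0 * n⌋₊) x0 ha 3
  have b7 := lim_choose (fun n => n - ⌊x0 * n⌋₊) (1 - x0) hb 7
  have b3 := lim_choose (fun n => n - ⌊x0 * n⌋₊) (1 - x0) hb 3
  have c10 := lim_choose (fun n => n) 1 h1 10
  have h := ((a7.mul b3).add (a3.mul b7)).div c10 (by positivity)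
  have e : (x0 ^ 7 / (Nat.factorial 7 : ℝ) * ((1 - x0) ^ 3 / (Nat.factorial 3 : ℝ))
      + x0 ^ 3 / (Nat.factorial 3 : ℝ) * ((1 - x0) ^ 7 / (Nat.factorial 7 : ℝ)))
      / (1 ^ 10 / (Nat.factorial 10 : ℝ)) = 120 * PP := by
    rw [← cross_x0]
    simp [Nat.factorial]
    ring
  rw [e] at h
  refine h.congr' ?_
  filter_upwards [eventually_ge_atTop 10] with n hn
  have hn0 : (n : ℝ) ≠ 0 := by positivity
  have hc : (n.choose 10 : ℝ) ≠ 0 := by
    have := Nat.choose_pos hn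
    positivity
  simp only [Pi.div_apply, Pi.add_apply, Pi.mul_apply]
  push_cast
  field_simp

end Pool.Agent.H595R3.Irr
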