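import Mathlib

set_option autoImplicit false

namespace Pool.Agent.H595R3.Kung

open Set Submodule

variable {α β : Type}

/-- The vectors `v` represent the matroid `M` over the field `F`. -/
def IsRep (F : Type) [Field F] {V : Type} [AddCommGroup V] [Module F V] (M : Matroid α)
    (v : α → V) : Prop :=
  ∀ I ⊆ M.E, (M.Indep I ↔ LinearIndepOn F v I)

theorem IsRep.minor {F : Type} [Field F] {V : Type} [AddCommGroup V] [Module F V]
    {M N : Matroid α} {v : α → V} (h : IsRep F M v) (hN : N ≤m M) :
    ∃ C ⊆ M.E, IsRep F N ((span F (v '' C)).mkQ ∘ v) := by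
  obtain ⟨C, D, hC, hD, hCD, rfl⟩ := hN.exists_eq_contract_delete_disjoint
  refine ⟨C, hC, ?_⟩
  intro I hI
  have hIE : I ⊆ M.E := hI.trans (by
    rw [Matroid.delete_ground, Matroid.contract_ground]
    exact sdiff_subset.trans sdiff_subset)
  have hIC : Disjoint C I := by
    rw [Matroid.delete_ground, Matroid.contract_ground] at hI
    exact (disjoint_sdiff_right.mono_right (hI.trans sdiff_subset))
  have hID : Disjoint I D := by
    rw [Matroid.delete_ground] at hI
    exact disjoint_sdiff_left.mono_left hI
  obtain ⟨J, hJ⟩ := M.exists_isBasis C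
  rw [Matroid.delete_indep_iff, and_iff_left hID, hJ.contract_indep_iff, and_iff_left hIC]
  have hJE : J ⊆ M.E := hJ.subset.trans hC
  have hJi : LinearIndepOn F v J := (h J hJE).1 hJ.indep
  have hspan : span F (v '' C) = span F (v '' J) := by
    apply le_antisymm
    · rw [span_le]
      rintro _ ⟨c, hc, rfl⟩
      by_cases hcJ : c ∈ J
      · exact subset_span ⟨c, hcJ, rfl⟩
      · by_contra hn
        have h1 : LinearIndepOn F v (insert c J) := hJi.insert hn
        have h2 : M.Indep (insert c J) := (h _ (insert_subset (hC hc) hJE)).2 h1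
        have := hJ.eq_of_subset_indep h2 (subset_insert c J) (insert_subset hc hJ.subset)
        exact hcJ (this ▸ mem_insert c J)
    · exact span_mono (image_mono hJ.subset)
  rw [h _ (union_subset hIE hJE), hspan, union_comm]
  exact (hJi.quotient_iff_union (hIC.mono_left hJ.subset)).symm

section count

variable {F : Type} [Field F] {V : Type} [AddCommGroup V] [Module F V]

theorem pow_le_card [Finite V] (Y : AddSubgroup V) :
    2 ^ (Module.finrank F (span F (Y : Set V))) ≤ Nat.card Y := by
  classical
  obtain ⟨b, hbY, hspan, hli⟩ := exists_linearIndependent F (Y : Set V)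
  have hbf : Finite b := Subtype.finite
  have : Fintype b := Fintype.ofFinite b
  have hfr : Module.finrank F (span F (Y : Set V)) = Fintype.card b := by
    rw [← hspan]
    exact finrank_span_set_eq_card hli |>.trans (by rw [Set.toFinset_card])
  rw [hfr, ← Fintype.card_finset, ← Nat.card_eq_fintype_card]
  let φ : Finset b → Y := fun s => ⟨∑ x ∈ s, (x : V), Y.sum_mem (fun x _ => hbY x.2)⟩
  apply Nat.card_le_card_of_injective φ
  intro s t hst
  have h1 : ∑ x ∈ s, (x : V) = ∑ x ∈ t, (x : V) := congrArg Subtype.val hst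
  have h2 : ∀ s : Finset b, ∑ x ∈ s, (x : V) = ∑ x : b, (if x ∈ s then (1 : F) else 0) • (x : V) := by
    intro s
    simp
  rw [h2 s, h2 t] at h1
  have h3 := Fintype.linearIndependent_iff.1 hli
    (fun x => (if x ∈ s then (1 : F) else 0) - (if x ∈ t then (1 : F) else 0))
    (by simp only [sub_smul, Finset.sum_sub_distrib]; rw [h1, sub_self])
  ext x
  have h4 := h3 x
  by_cases hs : x ∈ s <;> by_cases ht : x ∈ t <;> simp [hs, ht] at h4 ⊢

theorem card_quot [Finite V] (X : AddSubgroup V) (U : Submodule F V) :
    Nat.card (X.map U.mkQ.toAddMonoidHom) * Nat.card (X ⊓ U.toAddSubgroup : AddSubgroup V)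
      = Nat.card X := by
  set f : X →+ V ⧸ U := U.mkQ.toAddMonoidHom.comp X.subtype with hf
  have h1 : f.range = X.map U.mkQ.toAddMonoidHom := by
    rw [hf, AddMonoidHom.range_comp, AddSubgroup.range_subtype]
  have h2 : f.ker.map X.subtype = X ⊓ U.toAddSubgroup := by
    ext x
    simp only [AddSubgroup.mem_map, AddMonoidHom.mem_ker, AddSubgroup.mem_inf]
    constructor
    · rintro ⟨y, hy, rfl⟩
      refine ⟨y.2, ?_⟩
      have : U.mkQ (y : V) = 0 := hy
      rw [Submodule.mkQ_apply, Submodule.Quotient.mk_eq_zero] at this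
      exact this
    · rintro ⟨hx, hxU⟩
      refine ⟨⟨x, hx⟩, ?_, rfl⟩
      change U.mkQ x = 0
      rw [Submodule.mkQ_apply, Submodule.Quotient.mk_eq_zero]
      exact hxU
  have h3 : Nat.card (f.ker.map X.subtype) = Nat.card f.ker :=
    AddSubgroup.card_map_of_injective (AddSubgroup.subtype_injective X)
  rw [← h1, ← h2, h3, mul_comm, ← AddSubgroup.index_ker, AddSubgroup.card_mul_index]

theorem finrank_quot [Finite V] (X : AddSubgroup V) (U : Submodule F V)
    (hU : U ≤ span F (X : Set V)) :
    Module.finrank F (span F ((X.map U.mkQ.toAddMonoidHom : AddSubgroup (V ⧸ U)) : Set (V ⧸ U)))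
      + Module.finrank F U = Module.finrank F (span F (X : Set V)) := by
  have hFV : Module.Finite F V := Module.Finite.of_finite
  have h1 : span F ((X.map U.mkQ.toAddMonoidHom : AddSubgroup (V ⧸ U)) : Set (V ⧸ U))
      = (span F (X : Set V)).map U.mkQ := by
    rw [Submodule.map_span]
    rfl
  rw [h1, ← LinearMap.range_domRestrict]
  have h2 := LinearMap.finrank_range_add_finrank_ker (U.mkQ.domRestrict (span F (X : Set V)))
  have h3 : Module.finrank F (LinearMap.ker (U.mkQ.domRestrict (span F (X : Set V))))
      = Module.finrank F U := by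
    rw [LinearMap.ker_domRestrict, Submodule.ker_mkQ]
    exact (Submodule.comapSubtypeEquivOfLe hU).finrank_eq
  rw [h3] at h2
  exact h2

end count

end Pool.Agent.H595R3.Kung
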