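import Mathlib
import Pool.Agent.H595R3.Kung1

set_option autoImplicit false

namespace Pool.Agent.H595R3.Kung

open Set Submodule

variable {α β : Type}

/-- The class of matroids represented over `F` by vectors lying in an additive subgroup `X`
whose order is at most `2 ^ (dim (span X) + 1)`. -/
def Good (F : Type) [Field F] (M : Matroid α) : Prop :=
  ∃ (V : Type) (_ : AddCommGroup V) (_ : Module F V) (_ : Finite V) (v : α → V)
    (X : AddSubgroup V), IsRep F M v ∧ (∀ a ∈ M.E, v a ∈ X) ∧
      Nat.card X ≤ 2 ^ (Module.finrank F (span F (X : Set V)) + 1)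

theorem Good.minor {F : Type} [Field F] {M N : Matroid α} (h : Good F M) (hN : N ≤m M) :
    Good F N := by
  obtain ⟨V, i1, i2, i3, v, X, hrep, hX, hcard⟩ := h
  obtain ⟨C, hC, hrep'⟩ := hrep.minor hN
  set U : Submodule F V := span F (v '' C) with hU
  have hFin : Finite (V ⧸ U) := Finite.of_surjective _ (Submodule.mkQ_surjective U)
  have hvC : v '' C ⊆ (X : Set V) := by
    rintro _ ⟨c, hc, rfl⟩
    exact hX c (hC hc)
  have hUX : U ≤ span F (X : Set V) := span_mono hvC
  refine ⟨V ⧸ U, inferInstance, inferInstance, hFin, U.mkQ ∘ v,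
    X.map U.mkQ.toAddMonoidHom, hrep', ?_, ?_⟩
  · intro a ha
    exact AddSubgroup.mem_map.2 ⟨v a, hX a (hN.subset ha), rfl⟩
  · have h1 := card_quot (F := F) X U
    have h2 := finrank_quot (F := F) X U hUX
    have h3 := pow_le_card (F := F) (X ⊓ U.toAddSubgroup)
    have hFV : Module.Finite F V := Module.Finite.of_finite
    have h4 : Module.finrank F U ≤
        Module.finrank F (span F ((X ⊓ U.toAddSubgroup : AddSubgroup V) : Set V)) := by
      apply Submodule.finrank_mono
      rw [hU, span_le]
      rintro _ ⟨c, hc, rfl⟩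
      apply subset_span
      exact ⟨hX c (hC hc), subset_span ⟨c, hc, rfl⟩⟩
    have h5 : 2 ^ Module.finrank F U ≤ Nat.card (X ⊓ U.toAddSubgroup : AddSubgroup V) :=
      (Nat.pow_le_pow_right (by norm_num) h4).trans h3
    have h6 : Nat.card (X.map U.mkQ.toAddMonoidHom) * 2 ^ Module.finrank F U
        ≤ 2 ^ (Module.finrank F (span F ((X.map U.mkQ.toAddMonoidHom : AddSubgroup (V ⧸ U)) :
          Set (V ⧸ U))) + 1) * 2 ^ Module.finrank F U := by
      calc _ ≤ Nat.card (X.map U.mkQ.toAddMonoidHom) *
            Nat.card (X ⊓ U.toAddSubgroup : AddSubgroup V) := Nat.mul_le_mul_left _ h5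
        _ = Nat.card X := h1
        _ ≤ _ := hcard
        _ = _ := by rw [← h2, ← pow_add]; congr 1; ring
    exact Nat.le_of_mul_le_mul_right h6 (by positivity)

/-- every set with at most two elements is independent -/
def Simple (M : Matroid α) : Prop := ∀ I ⊆ M.E, I.encard ≤ 2 → M.Indep I

theorem rep_inj {F : Type} [Field F] {V : Type} [AddCommGroup V] [Module F V] {M : Matroid α}
    {v : α → V} (h : IsRep F M v) (hs : Simple M) : InjOn v M.E := by
  intro a ha b hb hab
  by_contra hne
  have h1 : M.Indep {a, b} := hs _ (by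
    intro x hx
    rcases hx with rfl | hx
    · exact ha
    · rw [mem_singleton_iff] at hx; rw [hx]; exact hb) (by
      refine (Set.encard_insert_le {b} a).trans ?_
      rw [Set.encard_singleton]
      exact le_of_eq one_add_one_eq_two)
  have h2 := (h {a, b} h1.subset_ground).1 h1
  exact hne (h2.injOn (mem_insert a {b}) (mem_insert_of_mem a rfl) hab)

theorem rep_ne_zero {F : Type} [Field F] {V : Type} [AddCommGroup V] [Module F V]
    {M : Matroid α} {v : α → V} (h : IsRep F M v) (hs : Simple M) {a : α} (ha : a ∈ M.E) :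
    v a ≠ 0 := by
  have h1 : M.Indep {a} := hs _ (by simpa using ha) (by simp)
  have h2 := (h {a} h1.subset_ground).1 h1
  exact h2.ne_zero (mem_singleton a)

theorem finrank_span_le {F : Type} [Field F] {V : Type} [AddCommGroup V] [Module F V]
    [Finite V] {M : Matroid α} {v : α → V} (h : IsRep F M v) {n : ℕ} (hr : M.eRank ≤ n) :
    Module.finrank F (span F (v '' M.E)) ≤ n := by
  classical
  obtain ⟨b, hb, hspan, hli⟩ := exists_linearIndependent F (v '' M.E)
  -- choose preimages
  have hbf : Finite b := Subtype.finite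
  have : Fintype b := Fintype.ofFinite b
  choose g hg1 hg2 using fun x : b => hb x.2
  have hginj : Function.Injective g := by
    intro x y hxy
    apply Subtype.ext
    rw [← hg2 x, ← hg2 y, hxy]
  have hI : LinearIndepOn F v (range g) := by
    rw [linearIndepOn_range_iff hginj]
    have : v ∘ g = ((↑) : b → V) := by
      funext x; exact hg2 x
    rw [this]; exact hli
  have hIE : range g ⊆ M.E := by rintro _ ⟨x, rfl⟩; exact hg1 x
  have hInd := (h _ hIE).2 hI
  have h1 := hInd.encard_le_eRank.trans hr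
  have h2 : (range g).encard = Fintype.card b := by
    rw [← image_univ, hginj.encard_image, Set.encard_univ]
    simp
  rw [h2] at h1
  have h3 : Module.finrank F (span F (v '' M.E)) = Fintype.card b := by
    rw [← hspan]
    exact finrank_span_set_eq_card hli |>.trans (by rw [Set.toFinset_card])
  rw [h3]
  exact_mod_cast h1

/-- A simple matroid of rank at most `n` in the class has fewer than `2 ^ (n + 1)` elements. -/
theorem Good.card_lt {F : Type} [Field F] {M : Matroid α} (h : Good F M) (hs : Simple M)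
    {n : ℕ} (hr : M.eRank ≤ n) : M.E.encard < ((2 ^ (n + 1) : ℕ) : ℕ∞) := by
  obtain ⟨V, i1, i2, i3, v, X, hrep, hX, hcard⟩ := h
  set U : Submodule F V := span F (v '' M.E) with hU
  have hvC : v '' M.E ⊆ (X : Set V) := by
    rintro _ ⟨c, hc, rfl⟩
    exact hX c hc
  have hUX : U ≤ span F (X : Set V) := span_mono hvC
  have hFin : Finite (V ⧸ U) := Finite.of_surjective _ (Submodule.mkQ_surjective U)
  have h1 := card_quot (F := F) X U
  have h2 := finrank_quot (F := F) X U hUX
  have h3 := pow_le_card (F := F) (X.map U.mkQ.toAddMonoidHom)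
  have h4 : Module.finrank F U ≤ n := finrank_span_le hrep hr
  set Y : AddSubgroup V := X ⊓ U.toAddSubgroup with hY
  have h5 : 2 ^ (Module.finrank F (span F ((X.map U.mkQ.toAddMonoidHom : AddSubgroup (V ⧸ U)) :
          Set (V ⧸ U)))) * Nat.card Y ≤
      2 ^ (Module.finrank F (span F ((X.map U.mkQ.toAddMonoidHom : AddSubgroup (V ⧸ U)) :
          Set (V ⧸ U)))) * 2 ^ (n + 1) := by
    calc _ ≤ Nat.card (X.map U.mkQ.toAddMonoidHom) * Nat.card Y := Nat.mul_le_mul_right _ h3
      _ = Nat.card X := h1
      _ ≤ _ := hcard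
      _ ≤ 2 ^ (Module.finrank F (span F ((X.map U.mkQ.toAddMonoidHom : AddSubgroup (V ⧸ U)) :
          Set (V ⧸ U))) + (n + 1)) := Nat.pow_le_pow_right (by norm_num) (by omega)
      _ = _ := pow_add _ _ _
  have h6 : Nat.card Y ≤ 2 ^ (n + 1) := Nat.le_of_mul_le_mul_left h5 (by positivity)
  have h7 : insert 0 (v '' M.E) ⊆ (Y : Set V) := by
    intro x hx
    rcases hx with rfl | ⟨a, ha, rfl⟩
    · exact Y.zero_mem
    · exact ⟨hX a ha, subset_span ⟨a, ha, rfl⟩⟩
  have h8 : (0 : V) ∉ v '' M.E := by
    rintro ⟨a, ha, h0⟩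
    exact rep_ne_zero hrep hs ha h0
  have h9 := Set.encard_le_encard h7
  rw [Set.encard_insert_of_notMem h8, (rep_inj hrep hs).encard_image] at h9
  have h10 : (Y : Set V).encard ≤ ((2 ^ (n + 1) : ℕ) : ℕ∞) := by
    have : (Y : Set V).encard = (Nat.card Y : ℕ∞) := by
      rw [Set.encard, ENat.card_eq_coe_natCard]
      rfl
    rw [this]
    exact_mod_cast h6
  have h11 : M.E.encard + 1 ≤ ((2 ^ (n + 1) : ℕ) : ℕ∞) := h9.trans h10
  exact (ENat.add_one_le_iff (by
    intro htop
    rw [htop] at h11
    simp at h11)).1 h11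

end Pool.Agent.H595R3.Kung
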