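import Mathlib
import Pool.Agent.H595R3.Kung2

set_option autoImplicit false

namespace Pool.Agent.H595R3.Kung

open Set Submodule

variable {α β : Type}

theorem finrank_span_image_eq_ncard {ι : Type} (F : Type) [Field F] {W : Type} [AddCommGroup W]
    [Module F W] [Finite ι] (v : ι → W) (K : Set ι) (hK : LinearIndepOn F v K) :
    Module.finrank F (Submodule.span F (v '' K)) = K.ncard := by
  have : Fintype K := Fintype.ofFinite K
  have h := finrank_span_eq_card (R := F) (b := fun x : K => v x) hK
  rw [← Nat.card_eq_fintype_card, Nat.card_coe_set_eq] at h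
  rw [← h, Set.image_eq_range]

/-- The matroid on a finite index type in which a set is independent when the corresponding
vectors are linearly independent. -/
noncomputable def vecMat {ι : Type} (F : Type) [Field F] {W : Type} [AddCommGroup W]
    [Module F W] [Finite ι] (v : ι → W) : Matroid ι :=
  (IndepMatroid.ofFinite (E := Set.univ) Set.finite_univ (fun I => LinearIndepOn F v I)
    (linearIndepOn_empty F v)
    (fun _ _ hJ hIJ => hJ.mono hIJ)
    (by
      intro I J hI hJ hlt
      by_contra hcon
      push Not at hcon
      have hspan : Submodule.span F (v '' J) ≤ Submodule.span F (v '' I) := by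
        rw [Submodule.span_le]
        rintro _ ⟨e, heJ, rfl⟩
        by_cases heI : e ∈ I
        · exact Submodule.subset_span ⟨e, heI, rfl⟩
        · by_contra hn
          exact hcon e heJ heI (hI.insert hn)
      have hfI : (v '' I).Finite := Set.toFinite _
      have : FiniteDimensional F (Submodule.span F (v '' I)) :=
        FiniteDimensional.span_of_finite F hfI
      have h1 : Module.finrank F (Submodule.span F (v '' J))
          ≤ Module.finrank F (Submodule.span F (v '' I)) :=
        Submodule.finrank_mono hspan
      rw [finrank_span_image_eq_ncard F v I hI, finrank_span_image_eq_ncard F v J hJ] at h1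
      omega)
    (fun I _ => Set.subset_univ I)).matroid

theorem vecMat_indep {ι : Type} (F : Type) [Field F] {W : Type} [AddCommGroup W]
    [Module F W] [Finite ι] (v : ι → W) (I : Set ι) :
    (vecMat F v).Indep I ↔ LinearIndepOn F v I := by
  simp [vecMat]

theorem vecMat_ground {ι : Type} (F : Type) [Field F] {W : Type} [AddCommGroup W]
    [Module F W] [Finite ι] (v : ι → W) : (vecMat F v).E = Set.univ := by
  simp [vecMat]

theorem vecMat_rep {ι : Type} (F : Type) [Field F] {W : Type} [AddCommGroup W]
    [Module F W] [Finite ι] (v : ι → W) : IsRep F (vecMat F v) v :=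
  fun I _ => vecMat_indep F v I

theorem rep_eRank_le {F : Type} [Field F] {V : Type} [AddCommGroup V] [Module F V]
    [Module.Finite F V] {M : Matroid α} {v : α → V} (h : IsRep F M v) {n : ℕ}
    (hn : Module.finrank F V ≤ n) : M.eRank ≤ n := by
  obtain ⟨B, hB⟩ := M.exists_isBase
  rw [← hB.encard_eq_eRank]
  have h1 := (h B hB.subset_ground).1 hB.indep
  have h2 : Set.encard B ≤ (Module.finrank F V : ℕ∞) := by
    have hfin : Finite B := by
      have := LinearIndependent.finite h1
      exact this
    have : Fintype B := Fintype.ofFinite B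
    have h3 := LinearIndependent.fintype_card_le_finrank h1
    rw [Set.encard, ENat.card_eq_coe_fintype_card]
    exact_mod_cast h3
  exact h2.trans (by exact_mod_cast hn)

/-- Over a field with `r` elements a line has at most `r + 1` points. -/
theorem line_bound {F : Type} [Field F] [Finite F] {V : Type} [AddCommGroup V] [Module F V]
    [Finite V] {M : Matroid α} {v : α → V} (h : IsRep F M v) {m : ℕ}
    (hE : M.E.encard = m) (hI : ∀ I ⊆ M.E, (M.Indep I ↔ I.encard ≤ 2)) :
    m ≤ Nat.card F + 1 := by
  have hs : Simple M := fun I hIE hc => (hI I hIE).2 hc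
  have hr : M.eRank ≤ (2 : ℕ) := by
    obtain ⟨B, hB⟩ := M.exists_isBase
    rw [← hB.encard_eq_eRank]
    exact (hI B hB.subset_ground).1 hB.indep
  have hr2 := finrank_span_le h hr
  set S : Submodule F V := span F (v '' M.E) with hS
  have hmemS : ∀ a ∈ M.E, v a ∈ S := fun a ha => subset_span ⟨a, ha, rfl⟩
  let f : M.E → Projectivization F S := fun a =>
    Projectivization.mk F ⟨v a, hmemS a a.2⟩ (by
      intro h0
      exact rep_ne_zero h hs a.2 (congrArg Subtype.val h0))
  have hf : Function.Injective f := by
    intro a b hab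
    by_contra hne
    have hne' : (a : α) ≠ b := fun h => hne (Subtype.ext h)
    obtain ⟨c, hc⟩ := (Projectivization.mk_eq_mk_iff' F _ _ _ _).1 hab
    have hc' : c • v b = v a := congrArg Subtype.val hc
    have h1 : M.Indep {(a : α), (b : α)} := hs _ (by
      intro x hx
      rcases hx with rfl | hx
      · exact a.2
      · rw [mem_singleton_iff] at hx; rw [hx]; exact b.2) (by
      refine (Set.encard_insert_le {(b : α)} a).trans ?_
      rw [Set.encard_singleton]
      exact le_of_eq one_add_one_eq_two)
    have h2 := (h _ h1.subset_ground).1 h1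
    rw [LinearIndepOn.pair_iff v hne'] at h2
    have h3 := h2 1 (-c) (by rw [one_smul, neg_smul, hc', add_neg_cancel])
    exact one_ne_zero h3.1
  have hPfin : Finite (Projectivization F S) := inferInstance
  have h5 := Nat.card_le_card_of_injective f hf
  have h6 := Projectivization.card_of_finrank F S (n := Module.finrank F S) rfl
  have h7 : Nat.card (Projectivization F S) ≤ Nat.card F + 1 := by
    rw [h6]
    calc ∑ i ∈ Finset.range (Module.finrank F S), Nat.card F ^ i
        ≤ ∑ i ∈ Finset.range 2, Nat.card F ^ i :=
          Finset.sum_le_sum_of_subset (Finset.range_mono hr2)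
      _ = _ := by simp [Finset.sum_range_succ]; ring
  have h8 : Nat.card M.E = m := by
    rw [Nat.card_coe_set_eq, Set.ncard, hE]
    simp
  omega

/-- A simple matroid of rank at most `n` represented over a field with `r` elements has fewer
than `r ^ n` elements. -/
theorem simple_bound {F : Type} [Field F] [Finite F] {V : Type} [AddCommGroup V] [Module F V]
    [Finite V] {M : Matroid α} {v : α → V} (h : IsRep F M v) (hs : Simple M) {n : ℕ}
    (hr : M.eRank ≤ n) : M.E.encard < ((Nat.card F ^ n : ℕ) : ℕ∞) := by
  have hr2 := finrank_span_le h hr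
  set S : Submodule F V := span F (v '' M.E) with hS
  have h7 : insert 0 (v '' M.E) ⊆ (S : Set V) := by
    intro x hx
    rcases hx with rfl | ⟨a, ha, rfl⟩
    · exact S.zero_mem
    · exact subset_span ⟨a, ha, rfl⟩
  have h8 : (0 : V) ∉ v '' M.E := by
    rintro ⟨a, ha, h0⟩
    exact rep_ne_zero h hs ha h0
  have h9 := Set.encard_le_encard h7
  rw [Set.encard_insert_of_notMem h8, (rep_inj h hs).encard_image] at h9
  have h10 : (S : Set V).encard ≤ ((Nat.card F ^ n : ℕ) : ℕ∞) := by
    have e : (S : Set V).encard = (Nat.card S : ℕ∞) := by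
      rw [Set.encard, ENat.card_eq_coe_natCard]
      rfl
    rw [e, Module.natCard_eq_pow_finrank (K := F)]
    exact_mod_cast Nat.pow_le_pow_right Nat.card_pos hr2
  have h11 : M.E.encard + 1 ≤ ((Nat.card F ^ n : ℕ) : ℕ∞) := h9.trans h10
  exact (ENat.add_one_le_iff (by
    intro htop
    rw [htop] at h11
    simp at h11)).1 h11

/-- The projective geometry of rank 4 over `F`. -/
noncomputable def PG (F : Type) [Field F] [Finite F] :
    Matroid (Projectivization F (Fin 4 → F)) :=
  vecMat F (fun p => p.rep)

theorem PG_simple (F : Type) [Field F] [Finite F] : Simple (PG F) := by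
  intro I _ hI
  rw [PG, vecMat_indep]
  by_cases hsub : I.Subsingleton
  · rcases hsub.eq_empty_or_singleton with rfl | ⟨x, rfl⟩
    · exact linearIndepOn_empty F _
    · exact LinearIndepOn.singleton (Projectivization.rep_nonzero x)
  · rw [Set.not_subsingleton_iff] at hsub
    obtain ⟨x, hx, y, hy, hxy⟩ := hsub
    have hpair : ({x, y} : Set (Projectivization F (Fin 4 → F))) ⊆ I := by
      intro z hz
      rcases hz with rfl | hz
      · exact hx
      · rw [mem_singleton_iff] at hz; rw [hz]; exact hy
    have hfin : ({x, y} : Set (Projectivization F (Fin 4 → F))).Finite := Set.toFinite _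
    have heq : ({x, y} : Set (Projectivization F (Fin 4 → F))) = I :=
      hfin.eq_of_subset_of_encard_le hpair (by rw [Set.encard_pair hxy]; exact hI)
    rw [← heq, linearIndepOn_pair_iff _ hxy (Projectivization.rep_nonzero x)]
    intro c hc
    apply hxy
    rw [← Projectivization.mk_rep x, ← Projectivization.mk_rep y]
    rw [Projectivization.mk_eq_mk_iff']
    by_cases hc0 : c = 0
    · exfalso
      rw [hc0, zero_smul] at hc
      exact Projectivization.rep_nonzero y hc.symm
    · exact ⟨c⁻¹, by rw [← hc, smul_smul, inv_mul_cancel₀ hc0, one_smul]⟩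

theorem PG_rank (F : Type) [Field F] [Finite F] : (PG F).eRank ≤ (4 : ℕ) :=
  rep_eRank_le (vecMat_rep F _) (by simp)

theorem PG_card (F : Type) [Field F] [Finite F] (h : 3 ≤ Nat.card F) :
    ((40 : ℕ) : ℕ∞) ≤ (PG F).E.encard := by
  rw [PG, vecMat_ground, Set.encard_univ, ENat.card_eq_coe_natCard]
  have h1 := Projectivization.card_of_finrank F (Fin 4 → F) (n := 4) (by simp)
  rw [h1]
  have h2 : 3 ^ 2 ≤ Nat.card F ^ 2 := Nat.pow_le_pow_left h 2
  have h3 : 3 ^ 3 ≤ Nat.card F ^ 3 := Nat.pow_le_pow_left h 3
  have : 40 ≤ ∑ i ∈ Finset.range 4, Nat.card F ^ i := by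
    simp only [Finset.sum_range_succ, Finset.sum_range_zero, pow_zero, pow_one]
    omega
  exact_mod_cast this

end Pool.Agent.H595R3.Kung
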