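import Mathlib
import Pool.Agent.H595R3.Kung3

set_option autoImplicit false

namespace Pool.Agent.H595R3.Kung

open Set Submodule

/-- the field with four elements -/
abbrev F4 : Type := GaloisField 2 2

theorem card_F4 : Nat.card F4 = 4 := by
  rw [GaloisField.card 2 2 (by norm_num)]; norm_num

instance : Finite F4 := Nat.finite_of_card_ne_zero (by rw [card_F4]; norm_num)

/-- index type of the dense matroid: one coordinate in `F4`, the others in `ZMod 2` -/
abbrev Ix (m : ℕ) : Type := F4 × (Fin m → ZMod 2)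

/-- the additive map embedding the index type in a vector space over `F4` -/
noncomputable def vv (m : ℕ) : Ix m →+ F4 × (Fin m → F4) where
  toFun p := (p.1, fun i => algebraMap (ZMod 2) F4 (p.2 i))
  map_zero' := by
    ext i
    · rfl
    · simp
  map_add' p q := by
    ext i
    · rfl
    · simp

theorem vv_fst (m : ℕ) (p : Ix m) : (vv m p).1 = p.1 := rfl

theorem vv_snd (m : ℕ) (p : Ix m) (i : Fin m) : (vv m p).2 i = algebraMap (ZMod 2) F4 (p.2 i) := rfl

/-- the dense matroid of rank `m + 1` -/
noncomputable def GG (m : ℕ) : Matroid (Ix m) := vecMat F4 (vv m)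

theorem vv_inj (m : ℕ) : Function.Injective (vv m) := by
  intro p q h
  apply Prod.ext
  · have := congrArg Prod.fst h
    exact this
  · funext i
    have h2 := congrFun (congrArg Prod.snd h) i
    rw [vv_snd, vv_snd] at h2
    exact (algebraMap (ZMod 2) F4).injective h2

theorem span_vv (m : ℕ) : span F4 (((vv m).range : AddSubgroup _) : Set (F4 × (Fin m → F4))) = ⊤ := by
  rw [eq_top_iff]
  rintro ⟨a, y⟩ _
  have h1 : ∀ b : F4, ((b, 0) : F4 × (Fin m → F4)) ∈
      span F4 (((vv m).range : AddSubgroup _) : Set (F4 × (Fin m → F4))) := by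
    intro b
    apply subset_span
    refine ⟨(b, 0), ?_⟩
    ext i
    · rfl
    · rw [vv_snd]; simp
  have h2 : ∀ i : Fin m, ((0, Pi.single i 1) : F4 × (Fin m → F4)) ∈
      span F4 (((vv m).range : AddSubgroup _) : Set (F4 × (Fin m → F4))) := by
    intro i
    apply subset_span
    refine ⟨(0, Pi.single i 1), ?_⟩
    ext j
    · rfl
    · rw [vv_snd]
      by_cases h : j = i
      · subst h; simp
      · simp [Pi.single_eq_of_ne h]
  have h3 : ((a, y) : F4 × (Fin m → F4)) = (a, 0) + ∑ i, y i • ((0, Pi.single i 1) : F4 × (Fin m → F4)) := by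
    ext j
    · simp [Prod.fst_sum]
    · simp only [Prod.snd_add, Prod.snd_sum, Prod.smul_snd, Pi.add_apply, Pi.zero_apply,
        zero_add, Finset.sum_apply, Pi.smul_apply, smul_eq_mul]
      simp [Pi.single_apply]
  rw [h3]
  exact add_mem (h1 a) (sum_mem (fun i _ => smul_mem _ _ (h2 i)))

theorem finrank_VV (m : ℕ) : Module.finrank F4 (F4 × (Fin m → F4)) = m + 1 := by
  rw [Module.finrank_prod]
  simp
  ring

theorem GG_good (m : ℕ) : Good F4 (GG m) := by
  refine ⟨F4 × (Fin m → F4), inferInstance, inferInstance, inferInstance, vv m, (vv m).range,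
    vecMat_rep F4 _, fun a _ => ⟨a, rfl⟩, ?_⟩
  rw [span_vv, finrank_top, finrank_VV]
  have h1 : Nat.card (vv m).range = Nat.card (Ix m) :=
    (Nat.card_congr (AddMonoidHom.ofInjective (vv_inj m)).toEquiv).symm
  rw [h1, Nat.card_prod, card_F4, Nat.card_fun]
  simp
  ring_nf
  exact le_rfl

theorem GG_rank (m : ℕ) : (GG m).eRank = ((m + 1 : ℕ) : ℕ∞) := by
  have hup : (GG m).eRank ≤ ((m + 1 : ℕ) : ℕ∞) := by
    have := rep_eRank_le (vecMat_rep F4 (vv m)) (n := m + 1) (by rw [finrank_VV])
    exact this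
  apply le_antisymm hup
  obtain ⟨r, hr⟩ := ENat.ne_top_iff_exists.1 (ne_top_of_le_ne_top (ENat.natCast_ne_top (m + 1)) hup)
  rw [← hr]
  have h1 := finrank_span_le (vecMat_rep F4 (vv m)) (n := r) (by
    have : (vecMat F4 (vv m)).eRank = r := hr.symm
    rw [this])
  have h2 : (⇑(vv m)) '' (vecMat F4 (vv m)).E =
      (((vv m).range : AddSubgroup _) : Set (F4 × (Fin m → F4))) := by
    rw [vecMat_ground, image_univ]; rfl
  rw [h2, span_vv, finrank_top, finrank_VV] at h1
  exact_mod_cast h1

/-- the chosen representatives of the points -/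
def RR (m : ℕ) : Set (Ix m) := {p | p.2 ≠ 0} ∪ {(1, 0)}

theorem RR_encard (m : ℕ) : (RR m).encard = ((2 ^ (m + 2) - 3 : ℕ) : ℕ∞) := by
  have h1 : {p : Ix m | p.2 ≠ 0} = (Set.univ : Set F4) ×ˢ ({0}ᶜ : Set (Fin m → ZMod 2)) := by
    ext p; simp
  have h2 : (1, 0) ∉ {p : Ix m | p.2 ≠ 0} := by simp
  have hfin : Fintype F4 := Fintype.ofFinite _
  have h3 : (({0}ᶜ : Set (Fin m → ZMod 2))).ncard = 2 ^ m - 1 := by
    rw [Set.ncard_compl, Nat.card_fun, Set.ncard_singleton]
    simp
  have h4 : {p : Ix m | p.2 ≠ 0}.ncard = 4 * (2 ^ m - 1) := by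
    rw [h1, Set.ncard_prod, h3, Set.ncard_univ, card_F4]
  have h5 : (RR m).ncard = 4 * (2 ^ m - 1) + 1 := by
    unfold RR
    rw [Set.union_singleton, Set.ncard_insert_of_notMem h2, h4]
  rw [← Set.Finite.cast_ncard_eq (Set.toFinite (RR m)), h5]
  congr 1
  have : 1 ≤ 2 ^ m := Nat.one_le_two_pow
  have e : 2 ^ (m + 2) = 4 * 2 ^ m := by ring
  omega

theorem RR_indep_single (m : ℕ) {r : Ix m} (hr : r ∈ RR m) : (GG m).Indep {r} := by
  rw [GG, vecMat_indep]
  apply LinearIndepOn.singleton
  intro h0
  have : r = 0 := vv_inj m (by rw [h0, map_zero])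
  rw [this] at hr
  rcases hr with h | h
  · exact h rfl
  · rw [mem_singleton_iff] at h
    exact zero_ne_one (congrArg Prod.fst h)

theorem RR_indep (m : ℕ) {p q : Ix m} (hp : p ∈ RR m) (hq : q ∈ RR m) (hne : p ≠ q) :
    (GG m).Indep {p, q} := by
  rw [GG, vecMat_indep, LinearIndepOn.pair_iff _ hne]
  have hnz : ∀ r ∈ RR m, vv m r ≠ 0 := by
    intro r hr h0
    have : r = 0 := vv_inj m (by rw [h0, map_zero])
    rw [this] at hr
    rcases hr with h | h
    · exact h rfl
    · rw [mem_singleton_iff] at h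
      exact zero_ne_one (congrArg Prod.fst h)
  -- proportional vectors coincide
  have key : ∀ p ∈ RR m, ∀ q ∈ RR m, ∀ c : F4, vv m p = c • vv m q → p = q := by
    intro p hp q hq c hc
    have hc1 : p.1 = c * q.1 := congrArg Prod.fst hc
    have hc2 : ∀ i, algebraMap (ZMod 2) F4 (p.2 i) = c * algebraMap (ZMod 2) F4 (q.2 i) :=
      fun i => congrFun (congrArg Prod.snd hc) i
    have hz : ∀ z : ZMod 2, z ≠ 0 → z = 1 := by decide
    by_cases hy : p.2 = 0
    · -- p = (1,0)
      have hp1 : p = (1, 0) := by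
        rcases hp with h | h
        · exact absurd hy h
        · exact h
      have hc0 : c ≠ 0 := by
        intro h0
        rw [h0, zero_smul] at hc
        exact hnz p hp hc
      have hq2 : q.2 = 0 := by
        funext i
        have h1 := hc2 i
        rw [hy] at h1
        simp only [Pi.zero_apply, map_zero] at h1
        have h2 : algebraMap (ZMod 2) F4 (q.2 i) = 0 := by
          rcases mul_eq_zero.1 h1.symm with h | h
          · exact absurd h hc0
          · exact h
        exact (map_eq_zero _).1 h2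
      have hq1 : q = (1, 0) := by
        rcases hq with h | h
        · exact absurd hq2 h
        · exact h
      rw [hp1, hq1]
    · have : ∃ i, p.2 i ≠ 0 := by
        by_contra hcon
        push Not at hcon
        exact hy (funext hcon)
      obtain ⟨i, hi⟩ := this
      have h1 := hc2 i
      rw [hz _ hi, map_one] at h1
      have hqi : q.2 i ≠ 0 := by
        intro h0
        rw [h0, map_zero, mul_zero] at h1
        exact one_ne_zero h1
      rw [hz _ hqi, map_one, mul_one] at h1
      rw [← h1, one_smul] at hc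
      exact vv_inj m hc
  intro s t hst
  by_cases hs : s = 0
  · refine ⟨hs, ?_⟩
    rw [hs, zero_smul, zero_add] at hst
    rcases smul_eq_zero.1 hst with h | h
    · exact h
    · exact absurd h (hnz q hq)
  · exfalso
    apply hne
    apply key p hp q hq (-(s⁻¹ * t))
    have h1 : s⁻¹ • (s • vv m p + t • vv m q) = 0 := by rw [hst, smul_zero]
    rw [smul_add, smul_smul, smul_smul, inv_mul_cancel₀ hs, one_smul] at h1
    rw [neg_smul]
    exact eq_neg_of_add_eq_zero_left h1

end Pool.Agent.H595R3.Kung
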