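import Pool.Agent.H913R3.MH.Stmts

/-! Task 7 of project H913-MH (Borel-Cantelli). -/

open MeasureTheory Set Filter Topology
open scoped ENNReal

namespace H595R3.MHBC

open H913R3.MH

lemma key {ι : Type} [Fintype ι] [DecidableEq ι] (f : (ι → ℝ) → ℝ) (hf : Measurable f)
    (a : ℝ) (ha : 1 ≤ |a|) (i0 : ι)
    (hs : ∀ y t, f (y - Pi.single i0 t) = f y - a * t) (r : ℝ) (hr : 0 < r) :
    volume {y : ι → ℝ | (∀ i, y i ∈ Icc (0 : ℝ) 1) ∧ ∃ p : ℤ, |f y - p| < r} ≤
      ENNReal.ofReal (12 * r) := by
  set T : Set (ι → ℝ) := {y | (∀ i, y i ∈ Icc (0 : ℝ) 1) ∧ ∃ p : ℤ, |f y - p| < r} with hT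
  have hTm : MeasurableSet T := by
    have h1 : MeasurableSet {y : ι → ℝ | ∀ i, y i ∈ Icc (0 : ℝ) 1} := by
      have : {y : ι → ℝ | ∀ i, y i ∈ Icc (0 : ℝ) 1} = Set.pi univ (fun _ => Icc (0 : ℝ) 1) := by
        ext y; exact ⟨fun h i _ => h i, fun h i => h i (mem_univ i)⟩
      rw [this]
      exact MeasurableSet.univ_pi (fun _ => measurableSet_Icc)
    have h2 : MeasurableSet {y : ι → ℝ | ∃ p : ℤ, |f y - p| < r} := by
      have : {y : ι → ℝ | ∃ p : ℤ, |f y - p| < r} = ⋃ p : ℤ, {y | |f y - p| < r} := by
        ext y; simp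
      rw [this]
      refine MeasurableSet.iUnion (fun p => ?_)
      exact measurableSet_lt (by fun_prop) measurable_const
    exact h1.inter h2
  rcases le_or_gt r (1 / 4) with hr4 | hr4
  · set K : ℕ := ⌊1 / (2 * r)⌋₊ with hK
    have hKle : (K : ℝ) ≤ 1 / (2 * r) := Nat.floor_le (by positivity)
    have hKge : 1 / (4 * r) ≤ (K : ℝ) := by
      have h1 : 1 / (2 * r) < (K : ℝ) + 1 := Nat.lt_floor_add_one _
      have h2 : 1 ≤ 1 / (4 * r) := by
        rw [le_div_iff₀ (by positivity)]; linarith
      have h3 : 1 / (2 * r) = 1 / (4 * r) + 1 / (4 * r) := by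
        field_simp; ring
      linarith
    have hK1 : (1 : ℝ) ≤ K := by
      have h2 : 1 ≤ 1 / (4 * r) := by
        rw [le_div_iff₀ (by positivity)]; linarith
      linarith
    have hK0 : (0 : ℝ) < K := by linarith
    have h2r : 2 * r * K ≤ 1 := by
      rw [le_div_iff₀ (by positivity)] at hKle
      linarith
    have ha0 : a ≠ 0 := by
      intro h; rw [h, abs_zero] at ha; linarith
    let v : ℕ → (ι → ℝ) := fun i => Pi.single i0 ((i : ℝ) / (K * a))
    let S : ℕ → Set (ι → ℝ) := fun i => (fun y => y - v i) ⁻¹' T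
    have hSv : ∀ i, volume (S i) = volume T := by
      intro i
      have : S i = (fun y => y + (- v i)) ⁻¹' T := by
        ext y; simp [S, sub_eq_add_neg]
      rw [this, measure_preimage_add_right]
    have hSm : ∀ i, MeasurableSet (S i) := fun i =>
      hTm.preimage (measurable_id.sub measurable_const)
    have hfv : ∀ i y, f (y - v i) = f y - (i : ℝ) / K := by
      intro i y
      rw [hs]
      congr 1
      field_simp
    have hdisj : Set.PairwiseDisjoint (↑(Finset.range K)) S := by
      intro i hi j hj hij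
      rw [Function.onFun, Set.disjoint_left]
      intro y hyi hyj
      obtain ⟨-, p, hp⟩ := hyi
      obtain ⟨-, p', hp'⟩ := hyj
      rw [hfv] at hp hp'
      have hi' : i < K := by simpa using hi
      have hj' : j < K := by simpa using hj
      have h1 : |((j : ℝ) / K - (i : ℝ) / K) + ((p' : ℝ) - p)| < 2 * r := by
        have e : ((j : ℝ) / K - (i : ℝ) / K) + ((p' : ℝ) - p) =
          (f y - (i : ℝ) / K - p) - (f y - (j : ℝ) / K - p') := by ring
        rw [e]
        calc _ ≤ |f y - (i : ℝ) / K - p| + |f y - (j : ℝ) / K - p'| := abs_sub _ _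
          _ < 2 * r := by linarith
      have h2 : |((j : ℝ) - i) + K * ((p' : ℝ) - p)| < 1 := by
        have e : ((j : ℝ) - i) + K * ((p' : ℝ) - p) =
          (((j : ℝ) / K - (i : ℝ) / K) + ((p' : ℝ) - p)) * K := by
          field_simp
        rw [e, abs_mul, abs_of_pos hK0]
        calc _ < 2 * r * K := by
              exact mul_lt_mul_of_pos_right h1 hK0
          _ ≤ 1 := h2r
      have h3 : |((j : ℤ) - i) + K * (p' - p)| < 1 := by
        have : ((|((j : ℤ) - i) + K * (p' - p)| : ℤ) : ℝ) < 1 := by
          push_cast; exact h2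
        exact_mod_cast this
      rw [Int.abs_lt_one_iff] at h3
      have h4 : ((i : ℤ) - j) = K * (p' - p) := by linarith
      have h5 : p' - p = 0 := by
        by_contra hne
        have h6 : 1 ≤ |p' - p| := Int.one_le_abs hne
        have h7 : |((i : ℤ) - j)| = K * |p' - p| := by
          rw [h4, abs_mul]; simp
        have h8 : |((i : ℤ) - j)| < K := by
          rw [abs_lt]; constructor <;> omega
        have h9 : (K : ℤ) ≤ K * |p' - p| := by nlinarith
        omega
      rw [h5, mul_zero] at h4
      exact hij (by omega)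
    let box : Set (ι → ℝ) := Set.pi univ (fun i => if i = i0 then Icc (-1 : ℝ) 2 else Icc 0 1)
    have hbox : volume box = 3 := by
      rw [show box = Set.pi univ (fun i => if i = i0 then Icc (-1 : ℝ) 2 else Icc 0 1) from rfl,
        volume_pi_pi]
      have : ∀ i, volume (if i = i0 then Icc (-1 : ℝ) 2 else Icc 0 1) =
          if i = i0 then (3 : ℝ≥0∞) else 1 := by
        intro i
        split_ifs
        · rw [Real.volume_Icc]; norm_num
        · rw [Real.volume_Icc]; norm_num
      simp_rw [this]
      simp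
    have hsub : (⋃ i ∈ Finset.range K, S i) ⊆ box := by
      intro y hy
      simp only [mem_iUnion] at hy
      obtain ⟨i, hi, hy⟩ := hy
      have hi' : i < K := by simpa using hi
      obtain ⟨hy, -⟩ := hy
      intro j _
      have h0 := hy j
      show y j ∈ (if j = i0 then Icc (-1 : ℝ) 2 else Icc 0 1)
      split_ifs with hj
      · subst hj
        simp only [v, Pi.sub_apply, Pi.single_eq_same, mem_Icc] at h0
        have h1 : |(i : ℝ) / (K * a)| ≤ 1 := by
          rw [abs_div, abs_mul, div_le_one (by positivity), Nat.abs_cast, Nat.abs_cast]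
          have : (i : ℝ) ≤ K := by exact_mod_cast hi'.le
          nlinarith [abs_nonneg a]
        rw [abs_le] at h1
        constructor <;> linarith [h0.1, h0.2, h1.1, h1.2]
      · simp only [v, Pi.sub_apply, Pi.single_eq_of_ne hj, sub_zero] at h0
        exact h0
    have hsum : (K : ℝ≥0∞) * volume T ≤ 3 := by
      calc (K : ℝ≥0∞) * volume T = ∑ i ∈ Finset.range K, volume (S i) := by
            simp [hSv]
        _ = volume (⋃ i ∈ Finset.range K, S i) :=
            (measure_biUnion_finset hdisj (fun i _ => hSm i)).symm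
        _ ≤ volume box := measure_mono hsub
        _ = 3 := hbox
    have hKne : (K : ℝ≥0∞) ≠ 0 := by
      have : K ≠ 0 := by
        intro h; rw [h] at hK1; norm_num at hK1
      exact_mod_cast this
    calc volume T ≤ 3 / (K : ℝ≥0∞) := by
          rw [ENNReal.le_div_iff_mul_le (Or.inl hKne) (Or.inl (ENNReal.natCast_ne_top K)), mul_comm]
          exact hsum
      _ = ENNReal.ofReal (3 / K) := by
          rw [ENNReal.ofReal_div_of_pos hK0]
          simp
      _ ≤ ENNReal.ofReal (12 * r) := by
          apply ENNReal.ofReal_le_ofReal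
          rw [div_le_iff₀ hK0]
          have : 1 ≤ 4 * r * K := by
            rw [div_le_iff₀ (by positivity)] at hKge
            linarith
          nlinarith
  · calc volume T ≤ volume (Set.pi univ (fun _ : ι => Icc (0 : ℝ) 1)) := by
          apply measure_mono
          intro y hy j _
          exact hy.1 j
      _ = 1 := by
          rw [volume_pi_pi]; simp
      _ ≤ ENNReal.ofReal (12 * r) := by
          rw [← ENNReal.ofReal_one]
          apply ENNReal.ofReal_le_ofReal
          linarith

theorem taskBC : TaskBC := by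
  intro ι _ m e he δ L hδ hL
  classical
  let B : ℕ → Set (ι → ℝ) := fun k =>
    {y | (∀ i, y i ∈ Icc (0 : ℝ) 1) ∧ ¬ Bd m (m + 1) (L ^ k) δ (fun j => y (e j))}
  have hL0 : (0 : ℝ) < L := by
    have : (2 : ℝ) ≤ L := by exact_mod_cast hL
    linarith
  have hB : ∀ k, volume (B k) ≤ ENNReal.ofReal (3 ^ m * (12 * δ) * (1 / (L : ℝ)) ^ k) := by
    intro k
    let N : ℕ := L ^ k
    have hN : 1 ≤ N := Nat.one_le_pow _ _ (by omega)
    let Q : Finset (Fin m → ℤ) :=
      (Fintype.piFinset (fun _ : Fin m => Finset.Icc (-(N : ℤ)) N)).filter (fun q => q ≠ 0)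
    let r : ℝ := δ / (N : ℝ) ^ (m + 1)
    have hr : 0 < r := by
      have : (0 : ℝ) < N := by exact_mod_cast hN
      positivity
    let T : (Fin m → ℤ) → Set (ι → ℝ) := fun q =>
      {y | (∀ i, y i ∈ Icc (0 : ℝ) 1) ∧ ∃ p : ℤ, |(∑ j, (q j : ℝ) * y (e j)) - p| < r}
    have hsub : B k ⊆ ⋃ q ∈ Q, T q := by
      intro y hy
      obtain ⟨hy1, hy2⟩ := hy
      unfold Bd at hy2
      push Not at hy2
      obtain ⟨q, hq0, hqle, p, hp⟩ := hy2
      simp only [mem_iUnion]
      refine ⟨q, ?_, hy1, p, ?_⟩
      · simp only [Q, Finset.mem_filter, Fintype.mem_piFinset, Finset.mem_Icc]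
        refine ⟨fun j => ?_, hq0⟩
        have := hqle j
        rw [abs_le] at this
        exact this
      · simpa [r, N] using hp
    have hTq : ∀ q ∈ Q, volume (T q) ≤ ENNReal.ofReal (12 * r) := by
      intro q hq
      simp only [Q, Finset.mem_filter] at hq
      have hq0 := hq.2
      obtain ⟨j0, hj0⟩ : ∃ j0, q j0 ≠ 0 := by
        by_contra h
        push Not at h
        exact hq0 (funext h)
      refine key (fun y => ∑ j, (q j : ℝ) * y (e j)) (by fun_prop) (q j0 : ℝ) ?_ (e j0) ?_ r hr
      · have : (1 : ℤ) ≤ |q j0| := Int.one_le_abs hj0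
        exact_mod_cast this
      · intro y t
        simp only [Pi.sub_apply, mul_sub, Finset.sum_sub_distrib]
        congr 1
        rw [Finset.sum_eq_single j0]
        · simp
        · intro j _ hj
          rw [Pi.single_eq_of_ne (fun h => hj (he h))]
          simp
        · simp
    have hcard : (Q.card : ℝ) ≤ (3 * (N : ℝ)) ^ m := by
      have h1 : Q.card ≤ (2 * N + 1) ^ m := by
        calc Q.card ≤ (Fintype.piFinset (fun _ : Fin m => Finset.Icc (-(N : ℤ)) N)).card :=
              Finset.card_filter_le _ _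
          _ = (2 * N + 1) ^ m := by
              rw [Fintype.card_piFinset]
              simp only [Int.card_Icc, Finset.prod_const, Finset.card_univ, Fintype.card_fin]
              congr 1
              omega
      calc (Q.card : ℝ) ≤ ((2 * N + 1) ^ m : ℕ) := by exact_mod_cast h1
        _ = (2 * (N : ℝ) + 1) ^ m := by push_cast; ring
        _ ≤ (3 * (N : ℝ)) ^ m := by
            apply pow_le_pow_left₀ (by positivity)
            have : (1 : ℝ) ≤ N := by exact_mod_cast hN
            linarith
    calc volume (B k) ≤ volume (⋃ q ∈ Q, T q) := measure_mono hsub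
      _ ≤ ∑ q ∈ Q, volume (T q) := measure_biUnion_finset_le _ _
      _ ≤ ∑ q ∈ Q, ENNReal.ofReal (12 * r) := Finset.sum_le_sum hTq
      _ = ENNReal.ofReal (Q.card * (12 * r)) := by
          rw [Finset.sum_const, nsmul_eq_mul, ENNReal.ofReal_mul (by positivity)]
          simp
      _ ≤ ENNReal.ofReal (3 ^ m * (12 * δ) * (1 / (L : ℝ)) ^ k) := by
          apply ENNReal.ofReal_le_ofReal
          calc (Q.card : ℝ) * (12 * r) ≤ (3 * (N : ℝ)) ^ m * (12 * r) :=
                mul_le_mul_of_nonneg_right hcard (by positivity)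
            _ = 3 ^ m * (12 * δ) * (1 / (L : ℝ)) ^ k := by
                have hNL : (N : ℝ) = (L : ℝ) ^ k := by simp [N]
                simp only [r, hNL]
                have : (L : ℝ) ^ k ≠ 0 := by positivity
                rw [one_div, inv_pow, mul_pow, pow_succ]
                field_simp
  have hsum : ∑' k, volume (B k) ≠ ∞ := by
    have hs : Summable (fun k : ℕ => 3 ^ m * (12 * δ) * (1 / (L : ℝ)) ^ k) := by
      apply Summable.mul_left
      apply summable_geometric_of_lt_one (by positivity)
      rw [div_lt_one hL0]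
      have : (2 : ℝ) ≤ L := by exact_mod_cast hL
      linarith
    refine ne_top_of_le_ne_top hs.tsum_ofReal_ne_top (ENNReal.tsum_le_tsum hB)
  filter_upwards [ae_eventually_notMem hsum] with y hy hy1
  filter_upwards [hy] with k hk
  by_contra hcon
  exact hk ⟨hy1, hcon⟩

end H595R3.MHBC
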